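import Mathlib
import Pool.Agent.Lib.MP_1a3405_co.Sn.Fam

/-!
An induced path whose two ends are on the side `p t = 1` of its box, extended by two straight
tails below that side and by a second row above the ends of the tails: the resulting set of
points, as an induced copy of the set `Sh` of points of `ℤ²`.
-/

namespace Pool.Agent.Lib.MP_1a3405_co.Mid

open Pool.Agent.Lib.MP_1a3405_co.Sn

/-- the shape of the extended path -/
def Sh (N i y : ℤ) : Prop :=
  (y = 0 ∧ -2 ≤ i ∧ i ≤ N + 3) ∨ (y = 1 ∧ ((-2 ≤ i ∧ i ≤ 0) ∨ (N + 2 ≤ i ∧ i ≤ N + 3)))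

/-- the points of an induced path, as a function of the position -/
theorem exists_fun {V : Type*} {adj : V → V → Prop} (hirr : ∀ x, ¬ adj x x)
    (hs : ∀ x y, adj x y → adj y x) {a b : V} {L : List V} (h : IP adj a b L) :
    ∃ P : ℤ → V, P 1 = a ∧ P L.length = b ∧
      (∀ k : ℤ, 1 ≤ k → k ≤ L.length → P k ∈ L) ∧
      (∀ j k : ℤ, 1 ≤ j → j ≤ L.length → 1 ≤ k → k ≤ L.length →
        (adj (P j) (P k) ↔ j = k + 1 ∨ k = j + 1) ∧ (P j = P k → j = k)) := by
  induction h with
  | single a =>
    refine ⟨fun _ => a, rfl, rfl, by simp, ?_⟩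
    intro j k h1 h2 h3 h4
    simp only [List.length_cons, List.length_nil, zero_add, Nat.cast_one] at h2 h4
    refine ⟨⟨fun h => absurd h (hirr _), fun h => ?_⟩, fun _ => by omega⟩
    omega
  | @cons a b' e L hab hL hc ih =>
    obtain ⟨P, h1, h2, h3, h4⟩ := ih
    have hlen : 1 ≤ L.length := List.length_pos_of_mem hL.left_mem
    have hval : ∀ k : ℤ, 2 ≤ k → (if k ≤ 1 then a else P (k - 1)) = P (k - 1) := fun k hk =>
      if_neg (by omega)
    have hval1 : ∀ k : ℤ, k ≤ 1 → (if k ≤ 1 then a else P (k - 1)) = a := fun k hk =>
      if_pos hk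
    refine ⟨fun k => if k ≤ 1 then a else P (k - 1), by simp, ?_, ?_, ?_⟩
    · simp only [List.length_cons]
      push_cast
      rw [hval _ (by omega)]
      have : (L.length : ℤ) + 1 - 1 = L.length := by ring
      rw [this, h2]
    · intro k hk1 hk2
      simp only [List.length_cons] at hk2 ⊢
      push_cast at hk2
      by_cases hk : k ≤ 1
      · rw [hval1 k hk]
        simp
      · rw [hval k (by omega)]
        exact List.mem_cons_of_mem _ (h3 _ (by omega) (by omega))
    · intro j k hj1 hj2 hk1 hk2
      simp only [List.length_cons] at hj2 hk2 ⊢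
      push_cast at hj2 hk2
      have key : ∀ k : ℤ, 2 ≤ k → k ≤ L.length + 1 →
          (adj a (P (k - 1)) ↔ k = 2) ∧ a ≠ P (k - 1) := by
        intro k hk1 hk2
        have h5 := hc _ (h3 (k - 1) (by omega) (by omega))
        refine ⟨⟨fun h => ?_, fun h => ?_⟩, h5.1.symm⟩
        · have h6 := h5.2 h
          rw [← h1] at h6
          have := (h4 (k - 1) 1 (by omega) (by omega) (by omega) (by omega)).2 h6
          omega
        · subst h
          have : (2 : ℤ) - 1 = 1 := by norm_num
          rw [this, h1]
          exact hab
      by_cases hj : j ≤ 1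
      · rw [hval1 j hj]
        by_cases hk : k ≤ 1
        · rw [hval1 k hk]
          refine ⟨⟨fun h => absurd h (hirr _), fun h => ?_⟩, fun _ => by omega⟩
          omega
        · rw [hval k (by omega)]
          obtain ⟨g1, g2⟩ := key k (by omega) (by omega)
          refine ⟨?_, fun h => absurd h g2⟩
          rw [g1]
          omega
      · rw [hval j (by omega)]
        by_cases hk : k ≤ 1
        · rw [hval1 k hk]
          obtain ⟨g1, g2⟩ := key j (by omega) (by omega)
          refine ⟨?_, fun h => absurd h.symm g2⟩
          have : adj (P (j - 1)) a ↔ adj a (P (j - 1)) := ⟨hs _ _, hs _ _⟩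
          rw [this, g1]
          omega
        · rw [hval k (by omega)]
          obtain ⟨g1, g2⟩ := h4 (j - 1) (k - 1) (by omega) (by omega) (by omega) (by omega)
          refine ⟨?_, fun h => ?_⟩
          · rw [g1]
            omega
          · have := g2 h
            omega

/-- the point `c` with coordinates `0` and `t` replaced -/
def pt {D : ℕ} (c : Fin (D + 2) → ℤ) (t : Fin (D + 2)) (u v : ℤ) : Fin (D + 2) → ℤ :=
  fun s => if s = 0 then v else if s = t then u else c s

theorem pt_zero {D : ℕ} (c : Fin (D + 2) → ℤ) (t : Fin (D + 2)) (u v : ℤ) :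
    pt c t u v 0 = v := by simp [pt]

theorem pt_t {D : ℕ} (c : Fin (D + 2) → ℤ) {t : Fin (D + 2)} (ht : t ≠ 0) (u v : ℤ) :
    pt c t u v t = u := by simp [pt, ht]

theorem pt_other {D : ℕ} (c : Fin (D + 2) → ℤ) {t s : Fin (D + 2)} (h0 : s ≠ 0) (ht : s ≠ t)
    (u v : ℤ) : pt c t u v s = c s := by simp [pt, h0, ht]

theorem pt_inj {D : ℕ} {c : Fin (D + 2) → ℤ} {t : Fin (D + 2)} (ht : t ≠ 0) {u v u' v' : ℤ}
    (h : pt c t u v = pt c t u' v') : u = u' ∧ v = v' := by
  have h1 := congrFun h t
  have h2 := congrFun h 0
  rw [pt_t c ht, pt_t c ht] at h1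
  rw [pt_zero, pt_zero] at h2
  exact ⟨h1, h2⟩

theorem adj_pt {D : ℕ} (c : Fin (D + 2) → ℤ) {t : Fin (D + 2)} (ht : t ≠ 0) (u v u' v' : ℤ) :
    adjZ (pt c t u v) (pt c t u' v') ↔
      (v = v' ∧ (u = u' + 1 ∨ u' = u + 1)) ∨ (u = u' ∧ (v = v' + 1 ∨ v' = v + 1)) := by
  constructor
  · rintro ⟨i, h1, h2⟩
    by_cases hi0 : i = 0
    · subst hi0
      rw [pt_zero, pt_zero] at h2
      have := h1 t ht
      rw [pt_t c ht, pt_t c ht] at this
      exact Or.inr ⟨this, h2⟩
    · by_cases hit : i = t
      · subst hit
        rw [pt_t c ht, pt_t c ht] at h2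
        have := h1 0 (fun h => hi0 h.symm)
        rw [pt_zero, pt_zero] at this
        exact Or.inl ⟨this, h2⟩
      · rw [pt_other c hi0 hit, pt_other c hi0 hit] at h2
        omega
  · rintro (⟨rfl, h⟩ | ⟨rfl, h⟩)
    · refine ⟨t, ?_, ?_⟩
      · intro j hj
        simp [pt, hj]
      · rw [pt_t c ht, pt_t c ht]
        exact h
    · refine ⟨0, ?_, ?_⟩
      · intro j hj
        simp [pt, hj]
      · rw [pt_zero, pt_zero]
        exact h

/-- adjacent points differ by at most one in each coordinate -/
theorem adjZ_le {D : ℕ} {p q : Fin D → ℤ} (h : adjZ p q) (s : Fin D) :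
    p s ≤ q s + 1 ∧ q s ≤ p s + 1 := by
  obtain ⟨i, h1, h2⟩ := h
  by_cases hi : s = i
  · subst hi
    omega
  · have := h1 s hi
    omega

/-- adjacent points that differ in coordinate `s` agree elsewhere -/
theorem adjZ_eq {D : ℕ} {p q : Fin D → ℤ} (h : adjZ p q) {s : Fin D} (hs : p s ≠ q s)
    (j : Fin D) (hj : j ≠ s) : p j = q j := by
  obtain ⟨i, h1, h2⟩ := h
  by_cases hi : s = i
  · subst hi
    exact h1 j hj
  · exact absurd (h1 s hi) hs

/-- shifting both points changes nothing -/
theorem adjZ_add {D : ℕ} (p q : Fin D → ℤ) (c : ℤ) :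
    adjZ (fun s => p s + c) (fun s => q s + c) ↔ adjZ p q := by
  unfold adjZ
  constructor
  · rintro ⟨i, h1, h2⟩
    simp only at h1 h2
    refine ⟨i, fun j hj => ?_, by omega⟩
    have := h1 j hj
    omega
  · rintro ⟨i, h1, h2⟩
    simp only
    refine ⟨i, fun j hj => ?_, by omega⟩
    have := h1 j hj
    omega

/-- the extended path, before the shift -/
def psi {D : ℕ} (P : ℤ → Fin (D + 2) → ℤ) (a b : Fin (D + 2) → ℤ) (t : Fin (D + 2)) (l i y : ℤ) :
    Fin (D + 2) → ℤ :=
  if i ≤ 1 then pt a t (i - 1) (a 0 + y)
  else if i ≤ l + 1 then P (i - 1)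
  else pt b t (l + 2 - i) (b 0 + y)

/-- **The shape.** -/
theorem exists_shape {D m : ℕ} {a b : Fin (D + 2) → ℤ} {A : List (Fin (D + 2) → ℤ)}
    (h : IP adjZ a b A) (hb : ∀ p ∈ A, ∀ t, 1 ≤ p t ∧ p t ≤ m) {t : Fin (D + 2)} (ht : t ≠ 0)
    (ha : a t = 1) (hb' : b t = 1) (h0 : a 0 + 3 ≤ b 0) :
    ∃ Ψ : ℤ → ℤ → Fin (D + 2) → ℤ,
      (∀ i y, Sh (A.length + 2) i y → ∀ s, 2 ≤ Ψ i y s ∧ Ψ i y s ≤ m + 6) ∧
      (∀ i y i' y', Sh (A.length + 2) i y → Sh (A.length + 2) i' y' → Ψ i y = Ψ i' y' →
        i = i' ∧ y = y') ∧
      (∀ i y i' y', Sh (A.length + 2) i y → Sh (A.length + 2) i' y' →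
        (adjZ (Ψ i y) (Ψ i' y') ↔ (y = y' ∧ (i = i' + 1 ∨ i' = i + 1)) ∨
          (i = i' ∧ (y = y' + 1 ∨ y' = y + 1)))) := by
  obtain ⟨P, p1, p2, p3, p4⟩ := exists_fun adjZ_irrefl adjZ_symm h
  have hl : 1 ≤ A.length := List.length_pos_of_mem h.left_mem
  have hl' : (1 : ℤ) ≤ A.length := by exact_mod_cast hl
  have hba := hb a h.left_mem
  have hbb := hb b h.right_mem
  set l : ℤ := (A.length : ℤ) with hldef
  -- the key comparison, for `i ≤ i'`
  have key : ∀ i y i' y', Sh (l + 2) i y → Sh (l + 2) i' y' → i ≤ i' →
      (psi P a b t l i y = psi P a b t l i' y' → i = i' ∧ y = y') ∧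
      (adjZ (psi P a b t l i y) (psi P a b t l i' y') ↔ (y = y' ∧ (i = i' + 1 ∨ i' = i + 1)) ∨
          (i = i' ∧ (y = y' + 1 ∨ y' = y + 1))) := by
    intro i y i' y' hS hS' hii
    unfold Sh at hS hS'
    by_cases c1 : i ≤ 1
    · have e1 : psi P a b t l i y = pt a t (i - 1) (a 0 + y) := by rw [psi, if_pos c1]
      rw [e1]
      by_cases c2 : i' ≤ 1
      · have e2 : psi P a b t l i' y' = pt a t (i' - 1) (a 0 + y') := by rw [psi, if_pos c2]
        rw [e2, adj_pt a ht]
        refine ⟨fun h => ?_, ?_⟩
        · have := pt_inj ht h
          omega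
        · omega
      · by_cases c3 : i' ≤ l + 1
        · have e2 : psi P a b t l i' y' = P (i' - 1) := by rw [psi, if_neg c2, if_pos c3]
          rw [e2]
          have hm := hb _ (p3 (i' - 1) (by omega) (by omega))
          have hmt := hm t
          refine ⟨fun h => ?_, fun h => ?_, fun h => ?_⟩
          · have := congrFun h t
            rw [pt_t a ht] at this
            omega
          · have g1 := adjZ_le h t
            rw [pt_t a ht] at g1
            have g2 := adjZ_eq h (s := t) (by rw [pt_t a ht]; omega)
            have hy : y = 0 := by omega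
            have g3 : P (i' - 1) = a := by
              funext s
              by_cases hs : s = t
              · subst hs
                omega
              · rw [← g2 s hs]
                by_cases hs0 : s = 0
                · subst hs0
                  rw [pt_zero, hy]
                  ring
                · rw [pt_other a hs0 hs]
            rw [← p1] at g3
            have g4 := (p4 (i' - 1) 1 (by omega) (by omega) (by omega) (by omega)).2 g3
            left
            omega
          · have hy : y = 0 ∧ i = 1 ∧ i' = 2 := by omega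
            obtain ⟨rfl, rfl, rfl⟩ := hy
            have : (2 : ℤ) - 1 = 1 := by norm_num
            rw [this, p1]
            refine ⟨t, ?_, ?_⟩
            · intro j hj
              by_cases hj0 : j = 0
              · subst hj0
                rw [pt_zero]
                ring
              · rw [pt_other a hj0 hj]
            · rw [pt_t a ht]
              omega
        · have e2 : psi P a b t l i' y' = pt b t (l + 2 - i') (b 0 + y') := by
            rw [psi, if_neg c2, if_neg c3]
          rw [e2]
          refine ⟨fun h => ?_, fun h => ?_, fun h => ?_⟩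
          · have := congrFun h 0
            rw [pt_zero, pt_zero] at this
            omega
          · have := adjZ_le h 0
            rw [pt_zero, pt_zero] at this
            omega
          · omega
    · by_cases c2 : i ≤ l + 1
      · have e1 : psi P a b t l i y = P (i - 1) := by rw [psi, if_neg c1, if_pos c2]
        rw [e1]
        by_cases c3 : i' ≤ l + 1
        · have e2 : psi P a b t l i' y' = P (i' - 1) := by
            rw [psi, if_neg (by omega), if_pos c3]
          rw [e2]
          obtain ⟨g1, g2⟩ := p4 (i - 1) (i' - 1) (by omega) (by omega) (by omega) (by omega)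
          refine ⟨fun h => ?_, ?_⟩
          · have := g2 h
            omega
          · rw [g1]
            omega
        · have e2 : psi P a b t l i' y' = pt b t (l + 2 - i') (b 0 + y') := by
            rw [psi, if_neg (by omega), if_neg c3]
          rw [e2]
          have hm := hb _ (p3 (i - 1) (by omega) (by omega))
          have hmt := hm t
          refine ⟨fun h => ?_, fun h => ?_, fun h => ?_⟩
          · have := congrFun h t
            rw [pt_t b ht] at this
            omega
          · have g1 := adjZ_le h t
            rw [pt_t b ht] at g1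
            have g2 := adjZ_eq h (s := t) (by rw [pt_t b ht]; omega)
            have hy : y' = 0 := by omega
            have g3 : P (i - 1) = b := by
              funext s
              by_cases hs : s = t
              · subst hs
                omega
              · rw [g2 s hs]
                by_cases hs0 : s = 0
                · subst hs0
                  rw [pt_zero, hy]
                  ring
                · rw [pt_other b hs0 hs]
            rw [← p2] at g3
            have g4 := (p4 (i - 1) l (by omega) (by omega) (by omega) (by omega)).2 g3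
            left
            omega
          · have hy : y' = 0 ∧ i = l + 1 ∧ i' = l + 2 := by omega
            obtain ⟨rfl, rfl, rfl⟩ := hy
            have : l + 1 - 1 = l := by ring
            rw [this, p2]
            refine ⟨t, ?_, ?_⟩
            · intro j hj
              by_cases hj0 : j = 0
              · subst hj0
                rw [pt_zero]
                ring
              · rw [pt_other b hj0 hj]
            · rw [pt_t b ht]
              omega
      · have e1 : psi P a b t l i y = pt b t (l + 2 - i) (b 0 + y) := by
          rw [psi, if_neg c1, if_neg c2]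
        have e2 : psi P a b t l i' y' = pt b t (l + 2 - i') (b 0 + y') := by
          rw [psi, if_neg (by omega), if_neg (by omega)]
        rw [e1, e2, adj_pt b ht]
        refine ⟨fun h => ?_, ?_⟩
        · have := pt_inj ht h
          omega
        · omega
  refine ⟨fun i y s => psi P a b t l i y s + 5, ?_, ?_, ?_⟩
  · intro i y hS s
    unfold Sh at hS
    simp only
    have g0 := hba 0
    have g0' := hbb 0
    by_cases c1 : i ≤ 1
    · rw [psi, if_pos c1]
      by_cases hs0 : s = 0
      · subst hs0
        rw [pt_zero]
        omega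
      · by_cases hst : s = t
        · subst hst
          rw [pt_t a ht]
          omega
        · rw [pt_other a hs0 hst]
          have := hba s
          omega
    · by_cases c2 : i ≤ l + 1
      · rw [psi, if_neg c1, if_pos c2]
        have := hb _ (p3 (i - 1) (by omega) (by omega)) s
        omega
      · rw [psi, if_neg c1, if_neg c2]
        by_cases hs0 : s = 0
        · subst hs0
          rw [pt_zero]
          omega
        · by_cases hst : s = t
          · subst hst
            rw [pt_t b ht]
            omega
          · rw [pt_other b hs0 hst]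
            have := hbb s
            omega
  · intro i y i' y' hS hS' he
    have he' : psi P a b t l i y = psi P a b t l i' y' := by
      funext s
      have := congrFun he s
      simp only at this
      omega
    rcases le_total i i' with hii | hii
    · exact (key i y i' y' hS hS' hii).1 he'
    · have := (key i' y' i y hS' hS hii).1 he'.symm
      exact ⟨this.1.symm, this.2.symm⟩
  · intro i y i' y' hS hS'
    rw [adjZ_add]
    rcases le_total i i' with hii | hii
    · exact (key i y i' y' hS hS' hii).2
    · have g1 := (key i' y' i y hS' hS hii).2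
      have g2 : adjZ (psi P a b t l i y) (psi P a b t l i' y') ↔
          adjZ (psi P a b t l i' y') (psi P a b t l i y) := ⟨adjZ_symm _ _, adjZ_symm _ _⟩
      rw [g2, g1]
      omega

end Pool.Agent.Lib.MP_1a3405_co.Mid
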