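import Mathlib

/-!
The model of the construction for `d < r < 2d - 1`: open cells `(i, y, h)` in `ℤ³`, arranged in
rows `h = 0, …, H` which are run through in alternating directions. A cell is infected as soon as
at most two of its open neighbours are not infected.
-/

namespace Pool.Agent.Lib.MP_1a3405_co.Mid

/-- the open cells of the model -/
def V (N H i y h : ℤ) : Prop :=
  (y = 0 ∧ 0 ≤ i ∧ i ≤ N + 1 ∧ 0 ≤ h ∧ h ≤ H) ∨
  (y = 0 ∧ (i = -2 ∨ i = N + 3) ∧ 0 ≤ h ∧ h ≤ H) ∨
  (y = 1 ∧ (i = -2 ∨ i = -1 ∨ i = N + 2 ∨ i = N + 3) ∧ 0 ≤ h ∧ h ≤ H) ∨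
  (y = 0 ∧ i = -1 ∧ 0 ≤ h ∧ h ≤ H ∧ h % 2 = 1) ∨
  (y = 0 ∧ i = N + 2 ∧ 0 ≤ h ∧ h ≤ H ∧ h % 2 = 0) ∨
  (y = 1 ∧ i = 0 ∧ (h = 0 ∨ h = H)) ∨
  ((y = 0 ∨ y = 1) ∧ -2 ≤ i ∧ i ≤ 0 ∧ (h = -1 ∨ h = H + 1))

/-- the lower trigger -/
def isA (i y h : ℤ) : Prop := i = -2 ∧ y = 1 ∧ h = 0

/-- position in a row -/
def xx (N i : ℤ) : ℤ := max (-1) (min (N + 2) i)

/-- untruncated times -/
def ff (N i h : ℤ) : ℤ := h * (N + 2) + (if h % 2 = 0 then xx N i else N + 1 - xx N i)

/-- total time -/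
def LL (N H : ℤ) : ℤ := (H - 1) * (N + 2)

/-- the times -/
def tt (N H i h : ℤ) : ℤ := max 1 (min (LL N H) (ff N i h))

open Classical in
/-- indicator -/
noncomputable def iv (p : Prop) : ℕ := if p then 1 else 0

/-- the number of neighbours with property `B` -/
noncomputable def sx (B : ℤ → ℤ → ℤ → Prop) (i y h : ℤ) : ℕ :=
  iv (B (i + 1) y h) + iv (B (i - 1) y h) + iv (B i (y + 1) h) + iv (B i (y - 1) h) +
    iv (B i y (h + 1)) + iv (B i y (h - 1))

/-- the contributions of the six neighbours -/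
structure X6 (B : ℤ → ℤ → ℤ → Prop) (i y h : ℤ) (x1 x2 x3 x4 x5 x6 : ℕ) : Prop where
  sum : sx B i y h = x1 + x2 + x3 + x4 + x5 + x6
  l1 : x1 ≤ 1
  l2 : x2 ≤ 1
  l3 : x3 ≤ 1
  l4 : x4 ≤ 1
  l5 : x5 ≤ 1
  l6 : x6 ≤ 1
  z1 : ¬ B (i + 1) y h → x1 = 0
  z2 : ¬ B (i - 1) y h → x2 = 0
  z3 : ¬ B i (y + 1) h → x3 = 0
  z4 : ¬ B i (y - 1) h → x4 = 0
  z5 : ¬ B i y (h + 1) → x5 = 0
  z6 : ¬ B i y (h - 1) → x6 = 0
  o1 : B (i + 1) y h → x1 = 1
  o2 : B (i - 1) y h → x2 = 1
  o3 : B i (y + 1) h → x3 = 1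
  o4 : B i (y - 1) h → x4 = 1
  o5 : B i y (h + 1) → x5 = 1
  o6 : B i y (h - 1) → x6 = 1

lemma exists_X6 (B : ℤ → ℤ → ℤ → Prop) (i y h : ℤ) :
    ∃ x1 x2 x3 x4 x5 x6, X6 B i y h x1 x2 x3 x4 x5 x6 := by
  have hle : ∀ p : Prop, iv p ≤ 1 := by
    intro p
    unfold iv
    split_ifs <;> omega
  have h0 : ∀ p : Prop, ¬ p → iv p = 0 := fun p hp => if_neg hp
  have h1 : ∀ p : Prop, p → iv p = 1 := fun p hp => if_pos hp
  exact ⟨_, _, _, _, _, _, rfl, hle _, hle _, hle _, hle _, hle _, hle _, h0 _, h0 _, h0 _, h0 _,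
    h0 _, h0 _, h1 _, h1 _, h1 _, h1 _, h1 _, h1 _⟩

section

variable {N H i y h : ℤ}

/-- row cells -/
lemma Vr (hi : 0 ≤ i) (hi' : i ≤ N + 1) (h0 : 0 ≤ h) (h1 : h ≤ H) : V N H i 0 h :=
  Or.inl ⟨rfl, hi, hi', h0, h1⟩

/-- the four columns at the left end which are open in all rows -/
lemma Vl (hc : (i = -2 ∧ y = 0) ∨ (i = -2 ∧ y = 1) ∨ (i = -1 ∧ y = 1) ∨ (i = 0 ∧ y = 0))
    (hN : 2 ≤ N) (h0 : -1 ≤ h) (h1 : h ≤ H + 1) : V N H i y h := by
  by_cases hg : h = -1 ∨ h = H + 1
  · refine Or.inr (Or.inr (Or.inr (Or.inr (Or.inr (Or.inr ⟨?_, ?_, ?_, hg⟩))))) <;> omega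
  · rcases hc with hc | hc | hc | hc
    · exact Or.inr (Or.inl ⟨hc.2, Or.inl hc.1, by omega, by omega⟩)
    · exact Or.inr (Or.inr (Or.inl ⟨hc.2, Or.inl hc.1, by omega, by omega⟩))
    · exact Or.inr (Or.inr (Or.inl ⟨hc.2, Or.inr (Or.inl hc.1), by omega, by omega⟩))
    · exact Or.inl ⟨hc.2, by omega, by omega, by omega, by omega⟩

/-- the three columns at the right end which are open in all rows -/
lemma Vrr (hc : (i = N + 3 ∧ y = 0) ∨ (i = N + 3 ∧ y = 1) ∨ (i = N + 2 ∧ y = 1))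
    (h0 : 0 ≤ h) (h1 : h ≤ H) : V N H i y h := by
  rcases hc with hc | hc | hc
  · exact Or.inr (Or.inl ⟨hc.2, Or.inr hc.1, h0, h1⟩)
  · exact Or.inr (Or.inr (Or.inl ⟨hc.2, Or.inr (Or.inr (Or.inr hc.1)), h0, h1⟩))
  · exact Or.inr (Or.inr (Or.inl ⟨hc.2, Or.inr (Or.inr (Or.inl hc.1)), h0, h1⟩))

lemma V1 (h0 : 0 ≤ h) (h1 : h ≤ H) (h2 : h % 2 = 1) : V N H (-1) 0 h :=
  Or.inr (Or.inr (Or.inr (Or.inl ⟨rfl, rfl, h0, h1, h2⟩)))

lemma W1 (h0 : 0 ≤ h) (h1 : h ≤ H) (h2 : h % 2 = 0) : V N H (N + 2) 0 h :=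
  Or.inr (Or.inr (Or.inr (Or.inr (Or.inl ⟨rfl, rfl, h0, h1, h2⟩))))

lemma Vc (hh : h = 0 ∨ h = H) : V N H 0 1 h :=
  Or.inr (Or.inr (Or.inr (Or.inr (Or.inr (Or.inl ⟨rfl, rfl, hh⟩)))))

lemma Vg (hi : -2 ≤ i) (hi' : i ≤ 0) (hy : y = 0 ∨ y = 1) (hh : h = -1 ∨ h = H + 1) :
    V N H i y h :=
  Or.inr (Or.inr (Or.inr (Or.inr (Or.inr (Or.inr ⟨hy, hi, hi', hh⟩)))))

/-- every open cell has at least three open neighbours -/
theorem inert (hN : 2 ≤ N) (hH : 4 ≤ H) (hH2 : H % 2 = 0) (hv : V N H i y h) :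
    3 ≤ sx (V N H) i y h := by
  obtain ⟨x1, x2, x3, x4, x5, x6, X⟩ := exists_X6 (V N H) i y h
  rw [X.sum]
  rcases hv with ⟨rfl, h1, h2, h3, h4⟩ | ⟨rfl, h1 | h1, h3, h4⟩ | ⟨rfl, h1 | h1 | h1 | h1, h3, h4⟩ |
    ⟨rfl, h1, h3, h4, h5⟩ | ⟨rfl, h1, h3, h4, h5⟩ | ⟨rfl, h1, h3⟩ | ⟨h1, h2, h3, h4⟩
  · -- row
    by_cases hi0 : i = 0
    · subst hi0
      have a1 := X.o1 (Vr (by omega) (by omega) h3 h4)
      have a5 := X.o5 (Vl (by omega) hN (by omega) (by omega))
      have a6 := X.o6 (Vl (by omega) hN (by omega) (by omega))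
      omega
    · by_cases hi1 : i = N + 1
      · subst hi1
        have a2 := X.o2 (Vr (by omega) (by omega) h3 h4)
        by_cases hp : h % 2 = 0
        · have a1 := X.o1 (by rw [show N + 1 + 1 = N + 2 by ring]; exact W1 h3 h4 hp)
          by_cases hh : h = 0
          · have a5 := X.o5 (Vr (by omega) (by omega) (by omega) (by omega))
            omega
          · have a6 := X.o6 (Vr (by omega) (by omega) (by omega) (by omega))
            omega
        · have a5 := X.o5 (Vr (by omega) (by omega) (by omega) (by omega))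
          have a6 := X.o6 (Vr (by omega) (by omega) (by omega) (by omega))
          omega
      · have a1 := X.o1 (Vr (by omega) (by omega) h3 h4)
        have a2 := X.o2 (Vr (by omega) (by omega) h3 h4)
        by_cases hh : h = 0
        · have a5 := X.o5 (Vr (by omega) (by omega) (by omega) (by omega))
          omega
        · have a6 := X.o6 (Vr (by omega) (by omega) (by omega) (by omega))
          omega
  · subst h1
    have a3 := X.o3 (Vl (by omega) hN (by omega) (by omega))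
    have a5 := X.o5 (Vl (by omega) hN (by omega) (by omega))
    have a6 := X.o6 (Vl (by omega) hN (by omega) (by omega))
    omega
  · subst h1
    have a3 := X.o3 (Vrr (by omega) (by omega) (by omega))
    by_cases hp : h % 2 = 0
    · have a2 := X.o2 (by rw [show N + 3 - 1 = N + 2 by ring]; exact W1 h3 h4 hp)
      by_cases hh : h = 0
      · have a5 := X.o5 (Vrr (by omega) (by omega) (by omega))
        omega
      · have a6 := X.o6 (Vrr (by omega) (by omega) (by omega))
        omega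
    · have a5 := X.o5 (Vrr (by omega) (by omega) (by omega))
      have a6 := X.o6 (Vrr (by omega) (by omega) (by omega))
      omega
  · subst h1
    have a1 := X.o1 (Vl (by omega) hN (by omega) (by omega))
    have a5 := X.o5 (Vl (by omega) hN (by omega) (by omega))
    have a6 := X.o6 (Vl (by omega) hN (by omega) (by omega))
    omega
  · subst h1
    have a2 := X.o2 (Vl (by omega) hN (by omega) (by omega))
    have a5 := X.o5 (Vl (by omega) hN (by omega) (by omega))
    have a6 := X.o6 (Vl (by omega) hN (by omega) (by omega))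
    omega
  · subst h1
    have a1 := X.o1 (Vrr (by omega) (by omega) (by omega))
    by_cases hp : h % 2 = 0
    · have a4 := X.o4 (W1 h3 h4 hp)
      by_cases hh : h = 0
      · have a5 := X.o5 (Vrr (by omega) (by omega) (by omega))
        omega
      · have a6 := X.o6 (Vrr (by omega) (by omega) (by omega))
        omega
    · have a5 := X.o5 (Vrr (by omega) (by omega) (by omega))
      have a6 := X.o6 (Vrr (by omega) (by omega) (by omega))
      omega
  · subst h1
    have a2 := X.o2 (Vrr (by omega) (by omega) (by omega))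
    have a4 := X.o4 (Vrr (by omega) (by omega) (by omega))
    by_cases hh : h = 0
    · have a5 := X.o5 (Vrr (by omega) (by omega) (by omega))
      omega
    · have a6 := X.o6 (Vrr (by omega) (by omega) (by omega))
      omega
  · subst h1
    have a1 := X.o1 (Vr (by omega) (by omega) h3 h4)
    have a2 := X.o2 (Vl (by omega) hN (by omega) (by omega))
    have a3 := X.o3 (Vl (by omega) hN (by omega) (by omega))
    omega
  · subst h1
    have a1 := X.o1 (Vrr (by omega) (by omega) (by omega))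
    have a2 := X.o2 (Vr (by omega) (by omega) h3 h4)
    have a3 := X.o3 (Vrr (by omega) (by omega) (by omega))
    omega
  · subst h1
    have a2 := X.o2 (Vl (by omega) hN (by omega) (by omega))
    have a4 := X.o4 (Vl (by omega) hN (by omega) (by omega))
    rcases h3 with h3 | h3
    · have a6 := X.o6 (Vg (by omega) (by omega) (by omega) (by omega))
      omega
    · have a5 := X.o5 (Vg (by omega) (by omega) (by omega) (by omega))
      omega
  · have a34 : x3 + x4 ≥ 1 := by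
      rcases h1 with h1 | h1
      · have := X.o3 (Vg h2 h3 (by omega) h4)
        omega
      · have := X.o4 (Vg h2 h3 (by omega) h4)
        omega
    rcases (show i = -2 ∨ i = -1 ∨ i = 0 by omega) with hi | hi | hi
    · have a1 := X.o1 (Vg (by omega) (by omega) h1 h4)
      rcases h4 with h4 | h4
      · have a5 := X.o5 (Vl (by omega) hN (by omega) (by omega))
        omega
      · have a6 := X.o6 (Vl (by omega) hN (by omega) (by omega))
        omega
    · have a1 := X.o1 (Vg (by omega) (by omega) h1 h4)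
      have a2 := X.o2 (Vg (by omega) (by omega) h1 h4)
      omega
    · have a2 := X.o2 (Vg (by omega) (by omega) h1 h4)
      subst hi
      rcases h4 with h4 | h4
      · have a5 := X.o5 (by
          rcases h1 with h1 | h1
          · exact Vl (by omega) hN (by omega) (by omega)
          · rw [h1]; exact Vc (by omega))
        omega
      · have a6 := X.o6 (by
          rcases h1 with h1 | h1
          · exact Vl (by omega) hN (by omega) (by omega)
          · rw [h1]; exact Vc (by omega))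
        omega

/-- the triggers have four open neighbours -/
theorem inert_trigger (hN : 2 ≤ N) (hH : 4 ≤ H) (hh : h = 0 ∨ h = H) :
    4 ≤ sx (V N H) (-2) 1 h := by
  obtain ⟨x1, x2, x3, x4, x5, x6, X⟩ := exists_X6 (V N H) (-2) 1 h
  rw [X.sum]
  have a1 := X.o1 (Vl (by omega) hN (by omega) (by omega))
  have a4 := X.o4 (Vl (by omega) hN (by omega) (by omega))
  have a5 := X.o5 (Vl (by omega) hN (by omega) (by omega))
  have a6 := X.o6 (Vl (by omega) hN (by omega) (by omega))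
  omega

end

end Pool.Agent.Lib.MP_1a3405_co.Mid
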