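import Mathlib
import Pool.Agent.Lib.MP_1a3405_co.Mid.Model

/-!
The certificate of the model.
-/

namespace Pool.Agent.Lib.MP_1a3405_co.Mid

section

variable {N H i y h : ℤ}

/-- open neighbours which are not infected two steps earlier -/
def G (N H t i y h : ℤ) : Prop := V N H i y h ∧ ¬ isA i y h ∧ t ≤ tt N H i h + 1

lemma xx_bounds (hN : 2 ≤ N) (i : ℤ) : -1 ≤ xx N i ∧ xx N i ≤ N + 2 := by
  unfold xx
  omega

lemma xx_step (i : ℤ) : xx N i ≤ xx N (i + 1) ∧ xx N (i + 1) ≤ xx N i + 1 := by
  unfold xx
  omega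

/-- comparing times -/
lemma tt_le {i' h' : ℤ} (hf : ff N i h ≤ ff N i' h' + 1 ∨ LL N H ≤ ff N i' h' + 1) :
    tt N H i h ≤ tt N H i' h' + 1 := by
  unfold tt
  omega

/-- neighbours in the same row -/
lemma ff_right (i h : ℤ) : ff N i h ≤ ff N (i + 1) h + 1 := by
  have h1 := xx_step (N := N) i
  unfold ff
  split_ifs <;> omega

lemma ff_left (i h : ℤ) : ff N i h ≤ ff N (i - 1) h + 1 := by
  have h1 := xx_step (N := N) (i - 1)
  rw [sub_add_cancel] at h1
  unfold ff
  split_ifs <;> omega

/-- neighbours in the next row -/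
lemma ff_above (hN : 2 ≤ N) (i h : ℤ) : ff N i h ≤ ff N i (h + 1) + 1 := by
  have h1 := xx_bounds hN i
  have e : (h + 1) * (N + 2) = h * (N + 2) + (N + 2) := by ring
  unfold ff
  rw [e]
  split_ifs <;> omega

/-- neighbours in the previous row -/
lemma ff_below (hN : 2 ≤ N) (i h : ℤ)
    (hc : (h % 2 = 0 ∧ xx N i ≤ 0) ∨ (h % 2 = 1 ∧ N + 1 ≤ xx N i)) :
    ff N i h ≤ ff N i (h - 1) + 1 := by
  have h1 := xx_bounds hN i
  have e : (h - 1) * (N + 2) = h * (N + 2) - (N + 2) := by ring
  unfold ff
  rw [e]
  split_ifs <;> omega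

/-- the last rows -/
lemma LL_le (hN : 2 ≤ N) (hH2 : H % 2 = 0) (i : ℤ) (hh : h = H - 1 ∨ h = H ∨ h = H + 1) :
    LL N H ≤ ff N i h + 1 := by
  have h1 := xx_bounds hN i
  have e : (H - 1) * (N + 2) = H * (N + 2) - (N + 2) := by ring
  have e' : (H + 1) * (N + 2) = H * (N + 2) + (N + 2) := by ring
  unfold ff LL
  rcases hh with rfl | rfl | rfl
  · rw [if_neg (by omega)]
    omega
  · rw [e, if_pos hH2]
    omega
  · rw [e, e', if_neg (by omega)]
    omega

/-- times in the first rows -/
lemma ff_zero (i : ℤ) : ff N i 0 = xx N i := by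
  unfold ff
  simp

lemma ff_neg_one (i : ℤ) : ff N i (-1) = -1 - xx N i := by
  unfold ff
  rw [if_neg (by norm_num)]
  ring

/-- the certificate -/
theorem cert (hN : 2 ≤ N) (hH : 4 ≤ H) (hH2 : H % 2 = 0) (hv : V N H i y h)
    (h2 : 2 ≤ tt N H i h) : 3 ≤ sx (G N H (tt N H i h)) i y h := by
  by_cases htop : H ≤ h
  · -- last rows: all open neighbours are late
    obtain ⟨x1, x2, x3, x4, x5, x6, X⟩ := exists_X6 (G N H (tt N H i h)) i y h
    obtain ⟨y1, y2, y3, y4, y5, y6, Y⟩ := exists_X6 (V N H) i y h
    have hin := inert hN hH hH2 hv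
    rw [Y.sum] at hin
    rw [X.sum]
    have hh : h ≤ H + 1 := by
      unfold V at hv
      omega
    have key : ∀ i' y' h', h' = h - 1 ∨ h' = h ∨ h' = h + 1 → V N H i' y' h' →
        G N H (tt N H i h) i' y' h' := by
      intro i' y' h' hc hv'
      refine ⟨hv', ?_, ?_⟩
      · rintro ⟨-, -, h0⟩
        omega
      · apply tt_le
        right
        apply LL_le hN hH2
        have : h' ≤ H + 1 := by
          unfold V at hv'
          omega
        omega
    have c1 : y1 ≤ x1 := by
      by_cases hc : V N H (i + 1) y h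
      · rw [X.o1 (key _ _ _ (by omega) hc)]; exact Y.l1
      · rw [Y.z1 hc]; omega
    have c2 : y2 ≤ x2 := by
      by_cases hc : V N H (i - 1) y h
      · rw [X.o2 (key _ _ _ (by omega) hc)]; exact Y.l2
      · rw [Y.z2 hc]; omega
    have c3 : y3 ≤ x3 := by
      by_cases hc : V N H i (y + 1) h
      · rw [X.o3 (key _ _ _ (by omega) hc)]; exact Y.l3
      · rw [Y.z3 hc]; omega
    have c4 : y4 ≤ x4 := by
      by_cases hc : V N H i (y - 1) h
      · rw [X.o4 (key _ _ _ (by omega) hc)]; exact Y.l4
      · rw [Y.z4 hc]; omega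
    have c5 : y5 ≤ x5 := by
      by_cases hc : V N H i y (h + 1)
      · rw [X.o5 (key _ _ _ (by omega) hc)]; exact Y.l5
      · rw [Y.z5 hc]; omega
    have c6 : y6 ≤ x6 := by
      by_cases hc : V N H i y (h - 1)
      · rw [X.o6 (key _ _ _ (by omega) hc)]; exact Y.l6
      · rw [Y.z6 hc]; omega
    omega
  · push Not at htop
    obtain ⟨x1, x2, x3, x4, x5, x6, X⟩ := exists_X6 (G N H (tt N H i h)) i y h
    rw [X.sum]
    have hf : 2 ≤ ff N i h := by
      unfold tt at h2
      omega
    have hh0 : 0 ≤ h := by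
      by_contra hcon
      have : h = -1 := by
        unfold V at hv
        omega
      rw [this, ff_neg_one] at hf
      have := xx_bounds hN i
      omega
    have hi2 : h = 0 → 2 ≤ i := by
      intro h0
      rw [h0, ff_zero] at hf
      unfold xx at hf
      omega
    have r1 : V N H (i + 1) y h → x1 = 1 := by
      intro hv'
      apply X.o1
      refine ⟨hv', ?_, tt_le (Or.inl (ff_right i h))⟩
      rintro ⟨g1, g2, g3⟩
      have := hi2 g3
      omega
    have r2 : V N H (i - 1) y h → x2 = 1 := by
      intro hv'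
      apply X.o2
      refine ⟨hv', ?_, tt_le (Or.inl (ff_left i h))⟩
      rintro ⟨g1, g2, g3⟩
      have := hi2 g3
      omega
    have r3 : V N H i (y + 1) h → x3 = 1 := by
      intro hv'
      apply X.o3
      refine ⟨hv', ?_, tt_le (Or.inl (by omega))⟩
      rintro ⟨g1, g2, g3⟩
      have := hi2 g3
      omega
    have r4 : V N H i (y - 1) h → x4 = 1 := by
      intro hv'
      apply X.o4
      refine ⟨hv', ?_, tt_le (Or.inl (by omega))⟩
      rintro ⟨g1, g2, g3⟩
      have := hi2 g3
      omega
    have r5 : V N H i y (h + 1) → x5 = 1 := by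
      intro hv'
      apply X.o5
      refine ⟨hv', ?_, tt_le (Or.inl (ff_above hN i h))⟩
      rintro ⟨g1, g2, g3⟩
      omega
    have r6 : V N H i y (h - 1) → 1 ≤ h →
        (h % 2 = 0 ∧ xx N i ≤ 0) ∨ (h % 2 = 1 ∧ N + 1 ≤ xx N i) → x6 = 1 := by
      intro hv' hh1 hc
      apply X.o6
      refine ⟨hv', ?_, tt_le (Or.inl (ff_below hN i h hc))⟩
      rintro ⟨g1, g2, g3⟩
      subst g1
      unfold xx at hc
      omega
    rcases hv with ⟨rfl, h1, h3, h4, h5⟩ | ⟨rfl, h1 | h1, h3, h4⟩ |
      ⟨rfl, h1 | h1 | h1 | h1, h3, h4⟩ | ⟨rfl, h1, h3, h4, h5⟩ | ⟨rfl, h1, h3, h4, h5⟩ |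
      ⟨rfl, h1, h3⟩ | ⟨h1, h3, h4, h5⟩
    · -- row
      have a5 := r5 (Vr (by omega) (by omega) (by omega) (by omega))
      by_cases hi0 : i = 0
      · subst hi0
        have a1 := r1 (Vr (by omega) (by omega) h4 h5)
        by_cases hp : h % 2 = 0
        · have a6 := r6 (Vl (by omega) hN (by omega) (by omega)) (by omega)
            (Or.inl ⟨hp, by unfold xx; omega⟩)
          omega
        · have a2 := r2 (V1 h4 h5 (by omega))
          omega
      · have a2 := r2 (Vr (by omega) (by omega) h4 h5)
        by_cases hi1 : i = N + 1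
        · subst hi1
          by_cases hp : h % 2 = 0
          · have a1 := r1 (by rw [show N + 1 + 1 = N + 2 by ring]; exact W1 h4 h5 hp)
            omega
          · have a6 := r6 (Vr (by omega) (by omega) (by omega) (by omega)) (by omega)
              (Or.inr ⟨by omega, by unfold xx; omega⟩)
            omega
        · have a1 := r1 (Vr (by omega) (by omega) h4 h5)
          omega
    · -- (-2, 0)
      subst h1
      have a3 := r3 (Vl (by omega) hN (by omega) (by omega))
      have a5 := r5 (Vl (by omega) hN (by omega) (by omega))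
      by_cases hp : h % 2 = 0
      · have a6 := r6 (Vl (by omega) hN (by omega) (by omega)) (by omega)
          (Or.inl ⟨hp, by unfold xx; omega⟩)
        omega
      · have a1 := r1 (V1 h3 h4 (by omega))
        omega
    · -- (N + 3, 0)
      subst h1
      have a3 := r3 (Vrr (by omega) (by omega) (by omega))
      have a5 := r5 (Vrr (by omega) (by omega) (by omega))
      by_cases hp : h % 2 = 0
      · have a2 := r2 (by rw [show N + 3 - 1 = N + 2 by ring]; exact W1 h3 h4 hp)
        omega
      · have a6 := r6 (Vrr (by omega) (by omega) (by omega)) (by omega)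
          (Or.inr ⟨by omega, by unfold xx; omega⟩)
        omega
    · -- (-2, 1)
      subst h1
      have a1 := r1 (Vl (by omega) hN (by omega) (by omega))
      have a4 := r4 (Vl (by omega) hN (by omega) (by omega))
      have a5 := r5 (Vl (by omega) hN (by omega) (by omega))
      omega
    · -- (-1, 1)
      subst h1
      have a2 := r2 (Vl (by omega) hN (by omega) (by omega))
      have a5 := r5 (Vl (by omega) hN (by omega) (by omega))
      by_cases hp : h % 2 = 0
      · have a6 := r6 (Vl (by omega) hN (by omega) (by omega)) (by omega)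
          (Or.inl ⟨hp, by unfold xx; omega⟩)
        omega
      · have a4 := r4 (V1 h3 h4 (by omega))
        omega
    · -- (N + 2, 1)
      subst h1
      have a1 := r1 (Vrr (by omega) (by omega) (by omega))
      have a5 := r5 (Vrr (by omega) (by omega) (by omega))
      by_cases hp : h % 2 = 0
      · have a4 := r4 (W1 h3 h4 hp)
        omega
      · have a6 := r6 (Vrr (by omega) (by omega) (by omega)) (by omega)
          (Or.inr ⟨by omega, by unfold xx; omega⟩)
        omega
    · -- (N + 3, 1)
      subst h1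
      have a2 := r2 (Vrr (by omega) (by omega) (by omega))
      have a4 := r4 (Vrr (by omega) (by omega) (by omega))
      have a5 := r5 (Vrr (by omega) (by omega) (by omega))
      omega
    · -- (-1, 0)
      subst h1
      have a1 := r1 (Vr (by omega) (by omega) h3 h4)
      have a2 := r2 (Vl (by omega) hN (by omega) (by omega))
      have a3 := r3 (Vl (by omega) hN (by omega) (by omega))
      omega
    · -- (N + 2, 0)
      subst h1
      have a1 := r1 (Vrr (by omega) (by omega) (by omega))
      have a2 := r2 (Vr (by omega) (by omega) h3 h4)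
      have a3 := r3 (Vrr (by omega) (by omega) (by omega))
      omega
    · -- (0, 1)
      omega
    · omega

end

end Pool.Agent.Lib.MP_1a3405_co.Mid
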