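import Mathlib
import Pool.Agent.Lib.MP_1a3405_co.Mid.Model

/-!
Percolation in the model.
-/

namespace Pool.Agent.Lib.MP_1a3405_co.Mid

section

variable {N H : ℤ} {U : ℤ → ℤ → ℤ → Prop}

/-- `U` is a set of open cells each of which has at least three neighbours in `U`. -/
def Stable (N H : ℤ) (U : ℤ → ℤ → ℤ → Prop) : Prop :=
  ∀ i y h, U i y h → V N H i y h ∧ ¬ isA i y h ∧ 3 ≤ sx U i y h

lemma Stable.x (hU : Stable N H U) {i y h : ℤ} (hu : U i y h) :
    ∃ x1 x2 x3 x4 x5 x6, X6 U i y h x1 x2 x3 x4 x5 x6 ∧ 3 ≤ x1 + x2 + x3 + x4 + x5 + x6 := by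
  obtain ⟨x1, x2, x3, x4, x5, x6, X⟩ := exists_X6 U i y h
  refine ⟨x1, x2, x3, x4, x5, x6, X, ?_⟩
  rw [← X.sum]
  exact (hU i y h hu).2.2

lemma Stable.nv (hU : Stable N H U) {i y h : ℤ} (hv : ¬ V N H i y h) : ¬ U i y h :=
  fun hu => hv (hU i y h hu).1

/-- the bottom gate -/
lemma gate_bot (hN : 2 ≤ N) (hH : 4 ≤ H) (hU : Stable N H U) :
    (∀ i y h, h ≤ -1 → ¬ U i y h) ∧ ¬ U (-2) 1 0 ∧ ¬ U (-2) 0 0 ∧ ¬ U (-1) 1 0 ∧ ¬ U 0 1 0 ∧
      ¬ U 0 0 0 := by
  have cA : ¬ U (-2) 1 0 := fun hu => (hU _ _ _ hu).2.1 ⟨rfl, rfl, rfl⟩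
  have c1 : ¬ U (-2) 1 (-1) := by
    intro hu
    obtain ⟨x1, x2, x3, x4, x5, x6, X, hx⟩ := hU.x hu
    have z2 := X.z2 (hU.nv (by unfold V; omega))
    have z3 := X.z3 (hU.nv (by unfold V; omega))
    have z5 := X.z5 (by simpa using cA)
    have z6 := X.z6 (hU.nv (by unfold V; omega))
    have l1 := X.l1
    have l4 := X.l4
    omega
  have c2 : ¬ U (-2) 0 0 := by
    intro hu
    obtain ⟨x1, x2, x3, x4, x5, x6, X, hx⟩ := hU.x hu
    have z1 := X.z1 (hU.nv (by unfold V; omega))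
    have z2 := X.z2 (hU.nv (by unfold V; omega))
    have z3 := X.z3 (by simpa using cA)
    have z4 := X.z4 (hU.nv (by unfold V; omega))
    have l5 := X.l5
    have l6 := X.l6
    omega
  have c3 : ¬ U (-2) 0 (-1) := by
    intro hu
    obtain ⟨x1, x2, x3, x4, x5, x6, X, hx⟩ := hU.x hu
    have z2 := X.z2 (hU.nv (by unfold V; omega))
    have z3 := X.z3 (by simpa using c1)
    have z4 := X.z4 (hU.nv (by unfold V; omega))
    have z5 := X.z5 (by simpa using c2)
    have z6 := X.z6 (hU.nv (by unfold V; omega))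
    have l1 := X.l1
    omega
  have c4 : ¬ U (-1) 0 (-1) := by
    intro hu
    obtain ⟨x1, x2, x3, x4, x5, x6, X, hx⟩ := hU.x hu
    have z2 := X.z2 (by simpa using c3)
    have z4 := X.z4 (hU.nv (by unfold V; omega))
    have z5 := X.z5 (hU.nv (by unfold V; omega))
    have z6 := X.z6 (hU.nv (by unfold V; omega))
    have l1 := X.l1
    have l3 := X.l3
    omega
  have c5 : ¬ U (-1) 1 (-1) := by
    intro hu
    obtain ⟨x1, x2, x3, x4, x5, x6, X, hx⟩ := hU.x hu
    have z2 := X.z2 (by simpa using c1)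
    have z3 := X.z3 (hU.nv (by unfold V; omega))
    have z4 := X.z4 (by simpa using c4)
    have z6 := X.z6 (hU.nv (by unfold V; omega))
    have l1 := X.l1
    have l5 := X.l5
    omega
  have c6 : ¬ U (-1) 1 0 := by
    intro hu
    obtain ⟨x1, x2, x3, x4, x5, x6, X, hx⟩ := hU.x hu
    have z2 := X.z2 (by simpa using cA)
    have z3 := X.z3 (hU.nv (by unfold V; omega))
    have z4 := X.z4 (hU.nv (by unfold V; omega))
    have z6 := X.z6 (by simpa using c5)
    have l1 := X.l1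
    have l5 := X.l5
    omega
  have c7 : ¬ U 0 0 (-1) := by
    intro hu
    obtain ⟨x1, x2, x3, x4, x5, x6, X, hx⟩ := hU.x hu
    have z1 := X.z1 (hU.nv (by unfold V; omega))
    have z2 := X.z2 (by simpa using c4)
    have z4 := X.z4 (hU.nv (by unfold V; omega))
    have z6 := X.z6 (hU.nv (by unfold V; omega))
    have l3 := X.l3
    have l5 := X.l5
    omega
  have c8 : ¬ U 0 1 (-1) := by
    intro hu
    obtain ⟨x1, x2, x3, x4, x5, x6, X, hx⟩ := hU.x hu
    have z1 := X.z1 (hU.nv (by unfold V; omega))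
    have z2 := X.z2 (by simpa using c5)
    have z3 := X.z3 (hU.nv (by unfold V; omega))
    have z4 := X.z4 (by simpa using c7)
    have z6 := X.z6 (hU.nv (by unfold V; omega))
    have l5 := X.l5
    omega
  have c9 : ¬ U 0 1 0 := by
    intro hu
    obtain ⟨x1, x2, x3, x4, x5, x6, X, hx⟩ := hU.x hu
    have z1 := X.z1 (hU.nv (by unfold V; omega))
    have z2 := X.z2 (by simpa using c6)
    have z3 := X.z3 (hU.nv (by unfold V; omega))
    have z5 := X.z5 (hU.nv (by unfold V; omega))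
    have z6 := X.z6 (by simpa using c8)
    have l4 := X.l4
    omega
  have c10 : ¬ U 0 0 0 := by
    intro hu
    obtain ⟨x1, x2, x3, x4, x5, x6, X, hx⟩ := hU.x hu
    have z2 := X.z2 (hU.nv (by unfold V; omega))
    have z3 := X.z3 (by simpa using c9)
    have z4 := X.z4 (hU.nv (by unfold V; omega))
    have z6 := X.z6 (by simpa using c7)
    have l1 := X.l1
    have l5 := X.l5
    omega
  refine ⟨?_, cA, c2, c6, c9, c10⟩
  intro i y h hh hu
  have hv := (hU _ _ _ hu).1
  have hc : h = -1 ∧ (i = -2 ∨ i = -1 ∨ i = 0) ∧ (y = 0 ∨ y = 1) := by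
    unfold V at hv
    omega
  obtain ⟨rfl, rfl | rfl | rfl, rfl | rfl⟩ := hc
  · exact c3 hu
  · exact c1 hu
  · exact c4 hu
  · exact c5 hu
  · exact c7 hu
  · exact c8 hu

/-- a row which is run through from the left -/
lemma run_right (hU : Stable N H U) {h : ℤ} (hlo : ∀ i y, ¬ U i y (h - 1) ∨ (y = 0 ∧ h = 0 ∧ i ≤ 0))
    (h0 : ¬ U 0 0 h) : ∀ k : ℕ, (k : ℤ) ≤ N + 1 → ¬ U k 0 h := by
  intro k
  induction k with
  | zero => intro _; simpa using h0
  | succ k ih =>
    intro hk hu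
    push_cast at hk hu
    obtain ⟨x1, x2, x3, x4, x5, x6, X, hx⟩ := hU.x hu
    have z2 := X.z2 (by rw [add_sub_cancel_right]; exact ih (by omega))
    have z3 := X.z3 (hU.nv (by unfold V; omega))
    have z4 := X.z4 (hU.nv (by unfold V; omega))
    have z6 := X.z6 (by
      rcases hlo ((k : ℤ) + 1) 0 with hc | hc
      · exact hc
      · omega)
    have l1 := X.l1
    have l5 := X.l5
    omega

/-- a row which is run through from the right -/
lemma run_left (hU : Stable N H U) {h : ℤ} (hh : h < H) (hh0 : 0 < h)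
    (hlo : ∀ i y, ¬ U i y (h - 1)) (h0 : ¬ U (N + 1) 0 h) :
    ∀ k : ℕ, (k : ℤ) ≤ N + 1 → ¬ U (N + 1 - k) 0 h := by
  intro k
  induction k with
  | zero => intro _; simpa using h0
  | succ k ih =>
    intro hk hu
    push_cast at hk hu
    obtain ⟨x1, x2, x3, x4, x5, x6, X, hx⟩ := hU.x hu
    have z1 := X.z1 (by
      rw [show N + 1 - ((k : ℤ) + 1) + 1 = N + 1 - k by ring]
      exact ih (by omega))
    have z3 := X.z3 (hU.nv (by unfold V; omega))
    have z4 := X.z4 (hU.nv (by unfold V; omega))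
    have z6 := X.z6 (hlo _ _)
    have l2 := X.l2
    have l5 := X.l5
    omega

/-- the right end of an even row -/
lemma right_even (hN : 2 ≤ N) (hU : Stable N H U) {h : ℤ} (hh : h % 2 = 0)
    (hlo : ∀ i y, 1 ≤ i → ¬ U i y (h - 1)) (h0 : ¬ U (N + 1) 0 h) :
    ∀ i y, N + 2 ≤ i → ¬ U i y h := by
  have c1 : ¬ U (N + 2) 0 h := by
    intro hu
    obtain ⟨x1, x2, x3, x4, x5, x6, X, hx⟩ := hU.x hu
    have z2 := X.z2 (by rw [show N + 2 - 1 = N + 1 by ring]; exact h0)
    have z4 := X.z4 (hU.nv (by unfold V; omega))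
    have z5 := X.z5 (hU.nv (by unfold V; omega))
    have z6 := X.z6 (hlo _ _ (by omega))
    have l1 := X.l1
    have l3 := X.l3
    omega
  have c2 : ¬ U (N + 3) 0 h := by
    intro hu
    obtain ⟨x1, x2, x3, x4, x5, x6, X, hx⟩ := hU.x hu
    have z1 := X.z1 (hU.nv (by unfold V; omega))
    have z2 := X.z2 (by rw [show N + 3 - 1 = N + 2 by ring]; exact c1)
    have z4 := X.z4 (hU.nv (by unfold V; omega))
    have z6 := X.z6 (hlo _ _ (by omega))
    have l3 := X.l3
    have l5 := X.l5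
    omega
  have c3 : ¬ U (N + 2) 1 h := by
    intro hu
    obtain ⟨x1, x2, x3, x4, x5, x6, X, hx⟩ := hU.x hu
    have z2 := X.z2 (hU.nv (by unfold V; omega))
    have z3 := X.z3 (hU.nv (by unfold V; omega))
    have z4 := X.z4 (by simpa using c1)
    have z6 := X.z6 (hlo _ _ (by omega))
    have l1 := X.l1
    have l5 := X.l5
    omega
  have c4 : ¬ U (N + 3) 1 h := by
    intro hu
    obtain ⟨x1, x2, x3, x4, x5, x6, X, hx⟩ := hU.x hu
    have z1 := X.z1 (hU.nv (by unfold V; omega))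
    have z2 := X.z2 (by rw [show N + 3 - 1 = N + 2 by ring]; exact c3)
    have z3 := X.z3 (hU.nv (by unfold V; omega))
    have z4 := X.z4 (by simpa using c2)
    have z6 := X.z6 (hlo _ _ (by omega))
    have l5 := X.l5
    omega
  intro i y hi hu
  have hv := (hU _ _ _ hu).1
  have hc : (i = N + 2 ∨ i = N + 3) ∧ (y = 0 ∨ y = 1) := by
    unfold V at hv
    omega
  obtain ⟨rfl | rfl, rfl | rfl⟩ := hc
  · exact c1 hu
  · exact c3 hu
  · exact c2 hu
  · exact c4 hu

/-- the right end of an odd row -/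
lemma right_odd (hN : 2 ≤ N) (hU : Stable N H U) {h : ℤ} (hh : h % 2 = 1)
    (hlo : ∀ i y, ¬ U i y (h - 1)) : ∀ i y, N + 1 ≤ i → ¬ U i y h := by
  have c0 : ¬ U (N + 1) 0 h := by
    intro hu
    obtain ⟨x1, x2, x3, x4, x5, x6, X, hx⟩ := hU.x hu
    have z1 := X.z1 (hU.nv (by unfold V; omega))
    have z3 := X.z3 (hU.nv (by unfold V; omega))
    have z4 := X.z4 (hU.nv (by unfold V; omega))
    have z6 := X.z6 (hlo _ _)
    have l2 := X.l2
    have l5 := X.l5
    omega
  have c2 : ¬ U (N + 3) 0 h := by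
    intro hu
    obtain ⟨x1, x2, x3, x4, x5, x6, X, hx⟩ := hU.x hu
    have z1 := X.z1 (hU.nv (by unfold V; omega))
    have z2 := X.z2 (hU.nv (by unfold V; omega))
    have z4 := X.z4 (hU.nv (by unfold V; omega))
    have z6 := X.z6 (hlo _ _)
    have l3 := X.l3
    have l5 := X.l5
    omega
  have c3 : ¬ U (N + 2) 1 h := by
    intro hu
    obtain ⟨x1, x2, x3, x4, x5, x6, X, hx⟩ := hU.x hu
    have z2 := X.z2 (hU.nv (by unfold V; omega))
    have z3 := X.z3 (hU.nv (by unfold V; omega))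
    have z4 := X.z4 (hU.nv (by unfold V; omega))
    have z6 := X.z6 (hlo _ _)
    have l1 := X.l1
    have l5 := X.l5
    omega
  have c4 : ¬ U (N + 3) 1 h := by
    intro hu
    obtain ⟨x1, x2, x3, x4, x5, x6, X, hx⟩ := hU.x hu
    have z1 := X.z1 (hU.nv (by unfold V; omega))
    have z2 := X.z2 (by rw [show N + 3 - 1 = N + 2 by ring]; exact c3)
    have z3 := X.z3 (hU.nv (by unfold V; omega))
    have z4 := X.z4 (by simpa using c2)
    have z6 := X.z6 (hlo _ _)
    have l5 := X.l5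
    omega
  intro i y hi hu
  have hv := (hU _ _ _ hu).1
  have hc : (i = N + 1 ∧ y = 0) ∨ (i = N + 3 ∧ y = 0) ∨ (i = N + 2 ∧ y = 1) ∨
      (i = N + 3 ∧ y = 1) := by
    unfold V at hv
    omega
  obtain ⟨rfl, rfl⟩ | ⟨rfl, rfl⟩ | ⟨rfl, rfl⟩ | ⟨rfl, rfl⟩ := hc
  · exact c0 hu
  · exact c2 hu
  · exact c3 hu
  · exact c4 hu

/-- the left end of an odd row -/
lemma left_odd (hN : 2 ≤ N) (hU : Stable N H U) {h : ℤ} (hh : h % 2 = 1) (hH2 : H % 2 = 0)
    (hh0 : 0 < h) (hhH : h < H)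
    (hlo : ∀ i y, ¬ U i y (h - 1)) (h0 : ¬ U 0 0 h) : ∀ i y, i ≤ -1 → ¬ U i y h := by
  have c1 : ¬ U (-1) 0 h := by
    intro hu
    obtain ⟨x1, x2, x3, x4, x5, x6, X, hx⟩ := hU.x hu
    have z1 := X.z1 (by simpa using h0)
    have z4 := X.z4 (hU.nv (by unfold V; omega))
    have z5 := X.z5 (hU.nv (by unfold V; omega))
    have z6 := X.z6 (hlo _ _)
    have l2 := X.l2
    have l3 := X.l3
    omega
  have c2 : ¬ U (-2) 0 h := by
    intro hu
    obtain ⟨x1, x2, x3, x4, x5, x6, X, hx⟩ := hU.x hu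
    have z1 := X.z1 (by simpa using c1)
    have z2 := X.z2 (hU.nv (by unfold V; omega))
    have z4 := X.z4 (hU.nv (by unfold V; omega))
    have z6 := X.z6 (hlo _ _)
    have l3 := X.l3
    have l5 := X.l5
    omega
  have c3 : ¬ U (-1) 1 h := by
    intro hu
    obtain ⟨x1, x2, x3, x4, x5, x6, X, hx⟩ := hU.x hu
    have z1 := X.z1 (hU.nv (by unfold V; omega))
    have z3 := X.z3 (hU.nv (by unfold V; omega))
    have z4 := X.z4 (by simpa using c1)
    have z6 := X.z6 (hlo _ _)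
    have l2 := X.l2
    have l5 := X.l5
    omega
  have c4 : ¬ U (-2) 1 h := by
    intro hu
    obtain ⟨x1, x2, x3, x4, x5, x6, X, hx⟩ := hU.x hu
    have z1 := X.z1 (by simpa using c3)
    have z2 := X.z2 (hU.nv (by unfold V; omega))
    have z3 := X.z3 (hU.nv (by unfold V; omega))
    have z4 := X.z4 (by simpa using c2)
    have z6 := X.z6 (hlo _ _)
    have l5 := X.l5
    omega
  intro i y hi hu
  have hv := (hU _ _ _ hu).1
  have hc : (i = -1 ∨ i = -2) ∧ (y = 0 ∨ y = 1) := by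
    unfold V at hv
    omega
  obtain ⟨rfl | rfl, rfl | rfl⟩ := hc
  · exact c1 hu
  · exact c3 hu
  · exact c2 hu
  · exact c4 hu

/-- the left end of an even row -/
lemma left_even (hN : 2 ≤ N) (hU : Stable N H U) {h : ℤ} (hh : h % 2 = 0)
    (hh0 : 0 < h) (hhH : h < H) (hlo : ∀ i y, ¬ U i y (h - 1)) : ∀ i y, i ≤ 0 → ¬ U i y h := by
  have c0 : ¬ U 0 0 h := by
    intro hu
    obtain ⟨x1, x2, x3, x4, x5, x6, X, hx⟩ := hU.x hu
    have z2 := X.z2 (hU.nv (by unfold V; omega))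
    have z3 := X.z3 (hU.nv (by unfold V; omega))
    have z4 := X.z4 (hU.nv (by unfold V; omega))
    have z6 := X.z6 (hlo _ _)
    have l1 := X.l1
    have l5 := X.l5
    omega
  have c2 : ¬ U (-2) 0 h := by
    intro hu
    obtain ⟨x1, x2, x3, x4, x5, x6, X, hx⟩ := hU.x hu
    have z1 := X.z1 (hU.nv (by unfold V; omega))
    have z2 := X.z2 (hU.nv (by unfold V; omega))
    have z4 := X.z4 (hU.nv (by unfold V; omega))
    have z6 := X.z6 (hlo _ _)
    have l3 := X.l3
    have l5 := X.l5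
    omega
  have c3 : ¬ U (-1) 1 h := by
    intro hu
    obtain ⟨x1, x2, x3, x4, x5, x6, X, hx⟩ := hU.x hu
    have z1 := X.z1 (hU.nv (by unfold V; omega))
    have z3 := X.z3 (hU.nv (by unfold V; omega))
    have z4 := X.z4 (hU.nv (by unfold V; omega))
    have z6 := X.z6 (hlo _ _)
    have l2 := X.l2
    have l5 := X.l5
    omega
  have c4 : ¬ U (-2) 1 h := by
    intro hu
    obtain ⟨x1, x2, x3, x4, x5, x6, X, hx⟩ := hU.x hu
    have z1 := X.z1 (by simpa using c3)
    have z2 := X.z2 (hU.nv (by unfold V; omega))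
    have z3 := X.z3 (hU.nv (by unfold V; omega))
    have z4 := X.z4 (by simpa using c2)
    have z6 := X.z6 (hlo _ _)
    have l5 := X.l5
    omega
  intro i y hi hu
  have hv := (hU _ _ _ hu).1
  have hc : (i = 0 ∧ y = 0) ∨ (i = -2 ∧ y = 0) ∨ (i = -1 ∧ y = 1) ∨ (i = -2 ∧ y = 1) := by
    unfold V at hv
    omega
  obtain ⟨rfl, rfl⟩ | ⟨rfl, rfl⟩ | ⟨rfl, rfl⟩ | ⟨rfl, rfl⟩ := hc
  · exact c0 hu
  · exact c2 hu
  · exact c3 hu
  · exact c4 hu

/-- cells of a row -/
lemma cover {i y h : ℤ} (hv : V N H i y h) (hh : 0 ≤ h) (hhH : h ≤ H) :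
    (y = 0 ∧ 0 ≤ i ∧ i ≤ N + 1) ∨ i ≤ -1 ∨ N + 2 ≤ i ∨ (i = 0 ∧ y = 1 ∧ (h = 0 ∨ h = H)) := by
  unfold V at hv
  omega

/-- the bottom row -/
lemma row_zero (hN : 2 ≤ N) (hH : 4 ≤ H) (hH2 : H % 2 = 0) (hU : Stable N H U) :
    ∀ i y h, h ≤ 0 → ¬ U i y h := by
  obtain ⟨g1, gA, g2, g3, g4, g5⟩ := gate_bot hN hH hU
  have hrow := run_right hU (h := 0) (fun i y => Or.inl (g1 i y _ (by norm_num))) g5
  have hrow' : ∀ i, 0 ≤ i → i ≤ N + 1 → ¬ U i 0 0 := by
    intro i hi hi'
    have := hrow i.toNat (by omega)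
    rwa [Int.toNat_of_nonneg hi] at this
  have hright := right_even hN hU (h := 0) (by norm_num)
    (fun i y _ => g1 i y _ (by norm_num)) (hrow' (N + 1) (by omega) (by omega))
  intro i y h hh hu
  by_cases h0 : h = 0
  · subst h0
    have hv := (hU _ _ _ hu).1
    rcases cover hv (le_refl _) (by omega) with ⟨rfl, c1, c2⟩ | c | c | ⟨rfl, rfl, -⟩
    · exact hrow' i c1 c2 hu
    · have hc : (i = -2 ∧ y = 0) ∨ (i = -2 ∧ y = 1) ∨ (i = -1 ∧ y = 1) := by
        unfold V at hv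
        omega
      obtain ⟨rfl, rfl⟩ | ⟨rfl, rfl⟩ | ⟨rfl, rfl⟩ := hc
      · exact g2 hu
      · exact gA hu
      · exact g3 hu
    · exact hright i y c hu
    · exact g4 hu
  · exact g1 i y h (by omega) hu

/-- the inner rows -/
lemma row_step (hN : 2 ≤ N) (hH2 : H % 2 = 0) (hU : Stable N H U) {h : ℤ} (hh : 1 ≤ h)
    (hhH : h < H) (hlo : ∀ i y, ¬ U i y (h - 1)) : ∀ i y, ¬ U i y h := by
  by_cases hp : h % 2 = 0
  · have hl := left_even hN hU hp (by omega) hhH hlo
    have hrow := run_right hU (h := h) (fun i y => Or.inl (hlo i y)) (hl 0 0 (le_refl _))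
    have hrow' : ∀ i, 0 ≤ i → i ≤ N + 1 → ¬ U i 0 h := by
      intro i hi hi'
      have := hrow i.toNat (by omega)
      rwa [Int.toNat_of_nonneg hi] at this
    have hright := right_even hN hU hp (fun i y _ => hlo i y)
      (hrow' (N + 1) (by omega) (by omega))
    intro i y hu
    have hv := (hU _ _ _ hu).1
    rcases cover hv (by omega) (by omega) with ⟨rfl, c1, c2⟩ | c | c | ⟨-, -, c⟩
    · exact hrow' i c1 c2 hu
    · exact hl i y (by omega) hu
    · exact hright i y c hu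
    · omega
  · have hr := right_odd hN hU (h := h) (by omega) hlo
    have hrow := run_left hU (h := h) (by omega) (by omega) hlo (hr (N + 1) 0 (le_refl _))
    have hrow' : ∀ i, 0 ≤ i → i ≤ N + 1 → ¬ U i 0 h := by
      intro i hi hi'
      have := hrow (N + 1 - i).toNat (by omega)
      rwa [Int.toNat_of_nonneg (by omega), sub_sub_cancel] at this
    have hleft := left_odd hN hU (h := h) (by omega) hH2 (by omega) hhH hlo
      (hrow' 0 (le_refl _) (by omega))
    intro i y hu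
    have hv := (hU _ _ _ hu).1
    rcases cover hv (by omega) (by omega) with ⟨rfl, c1, c2⟩ | c | c | ⟨-, -, c⟩
    · exact hrow' i c1 c2 hu
    · exact hleft i y c hu
    · exact hr i y (by omega) hu
    · omega

/-- the top row -/
lemma row_top (hN : 2 ≤ N) (hH : 4 ≤ H) (hH2 : H % 2 = 0) (hU : Stable N H U)
    (hlo : ∀ i y, ¬ U i y (H - 1)) : (∀ i y, ¬ U i y H) ∧ (∀ i y, ¬ U i y (H + 1)) := by
  have hrow : ∀ i, 1 ≤ i → i ≤ N + 1 → ¬ U i 0 H := by
    intro i hi hi' hu
    obtain ⟨x1, x2, x3, x4, x5, x6, X, hx⟩ := hU.x hu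
    have z3 := X.z3 (hU.nv (by unfold V; omega))
    have z4 := X.z4 (hU.nv (by unfold V; omega))
    have z5 := X.z5 (hU.nv (by unfold V; omega))
    have z6 := X.z6 (hlo _ _)
    have l1 := X.l1
    have l2 := X.l2
    omega
  have hright := right_even hN hU (h := H) hH2 (fun i y _ => hlo i y)
    (hrow (N + 1) (by omega) (by omega))
  have c0 : ¬ U 0 0 H := by
    intro hu
    obtain ⟨x1, x2, x3, x4, x5, x6, X, hx⟩ := hU.x hu
    have z1 := X.z1 (hrow _ (by omega) (by omega))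
    have z2 := X.z2 (hU.nv (by unfold V; omega))
    have z4 := X.z4 (hU.nv (by unfold V; omega))
    have z6 := X.z6 (hlo _ _)
    have l3 := X.l3
    have l5 := X.l5
    omega
  have c2 : ¬ U (-2) 0 H := by
    intro hu
    obtain ⟨x1, x2, x3, x4, x5, x6, X, hx⟩ := hU.x hu
    have z1 := X.z1 (hU.nv (by unfold V; omega))
    have z2 := X.z2 (hU.nv (by unfold V; omega))
    have z4 := X.z4 (hU.nv (by unfold V; omega))
    have z6 := X.z6 (hlo _ _)
    have l3 := X.l3
    have l5 := X.l5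
    omega
  have c4 : ¬ U (-2) 1 H := by
    intro hu
    obtain ⟨x1, x2, x3, x4, x5, x6, X, hx⟩ := hU.x hu
    have z2 := X.z2 (hU.nv (by unfold V; omega))
    have z3 := X.z3 (hU.nv (by unfold V; omega))
    have z4 := X.z4 (by simpa using c2)
    have z6 := X.z6 (hlo _ _)
    have l1 := X.l1
    have l5 := X.l5
    omega
  have c3 : ¬ U (-1) 1 H := by
    intro hu
    obtain ⟨x1, x2, x3, x4, x5, x6, X, hx⟩ := hU.x hu
    have z2 := X.z2 (by simpa using c4)
    have z3 := X.z3 (hU.nv (by unfold V; omega))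
    have z4 := X.z4 (hU.nv (by unfold V; omega))
    have z6 := X.z6 (hlo _ _)
    have l1 := X.l1
    have l5 := X.l5
    omega
  have c5 : ¬ U 0 1 H := by
    intro hu
    obtain ⟨x1, x2, x3, x4, x5, x6, X, hx⟩ := hU.x hu
    have z1 := X.z1 (hU.nv (by unfold V; omega))
    have z2 := X.z2 (by simpa using c3)
    have z3 := X.z3 (hU.nv (by unfold V; omega))
    have z4 := X.z4 (by simpa using c0)
    have z6 := X.z6 (hlo _ _)
    have l5 := X.l5
    omega
  have hT : ∀ i y, ¬ U i y H := by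
    intro i y hu
    have hv := (hU _ _ _ hu).1
    rcases cover hv (by omega) (by omega) with ⟨rfl, e1, e2⟩ | c | c | ⟨rfl, rfl, -⟩
    · by_cases hi0 : i = 0
      · subst hi0; exact c0 hu
      · exact hrow i (by omega) e2 hu
    · have hc : (i = -2 ∧ y = 0) ∨ (i = -2 ∧ y = 1) ∨ (i = -1 ∧ y = 1) := by
        unfold V at hv
        omega
      obtain ⟨rfl, rfl⟩ | ⟨rfl, rfl⟩ | ⟨rfl, rfl⟩ := hc
      · exact c2 hu
      · exact c4 hu
      · exact c3 hu
    · exact hright i y c hu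
    · exact c5 hu
  refine ⟨hT, ?_⟩
  have d1 : ¬ U 0 0 (H + 1) := by
    intro hu
    obtain ⟨x1, x2, x3, x4, x5, x6, X, hx⟩ := hU.x hu
    have z1 := X.z1 (hU.nv (by unfold V; omega))
    have z4 := X.z4 (hU.nv (by unfold V; omega))
    have z5 := X.z5 (hU.nv (by unfold V; omega))
    have z6 := X.z6 (by rw [add_sub_cancel_right]; exact hT _ _)
    have l2 := X.l2
    have l3 := X.l3
    omega
  have d2 : ¬ U 0 1 (H + 1) := by
    intro hu
    obtain ⟨x1, x2, x3, x4, x5, x6, X, hx⟩ := hU.x hu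
    have z1 := X.z1 (hU.nv (by unfold V; omega))
    have z3 := X.z3 (hU.nv (by unfold V; omega))
    have z4 := X.z4 (by simpa using d1)
    have z5 := X.z5 (hU.nv (by unfold V; omega))
    have z6 := X.z6 (by rw [add_sub_cancel_right]; exact hT _ _)
    have l2 := X.l2
    omega
  have d3 : ¬ U (-1) 0 (H + 1) := by
    intro hu
    obtain ⟨x1, x2, x3, x4, x5, x6, X, hx⟩ := hU.x hu
    have z1 := X.z1 (by simpa using d1)
    have z4 := X.z4 (hU.nv (by unfold V; omega))
    have z5 := X.z5 (hU.nv (by unfold V; omega))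
    have z6 := X.z6 (by rw [add_sub_cancel_right]; exact hT _ _)
    have l2 := X.l2
    have l3 := X.l3
    omega
  have d4 : ¬ U (-1) 1 (H + 1) := by
    intro hu
    obtain ⟨x1, x2, x3, x4, x5, x6, X, hx⟩ := hU.x hu
    have z1 := X.z1 (by simpa using d2)
    have z3 := X.z3 (hU.nv (by unfold V; omega))
    have z4 := X.z4 (by simpa using d3)
    have z5 := X.z5 (hU.nv (by unfold V; omega))
    have z6 := X.z6 (by rw [add_sub_cancel_right]; exact hT _ _)
    have l2 := X.l2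
    omega
  have d5 : ¬ U (-2) 0 (H + 1) := by
    intro hu
    obtain ⟨x1, x2, x3, x4, x5, x6, X, hx⟩ := hU.x hu
    have z1 := X.z1 (by simpa using d3)
    have z2 := X.z2 (hU.nv (by unfold V; omega))
    have z4 := X.z4 (hU.nv (by unfold V; omega))
    have z5 := X.z5 (hU.nv (by unfold V; omega))
    have z6 := X.z6 (by rw [add_sub_cancel_right]; exact hT _ _)
    have l3 := X.l3
    omega
  have d6 : ¬ U (-2) 1 (H + 1) := by
    intro hu
    obtain ⟨x1, x2, x3, x4, x5, x6, X, hx⟩ := hU.x hu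
    have z1 := X.z1 (by simpa using d4)
    have z2 := X.z2 (hU.nv (by unfold V; omega))
    have z3 := X.z3 (hU.nv (by unfold V; omega))
    have z4 := X.z4 (by simpa using d5)
    have z5 := X.z5 (hU.nv (by unfold V; omega))
    have z6 := X.z6 (by rw [add_sub_cancel_right]; exact hT _ _)
    omega
  intro i y hu
  have hv := (hU _ _ _ hu).1
  have hc : (i = -2 ∨ i = -1 ∨ i = 0) ∧ (y = 0 ∨ y = 1) := by
    unfold V at hv
    omega
  obtain ⟨rfl | rfl | rfl, rfl | rfl⟩ := hc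
  · exact d5 hu
  · exact d6 hu
  · exact d3 hu
  · exact d4 hu
  · exact d1 hu
  · exact d2 hu

/-- **Percolation from the lower trigger.** -/
theorem perc (hN : 2 ≤ N) (hH : 4 ≤ H) (hH2 : H % 2 = 0) (hU : Stable N H U) :
    ∀ i y h, ¬ U i y h := by
  have h0 := row_zero hN hH hH2 hU
  have key : ∀ k : ℕ, (k : ℤ) < H → ∀ i y, ¬ U i y k := by
    intro k
    induction k with
    | zero => intro _ i y; exact h0 i y _ (by simp)
    | succ k ih =>
      intro hk
      push_cast at hk ⊢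
      exact row_step hN hH2 hU (by omega) hk
        (by rw [add_sub_cancel_right]; exact ih (by omega))
  have hlo : ∀ i y, ¬ U i y (H - 1) := by
    have := key (H - 1).toNat (by omega)
    rwa [Int.toNat_of_nonneg (by omega)] at this
  obtain ⟨t1, t2⟩ := row_top hN hH hH2 hU hlo
  intro i y h hu
  have hv := (hU _ _ _ hu).1
  have hc : h ≤ 0 ∨ (0 < h ∧ h < H) ∨ h = H ∨ h = H + 1 := by
    unfold V at hv
    omega
  rcases hc with hc | hc | rfl | rfl
  · exact h0 i y h hc hu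
  · have := key h.toNat (by omega) i y
    rw [Int.toNat_of_nonneg (by omega)] at this
    exact this hu
  · exact t1 i y hu
  · exact t2 i y hu

end

end Pool.Agent.Lib.MP_1a3405_co.Mid
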