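import Mathlib
import Pool.Agent.Lib.MP_1a3405_co.Mid.Model

/-!
Percolation in the model with the smaller threshold, and the symmetry of the model.
-/

namespace Pool.Agent.Lib.MP_1a3405_co.Mid

section

variable {N H : ℤ} {U : ℤ → ℤ → ℤ → Prop}

/-- There is no nonempty set of open cells each of which has four neighbours in the set. -/
theorem perc0 (hN : 2 ≤ N) (hH : 4 ≤ H) (hH2 : H % 2 = 0)
    (hU : ∀ i y h, U i y h → V N H i y h ∧ 4 ≤ sx U i y h) : ∀ i y h, ¬ U i y h := by
  have hx : ∀ {i y h : ℤ}, U i y h → ∃ x1 x2 x3 x4 x5 x6, X6 U i y h x1 x2 x3 x4 x5 x6 ∧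
      4 ≤ x1 + x2 + x3 + x4 + x5 + x6 := by
    intro i y h hu
    obtain ⟨x1, x2, x3, x4, x5, x6, X⟩ := exists_X6 U i y h
    refine ⟨x1, x2, x3, x4, x5, x6, X, ?_⟩
    rw [← X.sum]
    exact (hU i y h hu).2
  have nv : ∀ {i y h : ℤ}, ¬ V N H i y h → ¬ U i y h := fun hv hu => hv (hU _ _ _ hu).1
  have c1 : ∀ h, ¬ U (-1) 0 h := by
    intro h hu
    have hv := (hU _ _ _ hu).1
    have hc : h % 2 = 1 := by
      unfold V at hv
      omega
    obtain ⟨x1, x2, x3, x4, x5, x6, X, hX⟩ := hx hu
    have z4 := X.z4 (nv (by unfold V; omega))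
    have z5 := X.z5 (nv (by unfold V; omega))
    have z6 := X.z6 (nv (by unfold V; omega))
    have l1 := X.l1
    have l2 := X.l2
    have l3 := X.l3
    omega
  have c2 : ∀ h, ¬ U (N + 2) 0 h := by
    intro h hu
    have hv := (hU _ _ _ hu).1
    have hc : h % 2 = 0 := by
      unfold V at hv
      omega
    obtain ⟨x1, x2, x3, x4, x5, x6, X, hX⟩ := hx hu
    have z4 := X.z4 (nv (by unfold V; omega))
    have z5 := X.z5 (nv (by unfold V; omega))
    have z6 := X.z6 (nv (by unfold V; omega))
    have l1 := X.l1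
    have l2 := X.l2
    have l3 := X.l3
    omega
  have c3 : ∀ h, ¬ U (-2) 0 h := by
    intro h hu
    obtain ⟨x1, x2, x3, x4, x5, x6, X, hX⟩ := hx hu
    have z1 := X.z1 (by simpa using c1 h)
    have z2 := X.z2 (nv (by unfold V; omega))
    have z4 := X.z4 (nv (by unfold V; omega))
    have l3 := X.l3
    have l5 := X.l5
    have l6 := X.l6
    omega
  have c4 : ∀ h, ¬ U (-2) 1 h := by
    intro h hu
    obtain ⟨x1, x2, x3, x4, x5, x6, X, hX⟩ := hx hu
    have z2 := X.z2 (nv (by unfold V; omega))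
    have z3 := X.z3 (nv (by unfold V; omega))
    have z4 := X.z4 (by simpa using c3 h)
    have l1 := X.l1
    have l5 := X.l5
    have l6 := X.l6
    omega
  have c5 : ∀ h, ¬ U (-1) 1 h := by
    intro h hu
    obtain ⟨x1, x2, x3, x4, x5, x6, X, hX⟩ := hx hu
    have z2 := X.z2 (by simpa using c4 h)
    have z3 := X.z3 (nv (by unfold V; omega))
    have z4 := X.z4 (by simpa using c1 h)
    have l1 := X.l1
    have l5 := X.l5
    have l6 := X.l6
    omega
  have c6 : ∀ h, ¬ U 0 1 h := by
    intro h hu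
    obtain ⟨x1, x2, x3, x4, x5, x6, X, hX⟩ := hx hu
    have z1 := X.z1 (nv (by unfold V; omega))
    have z2 := X.z2 (by simpa using c5 h)
    have z3 := X.z3 (nv (by unfold V; omega))
    have l4 := X.l4
    have l5 := X.l5
    have l6 := X.l6
    omega
  have d1 : ∀ h, ¬ U (N + 3) 0 h := by
    intro h hu
    obtain ⟨x1, x2, x3, x4, x5, x6, X, hX⟩ := hx hu
    have z1 := X.z1 (nv (by unfold V; omega))
    have z2 := X.z2 (by rw [show N + 3 - 1 = N + 2 by ring]; exact c2 h)
    have z4 := X.z4 (nv (by unfold V; omega))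
    have l3 := X.l3
    have l5 := X.l5
    have l6 := X.l6
    omega
  have d2 : ∀ h, ¬ U (N + 3) 1 h := by
    intro h hu
    obtain ⟨x1, x2, x3, x4, x5, x6, X, hX⟩ := hx hu
    have z1 := X.z1 (nv (by unfold V; omega))
    have z3 := X.z3 (nv (by unfold V; omega))
    have z4 := X.z4 (by simpa using d1 h)
    have l2 := X.l2
    have l5 := X.l5
    have l6 := X.l6
    omega
  have d3 : ∀ h, ¬ U (N + 2) 1 h := by
    intro h hu
    obtain ⟨x1, x2, x3, x4, x5, x6, X, hX⟩ := hx hu
    have z2 := X.z2 (nv (by unfold V; omega))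
    have z3 := X.z3 (nv (by unfold V; omega))
    have z4 := X.z4 (by simpa using c2 h)
    have l1 := X.l1
    have l5 := X.l5
    have l6 := X.l6
    omega
  have row : ∀ (k : ℕ) (h : ℤ), (k : ℤ) ≤ N + 1 → ¬ U k 0 h := by
    intro k
    induction k with
    | zero =>
      intro h _ hu
      rw [Nat.cast_zero] at hu
      obtain ⟨x1, x2, x3, x4, x5, x6, X, hX⟩ := hx hu
      have z2 := X.z2 (by simpa using c1 h)
      have z3 := X.z3 (by simpa using c6 h)
      have z4 := X.z4 (nv (by unfold V; omega))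
      have l1 := X.l1
      have l5 := X.l5
      have l6 := X.l6
      omega
    | succ k ih =>
      intro h hk hu
      push_cast at hk hu
      obtain ⟨x1, x2, x3, x4, x5, x6, X, hX⟩ := hx hu
      have z2 := X.z2 (by rw [add_sub_cancel_right]; exact ih h (by omega))
      have z3 := X.z3 (nv (by unfold V; omega))
      have z4 := X.z4 (nv (by unfold V; omega))
      have l1 := X.l1
      have l5 := X.l5
      have l6 := X.l6
      omega
  intro i y h hu
  have hv := (hU _ _ _ hu).1
  have hc : (y = 0 ∧ 0 ≤ i ∧ i ≤ N + 1) ∨ (i = -2 ∧ y = 0) ∨ (i = -2 ∧ y = 1) ∨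
      (i = -1 ∧ y = 0) ∨ (i = -1 ∧ y = 1) ∨ (i = 0 ∧ y = 1) ∨ (i = N + 2 ∧ y = 0) ∨
      (i = N + 2 ∧ y = 1) ∨ (i = N + 3 ∧ y = 0) ∨ (i = N + 3 ∧ y = 1) := by
    unfold V at hv
    omega
  obtain ⟨rfl, e1, e2⟩ | ⟨rfl, rfl⟩ | ⟨rfl, rfl⟩ | ⟨rfl, rfl⟩ | ⟨rfl, rfl⟩ | ⟨rfl, rfl⟩ |
    ⟨rfl, rfl⟩ | ⟨rfl, rfl⟩ | ⟨rfl, rfl⟩ | ⟨rfl, rfl⟩ := hc
  · have := row i.toNat h (by omega)
    rw [Int.toNat_of_nonneg e1] at this
    exact this hu
  · exact c3 h hu
  · exact c4 h hu
  · exact c1 h hu
  · exact c5 h hu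
  · exact c6 h hu
  · exact c2 h hu
  · exact d3 h hu
  · exact d1 h hu
  · exact d2 h hu

/-- the model is symmetric -/
theorem V_symm (hH2 : H % 2 = 0) (i y h : ℤ) : V N H i y (H - h) ↔ V N H i y h := by
  unfold V
  constructor
  · rintro (c | c | c | c | c | c | c)
    · left; omega
    · right; left; omega
    · right; right; left; omega
    · right; right; right; left; omega
    · right; right; right; right; left; omega
    · right; right; right; right; right; left; omega
    · right; right; right; right; right; right; omega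
  · rintro (c | c | c | c | c | c | c)
    · left; omega
    · right; left; omega
    · right; right; left; omega
    · right; right; right; left; omega
    · right; right; right; right; left; omega
    · right; right; right; right; right; left; omega
    · right; right; right; right; right; right; omega

end

end Pool.Agent.Lib.MP_1a3405_co.Mid
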