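import Mathlib
import Pool.Agent.Lib.MP_1a3405_co.Diag.Stack
import Pool.Agent.Lib.MP_1a3405_co.Sn.Cert
import Pool.Agent.Lib.MP_1a3405_co.Mid.ModelCert
import Pool.Agent.Lib.MP_1a3405_co.Mid.ModelPerc
import Pool.Agent.Lib.MP_1a3405_co.Mid.ModelZero

/-!
From an induced embedding of the model into the box to an inert set with two triggers.
-/

namespace Pool.Agent.Lib.MP_1a3405_co.Mid

open Pool.Agent.Lib.MP_1a3405_co Pool.Agent.Lib.MP_1a3405_co.Ord
open Pool.Agent.Lib.MP_1a3405_co.Diag Pool.Agent.Lib.MP_1a3405_co.Sn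

/-- adjacency in the model -/
def nbM (i y h i' y' h' : ℤ) : Prop :=
  (y = y' ∧ h = h' ∧ (i = i' + 1 ∨ i' = i + 1)) ∨ (i = i' ∧ h = h' ∧ (y = y' + 1 ∨ y' = y + 1)) ∨
    (i = i' ∧ y = y' ∧ (h = h' + 1 ∨ h' = h + 1))

/-- an induced embedding of the model into the interior of the box -/
structure Emb (n : ℕ) {e : ℕ} (N H : ℤ) (Φ : ℤ → ℤ → ℤ → Fin e → ℤ) : Prop where
  box : ∀ i y h, V N H i y h → ∀ s, 2 ≤ Φ i y h s ∧ Φ i y h s + 1 ≤ n
  inj : ∀ i y h i' y' h', V N H i y h → V N H i' y' h' → Φ i y h = Φ i' y' h' →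
    i = i' ∧ y = y' ∧ h = h'
  adj : ∀ i y h i' y' h', V N H i y h → V N H i' y' h' →
    (adjZ (Φ i y h) (Φ i' y' h') ↔ nbM i y h i' y' h')

/-- the six neighbours -/
def nm (i y h : ℤ) : Fin 6 → ℤ × ℤ × ℤ :=
  ![(i + 1, y, h), (i - 1, y, h), (i, y + 1, h), (i, y - 1, h), (i, y, h + 1), (i, y, h - 1)]

lemma ite_eq_iv (p : Prop) [Decidable p] : (if p then 1 else 0 : ℕ) = iv p := by
  unfold iv
  split_ifs <;> rfl

lemma sx_eq_card (B : ℤ → ℤ → ℤ → Prop) (i y h : ℤ)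
    [DecidablePred fun j : Fin 6 => B (nm i y h j).1 (nm i y h j).2.1 (nm i y h j).2.2] :
    sx B i y h = (Finset.univ.filter fun j : Fin 6 =>
      B (nm i y h j).1 (nm i y h j).2.1 (nm i y h j).2.2).card := by
  rw [Finset.card_filter, Fin.sum_univ_six]
  simp only [ite_eq_iv]
  rfl

lemma nm_nbM (i y h : ℤ) (j : Fin 6) :
    nbM i y h (nm i y h j).1 (nm i y h j).2.1 (nm i y h j).2.2 := by
  fin_cases j <;> simp [nm, nbM]

lemma exists_nm {i y h i' y' h' : ℤ} (hn : nbM i y h i' y' h') :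
    ∃ j, nm i y h j = (i', y', h') := by
  rcases hn with ⟨rfl, rfl, c | c⟩ | ⟨rfl, rfl, c | c⟩ | ⟨rfl, rfl, c | c⟩
  · exact ⟨1, by simp [nm, c]⟩
  · exact ⟨0, by simp [nm, c]⟩
  · exact ⟨3, by simp [nm, c]⟩
  · exact ⟨2, by simp [nm, c]⟩
  · exact ⟨5, by simp [nm, c]⟩
  · exact ⟨4, by simp [nm, c]⟩

lemma nm_injective (i y h : ℤ) : Function.Injective (nm i y h) := by
  intro j j' hj
  fin_cases j <;> fin_cases j' <;> first | rfl | (exfalso; simp [nm] at hj; done) |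
    (exfalso; simp [nm] at hj; omega)

section

variable {n e : ℕ} {N H : ℤ} {Φ : ℤ → ℤ → ℤ → Fin e → ℤ}

/-- the neighbours of an open cell are in the box -/
lemma Emb.box_nb (E : Emb n N H Φ) {i y h : ℤ} (hv : V N H i y h) (δ : Fin e × Bool) :
    InBox n (nb (Φ i y h) δ) := by
  obtain ⟨k, b⟩ := δ
  intro t
  have h1 := E.box i y h hv t
  by_cases ht : t = k
  · subst ht
    simp only [nb, Function.update_self]
    cases b
    · simp only [Bool.false_eq_true, if_false]; omega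
    · simp only [if_true]; omega
  · simp only [nb, Function.update_of_ne ht]
    omega

/-- counting neighbours -/
theorem Emb.cnt_eq (E : Emb n N H Φ) {i y h : ℤ} (hv : V N H i y h)
    (R : (Fin e → ℤ) → Prop) (hR : ∀ q, R q → ∃ i' y' h', V N H i' y' h' ∧ Φ i' y' h' = q) :
    cnt n R (Φ i y h) = sx (fun i' y' h' => V N H i' y' h' ∧ R (Φ i' y' h')) i y h := by
  classical
  rw [cnt_eq_card, sx_eq_card, ← Finset.card_image_of_injective _ (nb_injective (Φ i y h))]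
  have hinj : Set.InjOn (fun j : Fin 6 => Φ (nm i y h j).1 (nm i y h j).2.1 (nm i y h j).2.2)
      (Finset.univ.filter fun j : Fin 6 =>
        V N H (nm i y h j).1 (nm i y h j).2.1 (nm i y h j).2.2 ∧
          R (Φ (nm i y h j).1 (nm i y h j).2.1 (nm i y h j).2.2) : Finset (Fin 6)) := by
    intro j hj j' hj' hjj
    simp only [Finset.coe_filter, Finset.mem_univ, true_and, Set.mem_ofPred_eq] at hj hj'
    obtain ⟨h1, h2, h3⟩ := E.inj _ _ _ _ _ _ hj.1 hj'.1 hjj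
    apply nm_injective i y h
    exact Prod.ext h1 (Prod.ext h2 h3)
  rw [← Finset.card_image_of_injOn hinj]
  congr 1
  ext q
  simp only [Finset.mem_image, Finset.mem_filter, Finset.mem_univ, true_and]
  constructor
  · rintro ⟨δ, ⟨-, hq⟩, rfl⟩
    obtain ⟨i', y', h', hv', he⟩ := hR _ hq
    have hadj := adjZ_nb (Φ i y h) δ
    rw [← he] at hadj hq ⊢
    rw [E.adj _ _ _ _ _ _ hv hv'] at hadj
    obtain ⟨j, hj⟩ := exists_nm hadj
    refine ⟨j, ?_, ?_⟩
    · rw [hj]; exact ⟨hv', hq⟩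
    · rw [hj]
  · rintro ⟨j, ⟨hv', hq⟩, rfl⟩
    have hadj := (E.adj _ _ _ _ _ _ hv hv').2 (nm_nbM i y h j)
    obtain ⟨δ, hδ⟩ := exists_nb hadj
    refine ⟨δ, ⟨E.box_nb hv δ, ?_⟩, hδ.symm⟩
    rw [← hδ]
    exact hq

/-- the initially infected points -/
def TS (N H : ℤ) (Φ : ℤ → ℤ → ℤ → Fin e → ℤ) (q : Fin e → ℤ) : Prop :=
  ¬ ∃ i y h, V N H i y h ∧ Φ i y h = q

lemma not_TS {i y h : ℤ} (hv : V N H i y h) : ¬ TS N H Φ (Φ i y h) :=
  fun hT => hT ⟨i, y, h, hv, rfl⟩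

lemma exists_of_not_TS {q : Fin e → ℤ} (hq : ¬ TS N H Φ q) :
    ∃ i y h, V N H i y h ∧ Φ i y h = q := by
  unfold TS at hq
  rwa [not_not] at hq

/-- complementary counts -/
theorem Emb.cnt_add (E : Emb n N H Φ) {i y h : ℤ} (hv : V N H i y h)
    (Q : (Fin e → ℤ) → Prop) (hQ : ∀ q, TS N H Φ q → Q q) :
    cnt n Q (Φ i y h) + sx (fun i' y' h' => V N H i' y' h' ∧ ¬ Q (Φ i' y' h')) i y h =
      2 * e := by
  classical
  rw [← E.cnt_eq hv (fun q => ¬ Q q) (fun q hq => exists_of_not_TS fun hT => hq (hQ q hT))]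
  have h1 : cnt n Q (Φ i y h) =
      (Finset.univ.filter fun δ : Fin e × Bool => Q (nb (Φ i y h) δ)).card := by
    rw [cnt_eq_card]
    congr 1
    ext δ
    simp only [Finset.mem_filter, Finset.mem_univ, true_and]
    exact ⟨fun g => g.2, fun g => ⟨E.box_nb hv δ, g⟩⟩
  have h2 : cnt n (fun q => ¬ Q q) (Φ i y h) =
      (Finset.univ.filter fun δ : Fin e × Bool => ¬ Q (nb (Φ i y h) δ)).card := by
    rw [cnt_eq_card]
    congr 1
    ext δ
    simp only [Finset.mem_filter, Finset.mem_univ, true_and]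
    exact ⟨fun g => g.2, fun g => ⟨E.box_nb hv δ, g⟩⟩
  rw [h1, h2, Finset.card_filter_add_card_filter_not, Finset.card_univ, Fintype.card_prod,
    Fintype.card_fin, Fintype.card_bool]
  ring

lemma sx_congr {B B' : ℤ → ℤ → ℤ → Prop} (hB : ∀ i y h, B i y h ↔ B' i y h) (i y h : ℤ) :
    sx B i y h = sx B' i y h := by
  have : B = B' := by
    funext i y h
    exact propext (hB i y h)
  rw [this]

open Classical in
/-- the times -/
noncomputable def tauS (N H : ℤ) (Φ : ℤ → ℤ → ℤ → Fin e → ℤ) (q : Fin e → ℤ) : ℤ :=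
  if hq : ∃ c : ℤ × ℤ × ℤ, V N H c.1 c.2.1 c.2.2 ∧ Φ c.1 c.2.1 c.2.2 = q then
    tt N H hq.choose.1 hq.choose.2.2 else 0

lemma Emb.tauS_eq (E : Emb n N H Φ) {i y h : ℤ} (hv : V N H i y h) :
    tauS N H Φ (Φ i y h) = tt N H i h := by
  have hq : ∃ c : ℤ × ℤ × ℤ, V N H c.1 c.2.1 c.2.2 ∧ Φ c.1 c.2.1 c.2.2 = Φ i y h :=
    ⟨(i, y, h), hv, rfl⟩
  rw [tauS, dif_pos hq]
  obtain ⟨h1, h2⟩ := hq.choose_spec
  obtain ⟨g1, g2, g3⟩ := E.inj _ _ _ _ _ _ h1 hv h2
  rw [g1, g3]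

lemma one_le_LL (hN : 2 ≤ N) (hH : 4 ≤ H) : 1 ≤ LL N H := by
  unfold LL
  nlinarith

/-- the process started from one trigger -/
theorem Emb.half (E : Emb n N H Φ) (he : 2 ≤ e) (hN : 2 ≤ N) (hH : 4 ≤ H) (hH2 : H % 2 = 0) :
    Half n (2 * e - 3) (LL N H) (TS N H Φ) (tauS N H Φ) (Φ (-2) 1 0) (Φ (-2) 1 H) := by
  have hL := one_le_LL hN hH
  have hvA : V N H (-2) 1 0 := Vl (by omega) hN (by omega) (by omega)
  have hvB : V N H (-2) 1 H := Vl (by omega) hN (by omega) (by omega)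
  refine ⟨?_, ?_, ?_, ?_, ?_⟩
  · intro p _ hT
    obtain ⟨i, y, h, hv, rfl⟩ := exists_of_not_TS hT
    rw [E.tauS_eq hv]
    unfold tt
    omega
  · intro p _ hT _ h2
    obtain ⟨i, y, h, hv, rfl⟩ := exists_of_not_TS hT
    rw [E.tauS_eq hv] at h2 ⊢
    have h3 := cert hN hH hH2 hv h2
    have h4 := E.cnt_add hv (fun q => TS N H Φ q ∨ q = Φ (-2) 1 0 ∨
      tauS N H Φ q + 2 ≤ tt N H i h) (fun q hq => Or.inl hq)
    have h5 : sx (fun i' y' h' => V N H i' y' h' ∧ ¬ (TS N H Φ (Φ i' y' h') ∨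
        Φ i' y' h' = Φ (-2) 1 0 ∨ tauS N H Φ (Φ i' y' h') + 2 ≤ tt N H i h)) i y h =
        sx (G N H (tt N H i h)) i y h := by
      apply sx_congr
      intro i' y' h'
      constructor
      · rintro ⟨g1, g2⟩
        rw [E.tauS_eq g1] at g2
        push Not at g2
        refine ⟨g1, ?_, by omega⟩
        rintro ⟨rfl, rfl, rfl⟩
        exact g2.2.1 rfl
      · rintro ⟨g1, g2, g3⟩
        refine ⟨g1, ?_⟩
        rw [E.tauS_eq g1]
        rintro (g | g | g)
        · exact not_TS g1 g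
        · exact g2 (E.inj _ _ _ _ _ _ g1 hvA g)
        · omega
    rw [h5] at h4
    omega
  · rw [E.tauS_eq hvB]
    have e1 : (H - 1) * (N + 2) = H * (N + 2) - (N + 2) := by ring
    have e2 : ff N (-2) H = H * (N + 2) - 1 := by
      unfold ff xx
      rw [if_pos hH2]
      omega
    unfold tt
    rw [e2]
    unfold LL at hL ⊢
    rw [e1] at hL ⊢
    omega
  · intro δ _ hT
    obtain ⟨i, y, h, hv, he'⟩ := exists_of_not_TS hT
    have hadj := adjZ_nb (Φ (-2) 1 H) δ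
    rw [← he'] at hadj ⊢
    rw [E.adj _ _ _ _ _ _ hvB hv] at hadj
    rw [E.tauS_eq hv]
    have hle := LL_le hN hH2 i (h := h) (by unfold nbM at hadj; omega)
    have e1 : (H - 1) * (N + 2) = H * (N + 2) - (N + 2) := by ring
    have e2 : (H + 1) * (N + 2) = H * (N + 2) + (N + 2) := by ring
    have hx : xx N i = -1 := by
      unfold nbM at hadj
      unfold xx
      omega
    have hff : LL N H ≤ ff N i h := by
      unfold ff LL
      rw [hx]
      rcases (show h = H - 1 ∨ h = H ∨ h = H + 1 by unfold nbM at hadj; omega) with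
        rfl | rfl | rfl
      · rw [if_neg (by omega)]
        omega
      · rw [e1, if_pos hH2]
        omega
      · rw [e1, e2, if_neg (by omega)]
        omega
    unfold tt
    omega
  · intro U hU p hp
    obtain ⟨h1, h2, h3⟩ := hU p hp
    have hst : Stable N H (fun i y h => V N H i y h ∧ U (Φ i y h)) := by
      rintro i y h ⟨hv, hu⟩
      obtain ⟨g1, g2, g3⟩ := hU _ hu
      refine ⟨hv, ?_, ?_⟩
      · rintro ⟨rfl, rfl, rfl⟩
        exact g2 (Or.inr rfl)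
      · have h4 := E.cnt_add hv (fun q => ¬ U q) (fun q hq hu' => (hU q hu').2.1 (Or.inl hq))
        have h5 : sx (fun i' y' h' => V N H i' y' h' ∧ ¬ ¬ U (Φ i' y' h')) i y h =
            sx (fun i' y' h' => V N H i' y' h' ∧ U (Φ i' y' h')) i y h :=
          sx_congr (fun i' y' h' => by rw [not_not]) i y h
        rw [h5] at h4
        omega
    obtain ⟨i, y, h, hv, rfl⟩ := exists_of_not_TS (fun hT => h2 (Or.inl hT))
    exact perc hN hH hH2 hst i y h ⟨hv, hp⟩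

/-- **The base construction.** -/
theorem Emb.pair (E : Emb n N H Φ) (he : 2 ≤ e) (hN : 2 ≤ N) (hH : 4 ≤ H) (hH2 : H % 2 = 0) :
    ∃ (T : (Fin e → ℤ) → Prop) (a b : Fin e → ℤ) (τa τb : (Fin e → ℤ) → ℤ),
      Pair n (2 * e - 3) (LL N H) T a b τa τb := by
  have hvA : V N H (-2) 1 0 := Vl (by omega) hN (by omega) (by omega)
  have hvB : V N H (-2) 1 H := Vl (by omega) hN (by omega) (by omega)
  have E' : Emb n N H (fun i y h => Φ i y (H - h)) := by
    refine ⟨?_, ?_, ?_⟩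
    · intro i y h hv
      exact E.box _ _ _ ((V_symm hH2 i y h).2 hv)
    · intro i y h i' y' h' hv hv' he
      obtain ⟨g1, g2, g3⟩ := E.inj _ _ _ _ _ _ ((V_symm hH2 i y h).2 hv)
        ((V_symm hH2 i' y' h').2 hv') he
      exact ⟨g1, g2, by omega⟩
    · intro i y h i' y' h' hv hv'
      rw [E.adj _ _ _ _ _ _ ((V_symm hH2 i y h).2 hv) ((V_symm hH2 i' y' h').2 hv')]
      unfold nbM
      omega
  have eT : TS N H (fun i y h => Φ i y (H - h)) = TS N H Φ := by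
    funext q
    apply propext
    unfold TS
    apply not_congr
    constructor
    · rintro ⟨i, y, h, hv, g⟩
      exact ⟨i, y, H - h, (V_symm hH2 i y h).2 hv, g⟩
    · rintro ⟨i, y, h, hv, g⟩
      refine ⟨i, y, H - h, (V_symm hH2 i y h).2 hv, ?_⟩
      simpa using g
  have h1 := E.half he hN hH hH2
  have h2 := E'.half he hN hH hH2
  rw [eT] at h2
  simp only [sub_zero, sub_self] at h2
  have hin : ∀ i y h, V N H i y h → cnt n (TS N H Φ) (Φ i y h) + sx (V N H) i y h = 2 * e := by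
    intro i y h hv
    have h4 := E.cnt_add hv (TS N H Φ) (fun q hq => hq)
    rw [← h4]
    congr 1
    exact sx_congr (fun i' y' h' => ⟨fun g => ⟨g, not_TS g⟩, fun g => g.1⟩) i y h
  refine ⟨TS N H Φ, Φ (-2) 1 0, Φ (-2) 1 H, _, _, ?_, ?_, not_TS hvA, not_TS hvB, ?_, ?_, ?_, ?_,
    ?_, ?_, ?_, h1, h2⟩
  · intro s
    have := E.box _ _ _ hvA s
    omega
  · intro s
    have := E.box _ _ _ hvB s
    omega
  · intro g
    have := (E.inj _ _ _ _ _ _ hvA hvB g).2.2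
    omega
  · intro δ g
    have hadj := adjZ_nb (Φ (-2) 1 0) δ
    rw [g, E.adj _ _ _ _ _ _ hvA hvB] at hadj
    unfold nbM at hadj
    omega
  · intro δ g
    have hadj := adjZ_nb (Φ (-2) 1 H) δ
    rw [g, E.adj _ _ _ _ _ _ hvB hvA] at hadj
    unfold nbM at hadj
    omega
  · intro p _ hT
    obtain ⟨i, y, h, hv, rfl⟩ := exists_of_not_TS hT
    have g1 := hin i y h hv
    have g2 := inert hN hH hH2 hv
    omega
  · have g1 := hin _ _ _ hvA
    have g2 := inert_trigger (h := 0) hN hH (Or.inl rfl)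
    omega
  · have g1 := hin _ _ _ hvB
    have g2 := inert_trigger (h := H) hN hH (Or.inr rfl)
    omega
  · intro U hU p hp
    obtain ⟨-, h2, -⟩ := hU p hp
    obtain ⟨i, y, h, hv, rfl⟩ := exists_of_not_TS h2
    refine perc0 hN hH hH2 (U := fun i y h => V N H i y h ∧ U (Φ i y h)) ?_ i y h ⟨hv, hp⟩
    rintro i y h ⟨hv, hu⟩
    refine ⟨hv, ?_⟩
    obtain ⟨g1, g2, g3⟩ := hU _ hu
    have h4 := E.cnt_add hv (fun q => ¬ U q) (fun q hq hu' => (hU q hu').2.1 hq)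
    have h5 : sx (fun i' y' h' => V N H i' y' h' ∧ ¬ ¬ U (Φ i' y' h')) i y h =
        sx (fun i' y' h' => V N H i' y' h' ∧ U (Φ i' y' h')) i y h :=
      sx_congr (fun i' y' h' => by rw [not_not]) i y h
    rw [h5] at h4
    omega

end

end Pool.Agent.Lib.MP_1a3405_co.Mid
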