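import Mathlib
import Pool.Agent.Lib.MP_1a3405_co.Mid.Transfer
import Pool.Agent.Lib.MP_1a3405_co.Mid.Shape

/-!
From an induced path to lower bounds for `d < r < 2d - 1`.
-/

namespace Pool.Agent.Lib.MP_1a3405_co.Mid

open Pool.Agent.Lib.MP_1a3405_co Pool.Agent.Lib.MP_1a3405_co.Ord
open Pool.Agent.Lib.MP_1a3405_co.Diag Pool.Agent.Lib.MP_1a3405_co.Sn

lemma V_Sh {N H i y h : ℤ} (hN : 2 ≤ N) (hv : V N H i y h) :
    Sh N i y ∧ -1 ≤ h ∧ h ≤ H + 1 ∨ H < 0 := by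
  unfold V at hv
  unfold Sh
  omega

/-- the embedding of the model -/
theorem exists_emb {D m n : ℕ} {a b : Fin (D + 2) → ℤ} {A : List (Fin (D + 2) → ℤ)}
    (hA : IP adjZ a b A) (hb : ∀ p ∈ A, ∀ t, 1 ≤ p t ∧ p t ≤ m) {t : Fin (D + 2)} (ht : t ≠ 0)
    (ha : a t = 1) (hb' : b t = 1) (h0 : a 0 + 3 ≤ b 0) (hmn : m + 7 ≤ n) {H : ℤ} (hH : 4 ≤ H)
    (hHn : H + 5 ≤ n) :
    ∃ Φ : ℤ → ℤ → ℤ → Fin (D + 3) → ℤ, Emb n ((A.length : ℤ) + 2) H Φ := by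
  obtain ⟨Ψ, h1, h2, h3⟩ := exists_shape hA hb ht ha hb' h0
  have hN : (2 : ℤ) ≤ (A.length : ℤ) + 2 := by omega
  have key : ∀ {i y h : ℤ}, V ((A.length : ℤ) + 2) H i y h →
      Sh ((A.length : ℤ) + 2) i y ∧ -1 ≤ h ∧ h ≤ H + 1 := by
    intro i y h hv
    rcases V_Sh hN hv with g | g
    · exact g
    · omega
  refine ⟨fun i y h => cz (h + 3) (Ψ i y), ?_, ?_, ?_⟩
  · intro i y h hv s
    obtain ⟨g1, g2, g3⟩ := key hv
    refine Fin.cases ?_ (fun s => ?_) s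
    · simp only [cz_zero]
      omega
    · simp only [cz_succ]
      have := h1 i y g1 s
      omega
  · intro i y h i' y' h' hv hv' he
    obtain ⟨e1, e2⟩ := cz_inj he
    obtain ⟨e3, e4⟩ := h2 _ _ _ _ (key hv).1 (key hv').1 e2
    exact ⟨e3, e4, by omega⟩
  · intro i y h i' y' h' hv hv'
    rw [adj_cz, h3 _ _ _ _ (key hv).1 (key hv').1]
    unfold nbM
    constructor
    · rintro (⟨g1, g2⟩ | ⟨g1, g2⟩)
      · omega
      · obtain ⟨e3, e4⟩ := h2 _ _ _ _ (key hv).1 (key hv').1 g1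
        omega
    · rintro (⟨rfl, rfl, g⟩ | ⟨rfl, rfl, g⟩ | ⟨rfl, rfl, g⟩)
      · exact Or.inl ⟨rfl, Or.inl ⟨rfl, g⟩⟩
      · exact Or.inl ⟨rfl, Or.inr ⟨rfl, g⟩⟩
      · exact Or.inr ⟨rfl, by omega⟩

/-- iterated stacking -/
theorem pair_iterate {n e r : ℕ} {L : ℤ} {T : (Fin e → ℤ) → Prop} {a b : Fin e → ℤ}
    {τa τb : (Fin e → ℤ) → ℤ} (h : Pair n r L T a b τa τb) (hn : 6 ≤ n) (j : ℕ) :
    ∃ (T : (Fin (e + j) → ℤ) → Prop) (a b : Fin (e + j) → ℤ) (τa τb : (Fin (e + j) → ℤ) → ℤ),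
      Pair n (r + j) (((n : ℤ) - 4) ^ j * L) T a b τa τb := by
  induction j with
  | zero => exact ⟨_, _, _, _, _, by simpa using h⟩
  | succ j ih =>
    obtain ⟨T, a, b, τa, τb, h⟩ := ih
    obtain ⟨T', a', b', τa', τb', h'⟩ := h.stack hn
    refine ⟨T', a', b', τa', τb', ?_⟩
    have e1 : ((n : ℤ) - 4) ^ (j + 1) * L = ((n : ℤ) - 4) * (((n : ℤ) - 4) ^ j * L) := by
      ring
    rw [e1]
    exact h'

/-- **The lower bound from an induced path.** -/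
theorem lower_int {D m n : ℕ} {a b : Fin (D + 2) → ℤ} {A : List (Fin (D + 2) → ℤ)}
    (hA : IP adjZ a b A) (hb : ∀ p ∈ A, ∀ t, 1 ≤ p t ∧ p t ≤ m) {t : Fin (D + 2)} (ht : t ≠ 0)
    (ha : a t = 1) (hb' : b t = 1) (h0 : a 0 + 3 ≤ b 0) (hmn : m + 7 ≤ n) (hn : 11 ≤ n) (j : ℕ) :
    ((n : ℤ) - 4) ^ j * (((n : ℤ) - 7) * (A.length + 4)) ≤
      (maxPercTime (grid (D + 3 + j) n) (2 * D + 4 + j) : ℤ) := by
  obtain ⟨H, hH1, hH2, hH3⟩ : ∃ H : ℤ, H + 5 ≤ n ∧ (n : ℤ) ≤ H + 6 ∧ H % 2 = 0 := by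
    by_cases hp : n % 2 = 0
    · exact ⟨(n : ℤ) - 6, by omega, by omega, by omega⟩
    · exact ⟨(n : ℤ) - 5, by omega, by omega, by omega⟩
  obtain ⟨Φ, E⟩ := exists_emb hA hb ht ha hb' h0 hmn (H := H) (by omega) hH1
  obtain ⟨T, a', b', τa, τb, hP⟩ := E.pair (by omega) (by omega) (by omega) hH3
  obtain ⟨T, a', b', τa, τb, hP⟩ := pair_iterate hP (by omega) j
  have h1 := hP.ha.le_max hP.box_b hP.not_b hP.ne.symm
  have e1 : 2 * (D + 3) - 3 + j + 1 = 2 * D + 4 + j := by omega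
  rw [e1] at h1
  refine le_trans ?_ h1
  apply mul_le_mul_of_nonneg_left _ (pow_nonneg (by omega) j)
  unfold LL
  have e2 : (A.length : ℤ) + 2 + 2 = A.length + 4 := by ring
  rw [e2]
  apply mul_le_mul_of_nonneg_right _ (by omega)
  omega

end Pool.Agent.Lib.MP_1a3405_co.Mid
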