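import Mathlib
import Pool.Agent.Lib.MP_1a3405_co.Sn.Upper

/-!
The upper bound `((d+1) r - 3 d) M([n]^d, r) ≤ d (d-1) n^d`, by counting the unit squares on the
edges of the chain of infection times.
-/

namespace Pool.Agent.Lib.MP_1a3405_co.Mid

open Finset

variable {d : ℕ}

/-- the opposite direction -/
def opp (δ : Fin d × Bool) : Fin d × Bool := (δ.1, !δ.2)

theorem opp_opp (δ : Fin d × Bool) : opp (opp δ) = δ := by
  unfold opp
  simp

theorem nb_opp (p : Fin d → ℤ) (δ : Fin d × Bool) : nb (nb p δ) (opp δ) = p := by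
  obtain ⟨i, b⟩ := δ
  funext j
  unfold nb opp
  by_cases hj : j = i
  · subst hj
    cases b <;> simp
  · rw [Function.update_of_ne hj, Function.update_of_ne hj]

theorem nb_comm (p : Fin d → ℤ) (δ ε : Fin d × Bool) : nb (nb p δ) ε = nb (nb p ε) δ := by
  obtain ⟨i, b⟩ := δ
  obtain ⟨i', b'⟩ := ε
  funext j
  unfold nb
  by_cases h : i = i'
  · subst h
    by_cases hj : j = i
    · subst hj
      simp only [Function.update_self]
      ring
    · simp only [Function.update_of_ne hj]
  · by_cases hj : j = i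
    · subst hj
      simp only [Function.update_self, Function.update_of_ne h]
    · by_cases hj' : j = i'
      · subst hj'
        simp only [Function.update_self, Function.update_of_ne hj]
      · simp only [Function.update_of_ne hj, Function.update_of_ne hj']

theorem nb_left_inj (δ : Fin d × Bool) {p q : Fin d → ℤ} (h : nb p δ = nb q δ) : p = q := by
  rw [← nb_opp p δ, h, nb_opp]

theorem nb_ne (p : Fin d → ℤ) (δ : Fin d × Bool) : nb p δ ≠ p := by
  intro h
  have := congrFun h δ.1
  simp only [nb, Function.update_self] at this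
  split_ifs at this <;> omega

/-- adjacency -/
def rel (x y : Fin d → ℤ) : Prop := ∃ δ, nb x δ = y

theorem rel_symm {x y : Fin d → ℤ} (h : rel x y) : rel y x := by
  obtain ⟨δ, rfl⟩ := h
  exact ⟨opp δ, nb_opp x δ⟩

theorem rel_irrefl (x : Fin d → ℤ) : ¬ rel x x := by
  rintro ⟨δ, h⟩
  exact nb_ne x δ h

open Classical in
/-- the number of neighbours of `x` in `S` -/
noncomputable def dgr (S : Finset (Fin d → ℤ)) (x : Fin d → ℤ) : ℕ :=
  (univ.filter fun δ => nb x δ ∈ S).card

open Classical in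
/-- the number of directions leading out of `S` -/
noncomputable def mss (S : Finset (Fin d → ℤ)) (x : Fin d → ℤ) : ℕ :=
  (univ.filter fun δ => nb x δ ∉ S).card

theorem dgr_add_mss (S : Finset (Fin d → ℤ)) (x : Fin d → ℤ) : dgr S x + mss S x = 2 * d := by
  classical
  unfold dgr mss
  have h := Finset.card_filter_add_card_filter_not (s := (univ : Finset (Fin d × Bool)))
    (fun δ => nb x δ ∈ S)
  rw [Finset.card_univ, Fintype.card_prod, Fintype.card_fin, Fintype.card_bool] at h
  omega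

open Classical in
theorem dgr_eq (S : Finset (Fin d → ℤ)) (x : Fin d → ℤ) :
    dgr S x = (S.filter fun y => rel x y).card := by
  unfold dgr
  rw [← Finset.card_image_of_injective _ (nb_injective x)]
  congr 1
  ext y
  simp only [mem_image, mem_filter, mem_univ, true_and]
  constructor
  · rintro ⟨δ, h1, rfl⟩
    exact ⟨h1, δ, rfl⟩
  · rintro ⟨h1, δ, rfl⟩
    exact ⟨δ, h1, rfl⟩

/-- the number of pairs of neighbours -/
noncomputable def cnt (S S' : Finset (Fin d → ℤ)) : ℕ := ∑ x ∈ S, dgr S' x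

theorem cnt_comm (S S' : Finset (Fin d → ℤ)) : cnt S S' = cnt S' S := by
  classical
  unfold cnt
  simp only [dgr_eq]
  have h := Finset.sum_card_bipartiteAbove_eq_sum_card_bipartiteBelow
    (r := fun x y : Fin d → ℤ => rel x y) (s := S) (t := S')
  unfold Finset.bipartiteAbove Finset.bipartiteBelow at h
  rw [h]
  refine Finset.sum_congr rfl fun y _ => ?_
  congr 1
  ext x
  simp only [mem_filter]
  constructor
  · rintro ⟨h1, h2⟩
    exact ⟨h1, rel_symm h2⟩
  · rintro ⟨h1, h2⟩
    exact ⟨h1, rel_symm h2⟩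

open Classical in
theorem dgr_split {B P : Finset (Fin d → ℤ)} (h : P ⊆ B) (x : Fin d → ℤ) :
    dgr B x = dgr P x + dgr (B \ P) x := by
  unfold dgr
  rw [← Finset.card_union_of_disjoint]
  · congr 1
    ext δ
    simp only [mem_filter, mem_univ, true_and, mem_union, mem_sdiff]
    constructor
    · intro h1
      by_cases h2 : nb x δ ∈ P
      · exact Or.inl h2
      · exact Or.inr ⟨h1, h2⟩
    · rintro (h1 | h1)
      · exact h h1
      · exact h1.1
  · rw [Finset.disjoint_left]
    intro δ h1 h2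
    simp only [mem_filter, mem_univ, true_and, mem_sdiff] at h1 h2
    exact h2.2 h1

theorem card_off (i : Fin d) :
    ((univ : Finset (Fin d × Bool)).filter fun δ => δ.1 ≠ i).card = 2 * (d - 1) := by
  have e : ((univ : Finset (Fin d × Bool)).filter fun δ => δ.1 ≠ i) =
      (univ.erase i) ×ˢ (univ : Finset Bool) := by
    ext δ
    simp
  rw [e, Finset.card_product, Finset.card_erase_of_mem (mem_univ _), Finset.card_univ,
    Finset.card_univ, Fintype.card_fin, Fintype.card_bool]
  ring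

theorem card_filter_prod {α β : Type*} (s : Finset α) (t : Finset β) (p : α → β → Prop)
    [∀ a b, Decidable (p a b)] :
    ((s ×ˢ t).filter fun z => p z.1 z.2).card = ∑ a ∈ s, (t.filter (p a)).card := by
  rw [Finset.card_filter, Finset.sum_product]
  refine Finset.sum_congr rfl fun a _ => ?_
  rw [Finset.card_filter]

section Chain

variable {w : ℕ → Fin d → ℤ} {T : ℕ}

open Classical in
theorem dgr_image (hinj : ∀ j k, 1 ≤ j → j ≤ T → 1 ≤ k → k ≤ T → w j = w k → j = k)
    {J : Finset ℕ} (hJ : J ⊆ Icc 1 T) (x : Fin d → ℤ) :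
    dgr (J.image w) x = (J.filter fun j => rel x (w j)).card := by
  rw [dgr_eq, Finset.filter_image, Finset.card_image_of_injOn]
  intro j hj k hk h
  rw [Finset.mem_coe, mem_filter] at hj hk
  have h1 := mem_Icc.1 (hJ hj.1)
  have h2 := mem_Icc.1 (hJ hk.1)
  exact hinj j k h1.1 h1.2 h2.1 h2.2 h

open Classical in
/-- the number of later neighbours on the chain -/
noncomputable def ltr (w : ℕ → Fin d → ℤ) (T k : ℕ) : ℕ :=
  ((Icc 1 T).filter fun j => k < j ∧ rel (w k) (w j)).card

theorem cnt_self (hinj : ∀ j k, 1 ≤ j → j ≤ T → 1 ≤ k → k ≤ T → w j = w k → j = k) :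
    ∑ k ∈ Icc 1 T, dgr ((Icc 1 T).image w) (w k) = 2 * ∑ k ∈ Icc 1 T, ltr w T k := by
  classical
  have h1 : ∀ k ∈ Icc 1 T, dgr ((Icc 1 T).image w) (w k) = ltr w T k +
      ((Icc 1 T).filter fun j => j < k ∧ rel (w k) (w j)).card := by
    intro k hk
    rw [dgr_image hinj (Finset.Subset.refl _)]
    unfold ltr
    rw [← Finset.card_union_of_disjoint]
    · congr 1
      ext j
      simp only [mem_filter, mem_union]
      constructor
      · rintro ⟨h2, h3⟩
        rcases lt_trichotomy k j with h | h | h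
        · exact Or.inl ⟨h2, h, h3⟩
        · subst h
          exact absurd h3 (rel_irrefl _)
        · exact Or.inr ⟨h2, h, h3⟩
      · rintro (h | h)
        · exact ⟨h.1, h.2.2⟩
        · exact ⟨h.1, h.2.2⟩
    · rw [Finset.disjoint_left]
      intro j h2 h3
      simp only [mem_filter] at h2 h3
      omega
  rw [Finset.sum_congr rfl h1, Finset.sum_add_distrib, two_mul]
  congr 1
  have h := Finset.sum_card_bipartiteAbove_eq_sum_card_bipartiteBelow
    (r := fun k j : ℕ => j < k ∧ rel (w k) (w j)) (s := Icc 1 T) (t := Icc 1 T)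
  unfold Finset.bipartiteAbove Finset.bipartiteBelow at h
  rw [h]
  refine Finset.sum_congr rfl fun j _ => ?_
  unfold ltr
  congr 1
  ext k
  simp only [mem_filter]
  constructor
  · rintro ⟨h1, h2, h3⟩
    exact ⟨h1, h2, rel_symm h3⟩
  · rintro ⟨h1, h2, h3⟩
    exact ⟨h1, h2, rel_symm h3⟩

open Classical in
/-- The squares on one edge of the chain. -/
theorem square_one {B P : Finset (Fin d → ℤ)} {x : Fin d → ℤ} {e : Fin d × Bool} (hx : x ∈ P)
    (hy : nb x e ∈ P) (hcl : ∀ δ : Fin d × Bool, δ.1 ≠ e.1 → nb x δ ∈ B → nb (nb x e) δ ∈ B)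
    (hd : 1 ≤ d) :
    2 * d ≤ dgr P x + dgr P (nb x e) + (univ.filter fun δ : Fin d × Bool => δ.1 ≠ e.1 ∧
      nb x δ ∈ B \ P ∧ nb (nb x e) δ ∈ B \ P).card + mss B x := by
  have h1 : ((univ : Finset (Fin d × Bool)).filter fun δ => δ.1 ≠ e.1) ⊆
      (((univ.filter fun δ => nb x δ ∈ P).erase e) ∪
        ((univ.filter fun δ => nb (nb x e) δ ∈ P).erase (opp e))) ∪
      ((univ.filter fun δ : Fin d × Bool => δ.1 ≠ e.1 ∧
        nb x δ ∈ B \ P ∧ nb (nb x e) δ ∈ B \ P) ∪ (univ.filter fun δ => nb x δ ∉ B)) := by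
    intro δ hδ
    simp only [mem_filter, mem_univ, true_and] at hδ
    simp only [mem_union, mem_erase, mem_filter, mem_univ, true_and, mem_sdiff]
    have n1 : δ ≠ e := by
      rintro rfl
      exact hδ rfl
    have n2 : δ ≠ opp e := by
      rintro rfl
      exact hδ rfl
    by_cases hB : nb x δ ∈ B
    · have hB' := hcl δ hδ hB
      by_cases hP : nb x δ ∈ P
      · exact Or.inl (Or.inl ⟨n1, hP⟩)
      · by_cases hP' : nb (nb x e) δ ∈ P
        · exact Or.inl (Or.inr ⟨n2, hP'⟩)
        · exact Or.inr (Or.inl ⟨hδ, ⟨hB, hP⟩, hB', hP'⟩)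
    · exact Or.inr (Or.inr hB)
  have h2 := Finset.card_le_card h1
  rw [card_off] at h2
  have h3 := Finset.card_union_le
    (((univ.filter fun δ => nb x δ ∈ P).erase e) ∪
        ((univ.filter fun δ => nb (nb x e) δ ∈ P).erase (opp e)))
      ((univ.filter fun δ : Fin d × Bool => δ.1 ≠ e.1 ∧
        nb x δ ∈ B \ P ∧ nb (nb x e) δ ∈ B \ P) ∪ (univ.filter fun δ => nb x δ ∉ B))
  have h4 := Finset.card_union_le ((univ.filter fun δ => nb x δ ∈ P).erase e)
    ((univ.filter fun δ => nb (nb x e) δ ∈ P).erase (opp e))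
  have h5 := Finset.card_union_le (univ.filter fun δ : Fin d × Bool => δ.1 ≠ e.1 ∧
        nb x δ ∈ B \ P ∧ nb (nb x e) δ ∈ B \ P) (univ.filter fun δ => nb x δ ∉ B)
  have m1 : e ∈ (univ.filter fun δ => nb x δ ∈ P) := by simpa using hy
  have m2 : opp e ∈ (univ.filter fun δ => nb (nb x e) δ ∈ P) := by
    simp only [mem_filter, mem_univ, true_and]
    rw [nb_opp]
    exact hx
  rw [Finset.card_erase_of_mem m1, Finset.card_erase_of_mem m2] at h4
  have p1 := Finset.card_pos.2 ⟨_, m1⟩
  have p2 := Finset.card_pos.2 ⟨_, m2⟩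
  unfold dgr mss
  omega

open Classical in
theorem card_target (C : Finset (Fin d → ℤ)) :
    ((C ×ˢ ((univ : Finset (Fin d × Bool)) ×ˢ (univ : Finset (Fin d × Bool)))).filter
      fun z => nb z.1 z.2.1 ∈ C ∧ z.2.2.1 ≠ z.2.1.1).card = 2 * (d - 1) * cnt C C := by
  rw [card_filter_prod C _ (fun (a : Fin d → ℤ) (b : (Fin d × Bool) × (Fin d × Bool)) =>
    nb a b.1 ∈ C ∧ b.2.1 ≠ b.1.1)]
  unfold cnt
  rw [Finset.mul_sum]
  refine Finset.sum_congr rfl fun c _ => ?_
  rw [card_filter_prod univ univ (fun (e δ : Fin d × Bool) => nb c e ∈ C ∧ δ.1 ≠ e.1)]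
  unfold dgr
  rw [Finset.card_filter, Finset.mul_sum]
  refine Finset.sum_congr rfl fun e _ => ?_
  split_ifs with h
  · rw [mul_one, ← card_off e.1]
    congr 1
    ext δ
    simp [h]
  · rw [mul_zero, Finset.card_eq_zero, Finset.filter_eq_empty_iff]
    intro δ _ h'
    exact h h'.1

open Classical in
/-- The edges of the complement that face an edge of the chain. -/
theorem facing (hinj : ∀ j k, 1 ≤ j → j ≤ T → 1 ≤ k → k ≤ T → w j = w k → j = k)
    (eps : ℕ → Fin d × Bool) (hstep : ∀ k, 1 ≤ k → k < T → w (k + 1) = nb (w k) (eps k))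
    (C : Finset (Fin d → ℤ)) :
    2 * ∑ k ∈ Icc 1 (T - 1), (univ.filter fun δ : Fin d × Bool => δ.1 ≠ (eps k).1 ∧
      nb (w k) δ ∈ C ∧ nb (nb (w k) (eps k)) δ ∈ C).card ≤ 2 * (d - 1) * cnt C C := by
  rw [← card_target C, ← card_filter_prod (Icc 1 (T - 1)) univ
    (fun (k : ℕ) (δ : Fin d × Bool) => δ.1 ≠ (eps k).1 ∧ nb (w k) δ ∈ C ∧
      nb (nb (w k) (eps k)) δ ∈ C)]
  set F := ((Icc 1 (T - 1)) ×ˢ (univ : Finset (Fin d × Bool))).filter fun z =>
    z.2.1 ≠ (eps z.1).1 ∧ nb (w z.1) z.2 ∈ C ∧ nb (nb (w z.1) (eps z.1)) z.2 ∈ C with hF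
  have e1 : 2 * F.card = (F ×ˢ (univ : Finset Bool)).card := by
    rw [Finset.card_product, Finset.card_univ, Fintype.card_bool]
    ring
  rw [e1]
  apply Finset.card_le_card_of_injOn (fun z : (ℕ × (Fin d × Bool)) × Bool =>
    if z.2 then (nb (w z.1.1) z.1.2, (eps z.1.1, z.1.2))
    else (nb (nb (w z.1.1) (eps z.1.1)) z.1.2, (opp (eps z.1.1), z.1.2)))
  · rintro ⟨⟨k, δ⟩, b⟩ hz
    simp only [Finset.coe_product, Set.mem_prod, Finset.mem_coe, hF, mem_filter, mem_product,
      mem_univ, and_true] at hz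
    obtain ⟨h1, h2, h3, h4⟩ := hz
    simp only [Finset.mem_coe, mem_filter, mem_product, mem_univ, and_true]
    cases b
    · simp only [Bool.false_eq_true, if_false]
      refine ⟨h4, ?_, h2⟩
      rw [nb_comm _ δ (opp (eps k)), nb_opp]
      exact h3
    · simp only [if_true]
      refine ⟨h3, ?_, h2⟩
      rw [nb_comm _ δ (eps k)]
      exact h4
  · rintro ⟨⟨k, δ⟩, b⟩ hz ⟨⟨k', δ'⟩, b'⟩ hz' h
    simp only [Finset.coe_product, Set.mem_prod, Finset.mem_coe, hF, mem_filter, mem_product,
      mem_univ, and_true, mem_Icc] at hz hz'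
    obtain ⟨⟨a1, a2⟩, -, -, -⟩ := hz
    obtain ⟨⟨a1', a2'⟩, -, -, -⟩ := hz'
    have s1 := hstep k a1 (by omega)
    have s1' := hstep k' a1' (by omega)
    cases b <;> cases b'
    · simp only [Bool.false_eq_true, if_false, Prod.mk.injEq] at h
      obtain ⟨h1, -, rfl⟩ := h
      have h2 := nb_left_inj _ h1
      rw [← s1, ← s1'] at h2
      have := hinj _ _ (by omega) (by omega) (by omega) (by omega) h2
      have hk : k = k' := by omega
      subst hk
      rfl
    · exfalso
      simp only [Bool.false_eq_true, if_false, if_true, Prod.mk.injEq] at h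
      obtain ⟨h1, h2, rfl⟩ := h
      have h3 := nb_left_inj _ h1
      rw [← s1] at h3
      have g1 := hinj _ _ (by omega) (by omega) (by omega) (by omega) h3
      rw [← h2, ← h3, s1, nb_opp] at s1'
      have g2 := hinj _ _ (by omega) (by omega) (by omega) (by omega) s1'
      omega
    · exfalso
      simp only [Bool.false_eq_true, if_false, if_true, Prod.mk.injEq] at h
      obtain ⟨h1, h2, rfl⟩ := h
      have h3 := nb_left_inj _ h1
      rw [← s1'] at h3
      have g1 := hinj _ _ (by omega) (by omega) (by omega) (by omega) h3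
      rw [h2, h3, s1', nb_opp] at s1
      have g2 := hinj _ _ (by omega) (by omega) (by omega) (by omega) s1
      omega
    · simp only [if_true, Prod.mk.injEq] at h
      obtain ⟨h1, -, rfl⟩ := h
      have h2 := nb_left_inj _ h1
      have hk := hinj _ _ (by omega) (by omega) (by omega) (by omega) h2
      subst hk
      rfl

/-- **The count of the squares on the chain.** -/
theorem chain_ineq (hd : 2 ≤ d) {B : Finset (Fin d → ℤ)} (hT : 1 ≤ T)
    (hinj : ∀ j k, 1 ≤ j → j ≤ T → 1 ≤ k → k ≤ T → w j = w k → j = k)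
    (hwB : ∀ k, 1 ≤ k → k ≤ T → w k ∈ B)
    (hstep : ∀ k, 1 ≤ k → k < T → rel (w k) (w (k + 1)))
    (hcl : ∀ x ∈ B, ∀ e δ : Fin d × Bool, nb x e ∈ B → δ.1 ≠ e.1 → nb x δ ∈ B →
      nb (nb x e) δ ∈ B)
    (r : ℕ) (hr : ∀ k, 1 ≤ k → k ≤ T → r + ltr w T k ≤ dgr B (w k))
    (hm : 2 * d ≤ ∑ x ∈ B, mss B x) :
    (((d : ℤ) + 1) * r - 3 * d) * T ≤ d * (d - 1) * B.card := by
  classical
  set P : Finset (Fin d → ℤ) := (Icc 1 T).image w with hP
  set C := B \ P with hC
  have hinjOn : Set.InjOn w (Icc 1 T : Finset ℕ) := by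
    intro j hj k hk h
    rw [Finset.mem_coe, mem_Icc] at hj hk
    exact hinj j k hj.1 hj.2 hk.1 hk.2 h
  have hPB : P ⊆ B := by
    intro x hx
    obtain ⟨k, hk, rfl⟩ := mem_image.1 hx
    rw [mem_Icc] at hk
    exact hwB k hk.1 hk.2
  have hcardP : P.card = T := by
    rw [hP, Finset.card_image_of_injOn hinjOn, Nat.card_Icc]
    omega
  have hcardB : C.card + T = B.card := by
    rw [hC, ← hcardP]
    exact Finset.card_sdiff_add_card_eq_card hPB
  have sumP : ∀ f : (Fin d → ℤ) → ℕ, ∑ x ∈ P, f x = ∑ k ∈ Icc 1 T, f (w k) := by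
    intro f
    rw [hP, Finset.sum_image hinjOn]
  obtain ⟨L, hL⟩ : ∃ L, L = ∑ k ∈ Icc 1 T, ltr w T k := ⟨_, rfl⟩
  obtain ⟨mP, hmP⟩ : ∃ m, m = ∑ x ∈ P, mss B x := ⟨_, rfl⟩
  obtain ⟨mC, hmC⟩ : ∃ m, m = ∑ x ∈ C, mss B x := ⟨_, rfl⟩
  have q1 : cnt P P = 2 * L := by
    rw [hL, ← cnt_self hinj]
    exact sumP _
  have q2 : L + r * T + mP ≤ 2 * d * T := by
    have h1 : ∑ k ∈ Icc 1 T, (r + ltr w T k + mss B (w k)) ≤ ∑ k ∈ Icc 1 T, 2 * d := by
      apply Finset.sum_le_sum
      intro k hk
      rw [mem_Icc] at hk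
      have := hr k hk.1 hk.2
      have := dgr_add_mss B (w k)
      omega
    rw [Finset.sum_add_distrib, Finset.sum_add_distrib, Finset.sum_const, Finset.sum_const,
      Nat.card_Icc, smul_eq_mul, smul_eq_mul, ← hL, ← sumP, ← hmP] at h1
    have e : T + 1 - 1 = T := by omega
    rw [e] at h1
    linarith
  have q3 : cnt P P + cnt P C + mP = 2 * d * T := by
    have h1 : ∑ x ∈ P, (dgr P x + dgr C x + mss B x) = ∑ x ∈ P, 2 * d := by
      refine Finset.sum_congr rfl fun x _ => ?_
      rw [hC, ← dgr_split hPB, dgr_add_mss]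
    rw [Finset.sum_add_distrib, Finset.sum_add_distrib, Finset.sum_const, hcardP,
      smul_eq_mul, ← hmP] at h1
    unfold cnt
    linarith
  have q4 : cnt P C + cnt C C + mC = 2 * d * C.card := by
    have h1 : ∑ x ∈ C, (dgr P x + dgr C x + mss B x) = ∑ x ∈ C, 2 * d := by
      refine Finset.sum_congr rfl fun x _ => ?_
      have := dgr_split hPB x
      rw [← hC] at this
      rw [← this, dgr_add_mss]
    rw [Finset.sum_add_distrib, Finset.sum_add_distrib, Finset.sum_const,
      smul_eq_mul, ← hmC] at h1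
    rw [cnt_comm P C]
    unfold cnt
    linarith
  have hstep' : ∀ k, ∃ e : Fin d × Bool, 1 ≤ k → k < T → w (k + 1) = nb (w k) e := by
    intro k
    by_cases hk : 1 ≤ k ∧ k < T
    · obtain ⟨e, he⟩ := hstep k hk.1 hk.2
      exact ⟨e, fun _ _ => he.symm⟩
    · refine ⟨(⟨0, by omega⟩, true), fun h1 h2 => absurd ⟨h1, h2⟩ hk⟩
  choose eps heps using hstep'
  obtain ⟨K, hK⟩ : ∃ K, K = ∑ k ∈ Icc 1 (T - 1), (univ.filter fun δ : Fin d × Bool =>
    δ.1 ≠ (eps k).1 ∧ nb (w k) δ ∈ C ∧ nb (nb (w k) (eps k)) δ ∈ C).card := ⟨_, rfl⟩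
  have q6 : 2 * K ≤ 2 * (d - 1) * cnt C C := by
    rw [hK]
    exact facing hinj eps heps C
  have q5 : 2 * d * (T - 1) ≤ 2 * cnt P P + K + mP := by
    have h1 : ∑ k ∈ Icc 1 (T - 1), 2 * d ≤ ∑ k ∈ Icc 1 (T - 1), (dgr P (w k) +
        dgr P (w (k + 1)) + (univ.filter fun δ : Fin d × Bool =>
          δ.1 ≠ (eps k).1 ∧ nb (w k) δ ∈ C ∧ nb (nb (w k) (eps k)) δ ∈ C).card +
        mss B (w k)) := by
      apply Finset.sum_le_sum
      intro k hk
      rw [mem_Icc] at hk
      have hk2 : k < T := by omega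
      have e1 := heps k hk.1 hk2
      rw [e1]
      apply square_one
      · rw [hP, mem_image]
        exact ⟨k, mem_Icc.2 ⟨hk.1, by omega⟩, rfl⟩
      · rw [← e1, hP, mem_image]
        exact ⟨k + 1, mem_Icc.2 ⟨by omega, by omega⟩, rfl⟩
      · intro δ hδ hδB
        refine hcl _ (hwB k hk.1 (by omega)) _ _ ?_ hδ hδB
        rw [← e1]
        exact hwB _ (by omega) (by omega)
      · omega
    rw [Finset.sum_add_distrib, Finset.sum_add_distrib, Finset.sum_add_distrib,
      Finset.sum_const, Nat.card_Icc, smul_eq_mul, ← hK] at h1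
    have h2 : ∑ k ∈ Icc 1 (T - 1), dgr P (w k) ≤ cnt P P := by
      unfold cnt
      rw [sumP]
      apply Finset.sum_le_sum_of_subset
      intro k hk
      rw [mem_Icc] at hk ⊢
      omega
    have h3 : ∑ k ∈ Icc 1 (T - 1), mss B (w k) ≤ mP := by
      rw [hmP, sumP]
      apply Finset.sum_le_sum_of_subset
      intro k hk
      rw [mem_Icc] at hk ⊢
      omega
    have h4 : ∑ k ∈ Icc 1 (T - 1), dgr P (w (k + 1)) ≤ cnt P P := by
      unfold cnt
      rw [sumP]
      have h5 : ∑ k ∈ Icc 1 (T - 1), dgr P (w (k + 1)) =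
          ∑ k ∈ (Icc 1 (T - 1)).image (fun k => k + 1), dgr P (w k) := by
        rw [Finset.sum_image]
        intro a _ b _ hab
        simpa using hab
      rw [h5]
      apply Finset.sum_le_sum_of_subset
      intro k hk
      obtain ⟨j, hj, rfl⟩ := mem_image.1 hk
      rw [mem_Icc] at hj ⊢
      omega
    have e : T - 1 + 1 - 1 = T - 1 := by omega
    rw [e] at h1
    nlinarith
  have q7 : 2 * d ≤ mP + mC := by
    refine le_trans hm ?_
    rw [hmP, hmC, hC, add_comm, Finset.sum_sdiff hPB]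
  -- the arithmetic
  obtain ⟨NC, hNC⟩ : ∃ x, x = cnt C C := ⟨_, rfl⟩
  obtain ⟨NPC, hNPC⟩ : ∃ x, x = cnt P C := ⟨_, rfl⟩
  rw [← hNC] at q4 q6
  rw [← hNPC] at q3 q4
  rw [q1] at q3 q5
  obtain ⟨D, rfl⟩ : ∃ D, d = D + 2 := ⟨d - 2, by omega⟩
  obtain ⟨S, rfl⟩ : ∃ S, T = S + 1 := ⟨T - 1, by omega⟩
  have q6' : K ≤ (D + 1) * NC := by
    have e : D + 2 - 1 = D + 1 := by omega
    rw [e] at q6
    nlinarith
  have e2 : S + 1 - 1 = S := by omega
  rw [e2] at q5
  rw [← hcardB]
  zify at q2 q3 q4 q5 q6' q7 ⊢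
  have n1 : (0 : ℤ) ≤ mP := by positivity
  have n2 : (0 : ℤ) ≤ mC := by positivity
  have n3 : (0 : ℤ) ≤ D := by positivity
  have n4 : (0 : ℤ) ≤ D * mP := mul_nonneg n3 n1
  have p3 : ((D : ℤ) + 1) * (2 * L + NPC + mP) = (D + 1) * (2 * (D + 2) * (S + 1)) := by rw [q3]
  have p4 : ((D : ℤ) + 1) * (NPC + NC + mC) = (D + 1) * (2 * (D + 2) * C.card) := by rw [q4]
  have p2 : ((D : ℤ) + 3) * (L + r * (S + 1) + mP) ≤ (D + 3) * (2 * (D + 2) * (S + 1)) :=
    mul_le_mul_of_nonneg_left q2 (by linarith)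
  have p7 : ((D : ℤ) + 1) * (2 * (D + 2)) ≤ (D + 1) * (mP + mC) :=
    mul_le_mul_of_nonneg_left q7 (by linarith)
  nlinarith

end Chain

/-- the box as a finite set -/
noncomputable def bxf (d n : ℕ) : Finset (Fin d → ℤ) :=
  Fintype.piFinset fun _ : Fin d => Finset.Icc (1 : ℤ) n

theorem mem_bxf {n : ℕ} {p : Fin d → ℤ} : p ∈ bxf d n ↔ InBox n p := by
  unfold bxf InBox
  rw [Fintype.mem_piFinset]
  simp only [Finset.mem_Icc]

theorem card_bxf (d n : ℕ) : (bxf d n).card = n ^ d := by
  unfold bxf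
  rw [Fintype.card_piFinset, Finset.prod_const, Finset.card_univ, Fintype.card_fin, Int.card_Icc]
  congr 1
  omega

theorem mss_bxf {n : ℕ} (hn : 1 ≤ n) : 2 * d ≤ ∑ x ∈ bxf d n, mss (bxf d n) x := by
  classical
  unfold mss
  rw [← card_filter_prod (bxf d n) univ (fun (x : Fin d → ℤ) (δ : Fin d × Bool) =>
    nb x δ ∉ bxf d n)]
  have h1 : (univ : Finset (Fin d × Bool)).card = 2 * d := by
    rw [Finset.card_univ, Fintype.card_prod, Fintype.card_fin, Fintype.card_bool]
    ring
  rw [← h1]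
  apply Finset.card_le_card_of_injOn (fun δ : Fin d × Bool =>
    ((fun _ : Fin d => if δ.2 then (n : ℤ) else 1), δ))
  · rintro ⟨i, b⟩ _
    rw [Finset.mem_coe, mem_filter, mem_product]
    refine ⟨⟨?_, mem_univ _⟩, ?_⟩
    · rw [mem_bxf]
      intro j
      cases b
      · simp only [Bool.false_eq_true, if_false]
        omega
      · simp only [if_true]
        omega
    · rw [mem_bxf]
      intro h
      have := h i
      cases b
      · simp only [nb, Function.update_self, Bool.false_eq_true, if_false] at this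
        omega
      · simp only [nb, Function.update_self, if_true] at this
        omega
  · intro δ _ δ' _ h
    exact (Prod.mk.inj h).2

theorem bxf_closed {n : ℕ} (x : Fin d → ℤ) (e δ : Fin d × Bool) (he : nb x e ∈ bxf d n)
    (hne : δ.1 ≠ e.1) (hδ : nb x δ ∈ bxf d n) : nb (nb x e) δ ∈ bxf d n := by
  rw [mem_bxf] at *
  intro j
  by_cases hj : j = δ.1
  · subst hj
    have := hδ δ.1
    unfold nb at this ⊢
    rw [Function.update_self] at this ⊢
    rw [Function.update_of_ne hne]
    exact this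
  · have := he j
    unfold nb at this ⊢
    rw [Function.update_of_ne hj]
    exact this

/-- **The upper bound.** For every `d ≥ 2` and every `r`,
`((d+1) r - 3 d) M([n]^d, r) ≤ d (d-1) n^d`. -/
theorem upper_mid (hd : 2 ≤ d) (r n : ℕ) :
    (((d : ℤ) + 1) * r - 3 * d) * (maxPercTime (grid d n) r : ℤ) ≤ d * (d - 1) * (n : ℤ) ^ d := by
  classical
  obtain ⟨⟨A₀, hA, hT⟩, -⟩ := isGreatest_maxPercTime (G := grid d n) (r := r)
  rw [← hT]
  by_cases h0 : 1 ≤ percTime (grid d n) r A₀
  · obtain ⟨v, hv⟩ := Sn.exists_time hA h0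
    obtain ⟨u, u1, -, u3⟩ := Sn.exists_chain hA _ h0 v hv
    set T := percTime (grid d n) r A₀ with hTd
    have hn : 1 ≤ n := by
      have := (v ⟨0, by omega⟩).2
      omega
    have main := chain_ineq (w := fun k => co (u k)) (T := T) hd (B := bxf d n) h0
      (by
        intro j k hj1 hj2 hk1 hk2 h
        have e := co_injective h
        have e1 := u1 j hj1 hj2
        have e2 := u1 k hk1 hk2
        rw [e] at e1
        omega)
      (fun k _ _ => mem_bxf.2 (inBox_co _))
      (fun k hk1 hk2 => by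
        obtain ⟨δ, hδ⟩ := (adj_iff _ _).1 (u3 k hk1 hk2)
        exact ⟨δ, hδ.symm⟩)
      (fun x _ e δ he hne hδ => bxf_closed x e δ he hne hδ) r
      (by
        intro k hk1 hk2
        have h1 := le_card_earlier hA (u k) (by rw [u1 k hk1 hk2]; exact hk1)
        have h2 := ncard_nbrs (u k) (fun p => ∃ x, co x = p ∧
          itime (grid d n) r A₀ x < itime (grid d n) r A₀ (u k))
        have h3 : {x | (grid d n).Adj (u k) x ∧
            itime (grid d n) r A₀ x < itime (grid d n) r A₀ (u k)} =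
            (grid d n).neighborSet (u k) ∩ {x | ∃ y, co y = co x ∧
              itime (grid d n) r A₀ y < itime (grid d n) r A₀ (u k)} := by
          ext x
          simp only [Set.mem_ofPred_eq, Set.mem_inter_iff, SimpleGraph.mem_neighborSet]
          constructor
          · rintro ⟨g1, g2⟩
            exact ⟨g1, x, rfl, g2⟩
          · rintro ⟨g1, y, g2, g3⟩
            rw [co_injective g2] at g3
            exact ⟨g1, g3⟩
        rw [h3, h2] at h1
        have h4 : {δ : Fin d × Bool | InBox n (nb (co (u k)) δ) ∧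
            ∃ x, co x = nb (co (u k)) δ ∧
              itime (grid d n) r A₀ x < itime (grid d n) r A₀ (u k)}.ncard =
            (univ.filter fun δ : Fin d × Bool => InBox n (nb (co (u k)) δ) ∧
            ∃ x, co x = nb (co (u k)) δ ∧
              itime (grid d n) r A₀ x < itime (grid d n) r A₀ (u k)).card := by
          rw [← Set.ncard_coe_finset]
          congr 1
          ext δ
          simp
        rw [h4] at h1
        have h5 : ltr (fun k => co (u k)) T k =
            dgr (((Icc 1 T).filter fun j => k < j).image fun k => co (u k)) (co (u k)) := by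
          rw [dgr_image (T := T) (by
            intro j k hj1 hj2 hk1 hk2 h
            have e := co_injective h
            have e1 := u1 j hj1 hj2
            have e2 := u1 k hk1 hk2
            rw [e] at e1
            omega) (Finset.filter_subset _ _), Finset.filter_filter]
          rfl
        rw [h5]
        unfold dgr
        refine le_trans (Nat.add_le_add_right h1 _) ?_
        rw [← Finset.card_union_of_disjoint]
        · apply Finset.card_le_card
          intro δ hδ
          simp only [mem_union, mem_filter, mem_univ, true_and, mem_image] at hδ ⊢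
          rcases hδ with hδ | ⟨j, hj, hδ⟩
          · exact mem_bxf.2 hδ.1
          · rw [← hδ]
            exact mem_bxf.2 (inBox_co _)
        · rw [Finset.disjoint_left]
          intro δ h6 h7
          simp only [mem_filter, mem_univ, true_and, mem_image, mem_Icc] at h6 h7
          obtain ⟨-, x, h8, h9⟩ := h6
          obtain ⟨j, ⟨⟨j1, j2⟩, j3⟩, h10⟩ := h7
          rw [← h10] at h8
          rw [co_injective h8, u1 j j1 j2, u1 k hk1 hk2] at h9
          omega)
      (mss_bxf hn)
    rw [card_bxf] at main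
    push_cast at main
    exact main
  · have h1 : percTime (grid d n) r A₀ = 0 := by omega
    rw [h1]
    have h2 : (0 : ℤ) ≤ (d : ℤ) * (d - 1) * (n : ℤ) ^ d := by
      have h3 : (0 : ℤ) ≤ (d : ℤ) - 1 := by omega
      positivity
    simpa using h2

end Pool.Agent.Lib.MP_1a3405_co.Mid
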