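import Mathlib
import Pool.Agent.Lib.MP_1a3405_co.Sn.Stack

/-!
The nested families of induced paths of `Sn`, with the position of the end points: some coordinate
`t ≠ 0` is `1` at all of them, and the two ends of a path are at distance at least `3` in
coordinate `0`.  The path of density `1/2` that helper files of the middle range use.
-/

namespace Pool.Agent.Lib.MP_1a3405_co.Mid

open Pool.Agent.Lib.MP_1a3405_co.Sn

/-- `Fam` with the position of the end points -/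
def FamT (D C m N : ℕ) : Prop :=
  ∃ (a b : ℕ → Fin (D + 1) → ℤ) (A B : ℕ → ℕ → List (Fin (D + 1) → ℤ)),
    (∀ i j, i < C → j < C → IP adjZ (a i) (b j) (A i j) ∧ IP adjZ (a i) (b j) (B i j) ∧
      N ≤ (A i j).length ∧ N ≤ (B i j).length ∧
      (∀ p ∈ A i j, (∀ t, 1 ≤ p t ∧ p t ≤ m) ∧ p 0 ≤ b j 0) ∧
      (∀ p ∈ B i j, (∀ t, 1 ≤ p t ∧ p t ≤ m) ∧ p 0 ≤ b j 0)) ∧
    (∀ i j i' j', i < C → j < C → i' < C → j' < C → ∀ p ∈ A i j, p ∈ B i' j' →
      (p = a i ∧ i = i') ∨ (p = b j ∧ j = j')) ∧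
    (∃ t : Fin (D + 1), t ≠ 0 ∧ ∀ i, a i t = 1 ∧ b i t = 1) ∧
    (∀ i j, a i 0 + 3 ≤ b j 0)

/-- **The base family.** -/
theorem famT_base (C m l H q N W M : ℕ) (hl : 4 ≤ l) (hH : 3 ≤ H) (hq : 1 ≤ q)
    (hN : 1 ≤ N) (hW : 2 * H + 3 ≤ W) (hM : 1 ≤ M) (h1 : 2 * C + 2 + l + 4 * q ≤ m)
    (h2 : N * (4 * q + 4) + 2 * H ≤ m) (h3 : M * W + 3 ≤ m) :
    FamT 2 C m (M * N * q * ((2 * H - 3) * (2 * l + 4))) := by
  have hV : 4 ≤ (M : ℤ) * W := by
    have h1 : (1 : ℤ) * W ≤ (M : ℤ) * W := mul_le_mul_of_nonneg_right (by omega) (by omega)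
    omega
  have h2' : (N : ℤ) * (4 * q + 4) + 2 * H ≤ m := by exact_mod_cast h2
  have h3' : (M : ℤ) * W + 3 ≤ m := by exact_mod_cast h3
  set o : ℤ := l + 4 * q with ho
  refine ⟨fun i => emb o ⟨((4 + 2 * i : ℕ) : ℤ), 1, 3⟩,
    fun j => emb o ⟨((4 + 2 * j : ℕ) : ℤ), 1, M * W + 3⟩,
    fun i j => (tA l H q N (2 * H + 2) W M (4 + 2 * i) (4 + 2 * j)).map (emb o),
    fun i j => (tBB l (H - 1) q N (2 * H + 2 - 2) W M (4 + 2 * i) (4 + 2 * j)).map (emb o),
    ?_, ?_, ⟨1, by decide, fun i => ⟨rfl, rfl⟩⟩, fun i j => ?_⟩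
  rotate_left 2
  · change (3 : ℤ) + 3 ≤ M * W + 3
    omega
  · intro i j hi hj
    have key : ∀ p : P3, (1 ≤ p.v ∧ p.v ≤ M * W + 3 ∧ 1 ≤ p.u ∧ p.u ≤ m) ∧
        1 - l - 4 * q ≤ p.x ∧ p.x ≤ 2 * C + 2 →
        (∀ t, 1 ≤ emb o p t ∧ emb o p t ≤ m) ∧
          emb o p 0 ≤ emb o ⟨((4 + 2 * j : ℕ) : ℤ), 1, M * W + 3⟩ 0 := by
      rintro p ⟨⟨a1, a2, a3, a4⟩, a5, a6⟩
      refine ⟨?_, ?_⟩
      · intro t
        fin_cases t
        · change 1 ≤ p.v ∧ p.v ≤ m
          omega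
        · change 1 ≤ p.u ∧ p.u ≤ m
          omega
        · change 1 ≤ p.x + o ∧ p.x + o ≤ m
          omega
      · change p.v ≤ M * W + 3
        exact a2
    refine ⟨?_, ?_, ?_, ?_, ?_, ?_⟩
    · exact (ip_tA l H q N (2 * H + 2) W M (4 + 2 * i) (4 + 2 * j) hl (by omega) hq hN rfl
        (by omega) hM (by omega) (by omega)).map (emb o) (emb_injective o) (adj_emb o)
    · exact (ip_tBB l (H - 1) q N (2 * H + 2 - 2) W M (4 + 2 * i) (4 + 2 * j) hl (by omega) hq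
        hN (by omega) (by omega) hM (by omega) (by omega)).map (emb o) (emb_injective o) (adj_emb o)
    · rw [List.length_map]
      unfold tA
      rw [List.length_append, List.length_append]
      have h4 := le_length_tF3 l H q N (2 * H + 2) W M
      have h5 : M * N * q * ((2 * H - 3) * (2 * l + 4)) ≤ M * N * q * ((2 * H - 1) * (2 * l + 4)) :=
        Nat.mul_le_mul_left _ (Nat.mul_le_mul_right _ (by omega))
      omega
    · rw [List.length_map]
      unfold tBB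
      rw [List.length_append, List.length_append, List.length_map]
      have h4 := le_length_tF3 l (H - 1) q N (2 * H + 2 - 2) W M
      have h5 : M * N * q * ((2 * H - 3) * (2 * l + 4)) ≤
          M * N * q * ((2 * (H - 1) - 1) * (2 * l + 4)) :=
        Nat.mul_le_mul_left _ (Nat.mul_le_mul_right _ (by omega))
      omega
    · intro p0 hp0
      obtain ⟨p, hp, rfl⟩ := List.mem_map.1 hp0
      apply key
      unfold tA at hp
      rw [List.mem_append, List.mem_append] at hp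
      rcases hp with hp | hp | hp
      · have a := mem_tAs (by omega) hp
        push_cast at a
        refine ⟨⟨?_, ?_, ?_, ?_⟩, ?_, ?_⟩ <;> omega
      · have a := pF3_facts (by omega) (by omega) (by omega) (by omega)
          (by omega) (by omega) (mem_tF3 (by omega) (by omega) hp)
        refine ⟨⟨?_, ?_, ?_, ?_⟩, ?_, ?_⟩ <;> omega
      · have a := mem_tAe (by omega) hp
        push_cast at a
        refine ⟨⟨?_, ?_, ?_, ?_⟩, ?_, ?_⟩ <;> omega
    · intro p0 hp0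
      obtain ⟨p, hp, rfl⟩ := List.mem_map.1 hp0
      apply key
      unfold tBB at hp
      rw [List.mem_append, List.mem_append] at hp
      rcases hp with hp | hp | hp
      · have a := mem_tBs (by omega) hp
        push_cast at a
        refine ⟨⟨?_, ?_, ?_, ?_⟩, ?_, ?_⟩ <;> omega
      · obtain ⟨z, hz, rfl⟩ := List.mem_map.1 hp
        have a := pF3_facts (by omega) (by omega) (by omega) (by omega)
          (by omega) (by omega) (mem_tF3 (by omega) (by omega) hz)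
        have e4 : ((H - 1 : ℕ) : ℤ) = (H : ℤ) - 1 := by omega
        rw [e4] at a
        simp only [sh]
        refine ⟨⟨?_, ?_, ?_, ?_⟩, ?_, ?_⟩ <;> omega
      · have a := mem_tBe (by omega) hp
        push_cast at a
        refine ⟨⟨?_, ?_, ?_, ?_⟩, ?_, ?_⟩ <;> omega
  · intro i j i' j' hi hj hi' hj' p0 hp0 hp0'
    obtain ⟨p, hp, rfl⟩ := List.mem_map.1 hp0
    obtain ⟨p', hp', he⟩ := List.mem_map.1 hp0'
    have := emb_injective o he
    subst this
    rcases disj_AB l H q N (2 * H + 2) W M _ _ _ _ hl hH hq hN rfl (by omega) hM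
      (by omega) (by omega) (by omega) (by omega) p' hp hp' with ⟨h4, h5⟩ | ⟨h4, h5⟩
    · left
      refine ⟨congrArg (emb o) h4, by omega⟩
    · right
      refine ⟨congrArg (emb o) h4, by omega⟩

/-- **The stacking step.** -/
theorem famT_stack {D C m N M : ℕ} (h : FamT D (C + 4) m N) (hM : 4 ≤ M) (hM2 : M % 2 = 0)
    (hMm : M ≤ m) : FamT (D + 1) C m (M * N) := by
  obtain ⟨a, b, A, B, h1, h2, ⟨t, ht0, ht⟩, -⟩ := h
  have h2' : ∀ i j i' j', i < C + 4 → j < C + 4 → i' < C + 4 → j' < C + 4 →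
      ∀ p ∈ B i j, p ∈ A i' j' → (p = a i ∧ i = i') ∨ (p = b j ∧ j = j') := by
    intro i j i' j' hi hj hi' hj' p hp hp'
    rcases h2 i' j' i j hi' hj' hi hj p hp' hp with ⟨h, h'⟩ | ⟨h, h'⟩
    · left; exact ⟨by rw [h, h'], h'.symm⟩
    · right; exact ⟨by rw [h, h'], h'.symm⟩
  refine ⟨fun i => cz 1 (a (4 + i)), fun j => cz (M : ℤ) (a (4 + j)),
    fun i j => stk (slc A B 0 i j M) M, fun i j => stk (slc B A 2 i j M) M, ?_, ?_,
    ⟨t.succ, Fin.succ_ne_zero t, fun i => ⟨?_, ?_⟩⟩, fun i j => ?_⟩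
  rotate_left 2
  · change cz 1 (a (4 + i)) t.succ = 1
    rw [cz_succ]
    exact (ht _).1
  · change cz (M : ℤ) (a (4 + i)) t.succ = 1
    rw [cz_succ]
    exact (ht _).1
  · change cz 1 (a (4 + i)) 0 + 3 ≤ cz (M : ℤ) (a (4 + j)) 0
    rw [cz_zero, cz_zero]
    omega
  · intro i j hi hj
    have key : ∀ A' B' : ℕ → ℕ → List (Fin (D + 1) → ℤ), ∀ c, c ≤ 2 →
        (∀ i j, i < C + 4 → j < C + 4 → N ≤ (A' i j).length ∧ N ≤ (B' i j).length ∧
          (∀ p ∈ A' i j, ∀ t, 1 ≤ p t ∧ p t ≤ m) ∧ (∀ p ∈ B' i j, ∀ t, 1 ≤ p t ∧ p t ≤ m)) →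
        M * N ≤ (stk (slc A' B' c i j M) M).length ∧
        (∀ p ∈ stk (slc A' B' c i j M) M, (∀ t, 1 ≤ p t ∧ p t ≤ m) ∧
          p 0 ≤ cz (M : ℤ) (a (4 + j)) 0) := by
      intro A' B' c hc hh
      refine ⟨?_, ?_⟩
      · apply length_stk
        intro z hz1 hz2
        unfold slc
        split_ifs with hz
        · exact (hh _ _ (al_lt hi hj hc) (be_lt hc)).1
        · rw [List.length_reverse]
          exact (hh _ _ (al_lt hi hj hc) (be_lt hc)).2.1
      · intro p hp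
        obtain ⟨z, hz1, hz2, p', hp', rfl⟩ := mem_stk hp
        refine ⟨?_, ?_⟩
        · intro t
          refine Fin.cases ?_ (fun t => ?_) t
          · rw [cz_zero]
            omega
          · rw [cz_succ]
            unfold slc at hp'
            split_ifs at hp' with hz
            · exact (hh _ _ (al_lt hi hj hc) (be_lt hc)).2.2.1 p' hp' t
            · rw [List.mem_reverse] at hp'
              exact (hh _ _ (al_lt hi hj hc) (be_lt hc)).2.2.2 p' hp' t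
        · rw [cz_zero, cz_zero]
          omega
    have kA := key A B 0 (by omega) fun i j hi hj => by
      obtain ⟨-, -, g3, g4, g5, g6⟩ := h1 i j hi hj
      exact ⟨g3, g4, fun p hp => (g5 p hp).1, fun p hp => (g6 p hp).1⟩
    have kB := key B A 2 (by omega) fun i j hi hj => by
      obtain ⟨-, -, g3, g4, g5, g6⟩ := h1 i j hi hj
      exact ⟨g4, g3, fun p hp => (g6 p hp).1, fun p hp => (g5 p hp).1⟩
    exact ⟨ip_slc (fun i j hi hj => (h1 i j hi hj).1) (fun i j hi hj => (h1 i j hi hj).2.1) h2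
        (by omega) hi hj hM hM2,
      ip_slc (fun i j hi hj => (h1 i j hi hj).2.1) (fun i j hi hj => (h1 i j hi hj).1) h2'
        (by omega) hi hj hM hM2, kA.1, kB.1, kA.2, kB.2⟩
  · intro i j i' j' hi hj hi' hj' p hp hp'
    simp only at hp hp' ⊢
    obtain ⟨z, hz1, hz2, q, hq, rfl⟩ := mem_stk hp
    obtain ⟨z', hz1', hz2', q', hq', he⟩ := mem_stk hp'
    obtain ⟨e1, e2⟩ := cz_inj he
    have e3 : z = z' := by exact_mod_cast e1
    subst e3
    subst e2
    simp only [slc] at hq hq'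
    have hcol : ∀ x y : ℕ, be 0 x ≠ be 2 y := by
      intro x y
      unfold be
      omega
    have hal : al 0 i j M z = al 2 i' j' M z → (z = 1 ∧ i = i') ∨ (z = M ∧ j = j') := by
      intro h
      unfold al at h
      split_ifs at h with g1 g2
      · left; exact ⟨g1, by omega⟩
      · right; exact ⟨g2, by omega⟩
      · omega
    have fin : q = a (al 0 i j M z) → al 0 i j M z = al 2 i' j' M z →
        (cz (z : ℤ) q = cz 1 (a (4 + i)) ∧ i = i') ∨
          (cz (z : ℤ) q = cz (M : ℤ) (a (4 + j)) ∧ j = j') := by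
      intro hq1 hq2
      rcases hal hq2 with ⟨rfl, hii⟩ | ⟨rfl, hjj⟩
      · left
        refine ⟨?_, hii⟩
        rw [hq1]
        simp [al]
      · right
        refine ⟨?_, hjj⟩
        rw [hq1]
        unfold al
        rw [if_neg (by omega), if_pos rfl]
    by_cases hz : z % 2 = 1
    · rw [if_pos hz] at hq hq'
      rcases h2 _ _ _ _ (al_lt hi hj (by omega)) (be_lt (by omega)) (al_lt hi' hj' (by omega))
        (be_lt (by omega)) q hq hq' with ⟨h, h'⟩ | ⟨-, h⟩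
      · exact fin h h'
      · exact absurd h (hcol _ _)
    · rw [if_neg hz, List.mem_reverse] at hq hq'
      rcases h2' _ _ _ _ (al_lt hi hj (by omega)) (be_lt (by omega)) (al_lt hi' hj' (by omega))
        (be_lt (by omega)) q hq hq' with ⟨h, h'⟩ | ⟨-, h⟩
      · exact fin h h'
      · exact absurd h (hcol _ _)

theorem famT_iter {m N M : ℕ} (e : ℕ) (hM : 4 ≤ M) (hM2 : M % 2 = 0) (hMm : M ≤ m) :
    ∀ C, FamT 2 (C + 4 * e) m N → FamT (e + 2) C m (M ^ e * N) := by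
  induction e with
  | zero =>
    intro C h
    simpa using h
  | succ e ih =>
    intro C h
    have h1 := ih (C + 4) (by
      have e1 : C + 4 + 4 * e = C + 4 * (e + 1) := by ring
      rw [e1]
      exact h)
    have h2 := famT_stack h1 hM hM2 hMm
    have e2 : M * (M ^ e * N) = M ^ (e + 1) * N := by ring
    rw [e2] at h2
    exact h2

/-- a long induced path with good end points in the box `[1, m]^(e + 3)` -/
def GoodPath (e m N : ℕ) : Prop :=
  ∃ (a b : Fin (e + 3) → ℤ) (A : List (Fin (e + 3) → ℤ)) (t : Fin (e + 3)),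
    IP adjZ a b A ∧ (∀ p ∈ A, ∀ s, 1 ≤ p s ∧ p s ≤ m) ∧ t ≠ 0 ∧ a t = 1 ∧ b t = 1 ∧
      a 0 + 3 ≤ b 0 ∧ N ≤ A.length

theorem good_nat (e m l H q N W M M' : ℕ) (hl : 4 ≤ l) (hH : 3 ≤ H) (hq : 1 ≤ q)
    (hN : 1 ≤ N) (hW : 2 * H + 3 ≤ W) (hM : 1 ≤ M) (h1 : 2 * (1 + 4 * e) + 2 + l + 4 * q ≤ m)
    (h2 : N * (4 * q + 4) + 2 * H ≤ m) (h3 : M * W + 3 ≤ m) (hM' : 4 ≤ M') (hM2 : M' % 2 = 0)
    (hMm : M' ≤ m) :
    GoodPath e m (M' ^ e * (M * N * q * ((2 * H - 3) * (2 * l + 4)))) := by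
  have h := famT_iter e hM' hM2 hMm 1
    (famT_base (1 + 4 * e) m l H q N W M hl hH hq hN hW hM h1 h2 h3)
  obtain ⟨a, b, A, B, hA, -, ⟨t, ht0, ht⟩, h0⟩ := h
  obtain ⟨g1, -, g3, -, g5, -⟩ := hA 0 0 (by omega) (by omega)
  exact ⟨a 0, b 0, A 0 0, t, g1, fun p hp s => (g5 p hp).1 s, ht0, (ht 0).1, (ht 0).2, h0 0 0, g3⟩

private theorem mul_lb {A B x y a b : ℝ} (hA : x * (1 - a) ≤ A) (hB : y * (1 - b) ≤ B) (hx : 0 ≤ x)
    (hy : 0 ≤ y) (ha : 0 ≤ a) (hb : 0 ≤ b) (ha1 : a ≤ 1) (hb1 : b ≤ 1) :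
    (x * y) * (1 - (a + b)) ≤ A * B := by
  have h1 : 0 ≤ x * (1 - a) := mul_nonneg hx (by linarith)
  have h2 : 0 ≤ y * (1 - b) := mul_nonneg hy (by linarith)
  have h3 : x * (1 - a) * (y * (1 - b)) ≤ A * B := mul_le_mul hA hB h2 (h1.trans hA)
  have h4 : x * (1 - a) * (y * (1 - b)) = (x * y) * (1 - (a + b)) + x * y * (a * b) := by ring
  have h5 : 0 ≤ x * y * (a * b) := by positivity
  linarith

theorem good_sqrt (e m : ℕ) (hbig : 36 + 11 * (e : ℝ) < Real.sqrt ((m : ℝ) + 2)) :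
    ∃ L : ℕ, GoodPath e m L ∧
      ((m : ℝ) + 2) ^ (3 + e) / 2 -
        (18 + 11 / 2 * e) * ((m : ℝ) + 2) ^ (2 + e) * Real.sqrt ((m : ℝ) + 2) ≤ L := by
  set t : ℝ := Real.sqrt ((m : ℝ) + 2) with ht
  have ht0 : 0 ≤ t := Real.sqrt_nonneg _
  have htt : t * t = (m : ℝ) + 2 := Real.mul_self_sqrt (by positivity)
  have he0 : (0 : ℝ) ≤ e := by positivity
  have hn0 : (0 : ℝ) ≤ (m : ℝ) + 2 := by positivity
  have ht36 : (36 : ℝ) < t := by linarith
  have htpos : 0 < t := by linarith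
  have hn : 100 < (m : ℝ) + 2 := by nlinarith
  set s := Nat.sqrt m with hs
  have hs1 : s * s ≤ m := Nat.sqrt_le m
  have hs2 : m < (s + 1) * (s + 1) := Nat.lt_succ_sqrt m
  have hs1' : (s : ℝ) * s ≤ m := by exact_mod_cast hs1
  have hs2' : (m : ℝ) < (s + 1) * (s + 1) := by exact_mod_cast hs2
  have hs0 : (0 : ℝ) ≤ s := by positivity
  have hst : (s : ℝ) ≤ t := by
    by_contra hc
    push Not at hc
    nlinarith
  have hst2 : t - 2 ≤ s := by
    by_contra hc
    push Not at hc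
    have h5 : ((s : ℝ) + 1) * (s + 1) ≤ (t - 1) * (t - 1) := by
      apply mul_self_le_mul_self <;> linarith
    nlinarith
  have hs34 : (34 : ℝ) < s := by linarith
  have hs34' : 34 < s := by exact_mod_cast hs34
  have hse : (34 : ℝ) + 11 * e < s := by linarith
  have hse' : 34 + 11 * e < s := by exact_mod_cast hse
  -- parameters
  set W := 2 * s + 3 with hW
  set M := (m - 3) / W with hM
  set N := (m - 2 * s) / (4 * s + 4) with hN
  set l := m - 2 * (1 + 4 * e) - 2 - 4 * s with hl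
  set M' := m - m % 2 with hM'
  have hms : 34 * s + 11 * e * s ≤ m := by nlinarith
  have hes : 34 * e ≤ e * s := by nlinarith
  have hms2 : 34 * s + 11 * (e * s) ≤ m := by nlinarith
  have hM1 : W * M + (m - 3) % W = m - 3 := Nat.div_add_mod _ _
  have hM2 : (m - 3) % W < W := Nat.mod_lt _ (by omega)
  have hN1 : (4 * s + 4) * N + (m - 2 * s) % (4 * s + 4) = m - 2 * s := Nat.div_add_mod _ _
  have hN2 : (m - 2 * s) % (4 * s + 4) < 4 * s + 4 := Nat.mod_lt _ (by omega)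
  have hM3 : 1 ≤ M := by
    rw [hM, Nat.one_le_div_iff (by omega)]
    omega
  have hN3 : 1 ≤ N := by
    rw [hN, Nat.one_le_div_iff (by omega)]
    omega
  have hmain := good_nat e m l s s N W M M' (by omega) (by omega) (by omega) hN3 (by omega) hM3
    (by omega) (by rw [mul_comm]; omega) (by rw [mul_comm]; omega) (by omega) (by omega)
    (by omega)
  -- the factors
  set u : ℝ := 1 / t with hu
  have hu0 : 0 ≤ u := by positivity
  have hut : u * t = 1 := by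
    rw [hu]
    field_simp
  have hue : (36 + 11 * (e : ℝ)) * u ≤ 1 := by
    rw [hu, mul_one_div, div_le_one htpos]
    linarith
  have hnu : ((m : ℝ) + 2) * u = t := by
    rw [← htt, mul_assoc, mul_comm t u, hut, mul_one]
  have F1 : ((m : ℝ) + 2) * (1 - 9 * u) ≤ (M : ℝ) * (2 * s + 3) := by
    have h1 : (m : ℤ) - 3 - (2 * s + 3) + 1 ≤ (M : ℤ) * (2 * s + 3) := by
      have e1 : (W : ℤ) * M + ((m - 3) % W : ℕ) = ((m - 3 : ℕ) : ℤ) := by exact_mod_cast hM1
      have e2 : ((m - 3 : ℕ) : ℤ) = (m : ℤ) - 3 := by omega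
      have e3 : (((m - 3) % W : ℕ) : ℤ) < W := by exact_mod_cast hM2
      have e4 : (W : ℤ) = 2 * s + 3 := by
        rw [hW]
        push_cast
        ring
      rw [e4] at e1 e3
      rw [e2] at e1
      linarith
    have h2 : (m : ℝ) - 3 - (2 * s + 3) + 1 ≤ (M : ℝ) * (2 * s + 3) := by exact_mod_cast h1
    have h3 : ((m : ℝ) + 2) * (1 - 9 * u) = (m : ℝ) + 2 - 9 * t := by
      rw [← hnu]
      ring
    rw [h3]
    linarith
  have F2 : ((m : ℝ) + 2) * (1 - 11 * u) ≤ (N : ℝ) * (4 * s + 4) := by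
    have h1 : (m : ℤ) - 2 * s - (4 * s + 4) + 1 ≤ (N : ℤ) * (4 * s + 4) := by
      have e1 : (4 * (s : ℤ) + 4) * N + ((m - 2 * s) % (4 * s + 4) : ℕ) =
          ((m - 2 * s : ℕ) : ℤ) := by exact_mod_cast hN1
      have e2 : ((m - 2 * s : ℕ) : ℤ) = (m : ℤ) - 2 * s := by omega
      have e3 : (((m - 2 * s) % (4 * s + 4) : ℕ) : ℤ) < 4 * s + 4 := by exact_mod_cast hN2
      rw [e2] at e1
      linarith
    have h2 : (m : ℝ) - 2 * s - (4 * s + 4) + 1 ≤ (N : ℝ) * (4 * s + 4) := by exact_mod_cast h1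
    have h3 : ((m : ℝ) + 2) * (1 - 11 * u) = (m : ℝ) + 2 - 11 * t := by
      rw [← hnu]
      ring
    rw [h3]
    linarith
  have F3 : (1 / 4 : ℝ) * (1 - 8 * u) ≤ (s : ℝ) * (2 * s - 3) / ((2 * s + 3) * (4 * s + 4)) := by
    have h1 : (1 - 8 * u) ≤ 1 - 4 / s := by
      have h2 : 4 / (s : ℝ) ≤ 8 * u := by
        rw [hu, mul_one_div, div_le_div_iff₀ (by linarith) htpos]
        linarith
      linarith
    have h3 : (1 / 4 : ℝ) * (1 - 4 / s) ≤
        (s : ℝ) * (2 * s - 3) / ((2 * s + 3) * (4 * s + 4)) := by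
      rw [le_div_iff₀ (by positivity)]
      have h4 : (1 / 4 : ℝ) * (1 - 4 / s) * ((2 * s + 3) * (4 * s + 4)) =
          ((s - 4) * (2 * s + 3) * (4 * s + 4)) / (4 * s) := by
        field_simp
      rw [h4, div_le_iff₀ (by linarith)]
      nlinarith
    linarith
  have F4 : (2 * ((m : ℝ) + 2)) * (1 - (8 + 8 * e) * u) ≤ 2 * (l : ℝ) + 4 := by
    have h1 : (l : ℤ) = m - 2 * (1 + 4 * e) - 2 - 4 * s := by omega
    have h2 : (l : ℝ) = m - 2 * (1 + 4 * e) - 2 - 4 * s := by exact_mod_cast h1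
    have h3 : (2 * ((m : ℝ) + 2)) * (1 - (8 + 8 * e) * u) =
        2 * ((m : ℝ) + 2) - 2 * (8 + 8 * e) * t := by
      rw [← hnu]
      ring
    rw [h3, h2]
    nlinarith
  have F5 : ((m : ℝ) + 2) * (1 - 3 * u) ≤ (M' : ℝ) := by
    have h1 : (m : ℤ) - 1 ≤ M' := by omega
    have h2 : (m : ℝ) - 1 ≤ M' := by exact_mod_cast h1
    have h3 : ((m : ℝ) + 2) * (1 - 3 * u) = (m : ℝ) + 2 - 3 * t := by
      rw [← hnu]
      ring
    rw [h3]
    linarith
  have heu : 0 ≤ (e : ℝ) * u := by positivity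
  have F6 : ((m : ℝ) + 2) ^ e * (1 - 3 * e * u) ≤ (M' : ℝ) ^ e := by
    have h1 : (((m : ℝ) + 2) * (1 - 3 * u)) ^ e ≤ (M' : ℝ) ^ e := by
      apply pow_le_pow_left₀ _ F5
      apply mul_nonneg hn0
      linarith
    rw [mul_pow] at h1
    have h2 : 1 + (e : ℝ) * (-(3 * u)) ≤ (1 + -(3 * u)) ^ e :=
      one_add_mul_le_pow (by linarith) e
    have h3 : ((m : ℝ) + 2) ^ e * (1 - 3 * e * u) ≤ ((m : ℝ) + 2) ^ e * (1 - 3 * u) ^ e := by
      apply mul_le_mul_of_nonneg_left _ (by positivity)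
      have e1 : (1 : ℝ) - 3 * e * u = 1 + (e : ℝ) * (-(3 * u)) := by ring
      have e2 : (1 : ℝ) - 3 * u = 1 + -(3 * u) := by ring
      rw [e1, e2]
      exact h2
    exact h3.trans h1
  have G1 := mul_lb F1 F2 hn0 hn0 (by linarith) (by linarith) (by linarith) (by linarith)
  have G2 := mul_lb G1 F3 (by positivity) (by norm_num) (by linarith) (by linarith)
    (by linarith) (by linarith)
  have G3 := mul_lb G2 F4 (by positivity) (by positivity) (by linarith) (by nlinarith)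
    (by linarith) (by nlinarith)
  have G4 := mul_lb F6 G3 (by positivity) (by positivity) (by nlinarith) (by nlinarith)
    (by nlinarith) (by nlinarith)
  have hcast : (M' : ℝ) ^ e * ((M : ℝ) * (2 * s + 3) * ((N : ℝ) * (4 * s + 4)) *
      ((s : ℝ) * (2 * s - 3) / ((2 * s + 3) * (4 * s + 4))) * (2 * (l : ℝ) + 4)) =
      ((M' ^ e * (M * N * s * ((2 * s - 3) * (2 * l + 4))) : ℕ) : ℝ) := by
    have e1 : ((2 * s - 3 : ℕ) : ℝ) = 2 * (s : ℝ) - 3 := by
      have : ((2 * s - 3 : ℕ) : ℤ) = 2 * (s : ℤ) - 3 := by omega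
      exact_mod_cast this
    push_cast
    rw [e1]
    field_simp
  rw [hcast] at G4
  refine ⟨_, hmain, le_trans (le_of_eq ?_) G4⟩
  have e7 : ((m : ℝ) + 2) ^ (2 + e) * t = ((m : ℝ) + 2) ^ (3 + e) * u := by
    rw [← hnu]
    ring
  rw [mul_assoc, e7]
  ring

/-- **The long path with good end points.** -/
theorem fam_path (e m : ℕ) (hm : (40 + 11 * e) ^ 2 ≤ m) :
    ∃ (a b : Fin (e + 3) → ℤ) (A : List (Fin (e + 3) → ℤ)) (t : Fin (e + 3)),
      IP adjZ a b A ∧ (∀ p ∈ A, ∀ s, 1 ≤ p s ∧ p s ≤ m) ∧ t ≠ 0 ∧ a t = 1 ∧ b t = 1 ∧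
      a 0 + 3 ≤ b 0 ∧
      (m : ℝ) ^ (e + 3) / 2 - (18 + 11 / 2 * e) * (m : ℝ) ^ (e + 2) * Real.sqrt m ≤
        A.length := by
  have he0 : (0 : ℝ) ≤ e := by positivity
  have hm0 : (0 : ℝ) ≤ m := by positivity
  have hmr : (40 + 11 * (e : ℝ)) ^ 2 ≤ m := by exact_mod_cast hm
  have hs : 40 + 11 * (e : ℝ) ≤ Real.sqrt m := Real.le_sqrt_of_sq_le hmr
  have hs2 : Real.sqrt m ≤ Real.sqrt ((m : ℝ) + 2) := Real.sqrt_le_sqrt (by linarith)
  obtain ⟨L, ⟨a, b, A, t, h1, h2, h3, h4, h5, h6, h7⟩, hL⟩ := good_sqrt e m (by linarith)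
  refine ⟨a, b, A, t, h1, h2, h3, h4, h5, h6, ?_⟩
  have h7' : (L : ℝ) ≤ A.length := by exact_mod_cast h7
  refine le_trans ?_ (hL.trans h7')
  have key : ∀ x : ℝ, 0 ≤ x → x ^ (3 + e) / 2 - (18 + 11 / 2 * e) * x ^ (2 + e) * Real.sqrt x =
      x ^ (2 + e) * (Real.sqrt x * (Real.sqrt x / 2 - (18 + 11 / 2 * e))) := by
    intro x hx
    have e1 : x ^ (3 + e) = x ^ (2 + e) * (Real.sqrt x * Real.sqrt x) := by
      rw [Real.mul_self_sqrt hx]
      ring
    rw [e1]
    ring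
  have e3 : e + 3 = 3 + e := by ring
  have e2 : e + 2 = 2 + e := by ring
  rw [e3, e2, key _ hm0, key _ (by positivity)]
  apply mul_le_mul
  · exact pow_le_pow_left₀ hm0 (by linarith) _
  · apply mul_le_mul hs2 (by linarith) (by linarith) (Real.sqrt_nonneg _)
  · apply mul_nonneg (Real.sqrt_nonneg _)
    linarith
  · positivity

end Pool.Agent.Lib.MP_1a3405_co.Mid
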