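import Mathlib

/-!
The numerical estimate of the middle range.
-/

namespace Pool.Agent.Lib.MP_1a3405_co.Mid

theorem bern (N : ℝ) (hN : 7 ≤ N) (E : ℕ) :
    N ^ (E + 1) - 7 * (E + 1) * N ^ E ≤ (N - 7) ^ (E + 1) := by
  induction E with
  | zero => simp
  | succ E ih =>
    have h1 : (N - 7) * (N ^ (E + 1) - 7 * (E + 1) * N ^ E) ≤ (N - 7) * (N - 7) ^ (E + 1) :=
      mul_le_mul_of_nonneg_left ih (by linarith)
    have h2 : (0 : ℝ) ≤ 49 * (E + 1) * N ^ E := by positivity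
    push_cast
    calc N ^ (E + 1 + 1) - 7 * ((E : ℝ) + 1 + 1) * N ^ (E + 1)
        ≤ (N - 7) * (N ^ (E + 1) - 7 * (E + 1) * N ^ E) := by
          rw [pow_succ N (E + 1), pow_succ N E]
          nlinarith
      _ ≤ (N - 7) * (N - 7) ^ (E + 1) := h1
      _ = (N - 7) ^ (E + 1 + 1) := by ring

theorem num {c K : ℝ} (hc0 : 0 ≤ c) (hc1 : c ≤ 1) (hK : 0 ≤ K) (q j n : ℕ) (hn : 11 ≤ n) {x : ℝ}
    (hx0 : 0 ≤ x)
    (hx : c * ((n : ℝ) - 7) ^ (q + 1) - K * ((n : ℝ) - 7) ^ q * Real.sqrt ((n : ℝ) - 7) ≤ x) :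
    c * (n : ℝ) ^ (q + 2 + j) - (K + 7 * (q + 2 + j)) * (n : ℝ) ^ (q + 1 + j) * Real.sqrt n ≤
      ((n : ℝ) - 4) ^ j * (((n : ℝ) - 7) * (x + 4)) := by
  have hN : (11 : ℝ) ≤ n := by exact_mod_cast hn
  obtain ⟨N, hNd⟩ : ∃ N : ℝ, N = n := ⟨_, rfl⟩
  rw [← hNd] at hN hx ⊢
  obtain ⟨a, ha⟩ : ∃ a : ℝ, a = N - 7 := ⟨_, rfl⟩
  rw [← ha] at hx ⊢
  have ha0 : 0 ≤ a := by linarith
  have h1 : a ^ j * (a * x) ≤ (N - 4) ^ j * (a * (x + 4)) := by
    apply mul_le_mul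
    · exact pow_le_pow_left₀ ha0 (by linarith) j
    · exact mul_le_mul_of_nonneg_left (by linarith) ha0
    · positivity
    · have : 0 ≤ N - 4 := by linarith
      positivity
  refine le_trans ?_ h1
  have h2 : a ^ j * (a * (c * a ^ (q + 1) - K * a ^ q * Real.sqrt a)) ≤ a ^ j * (a * x) :=
    mul_le_mul_of_nonneg_left (mul_le_mul_of_nonneg_left hx ha0) (by positivity)
  refine le_trans ?_ h2
  have e1 : a ^ j * (a * (c * a ^ (q + 1) - K * a ^ q * Real.sqrt a)) =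
      c * a ^ (q + 1 + j + 1) - K * (a ^ (q + 1 + j) * Real.sqrt a) := by
    ring
  rw [e1]
  have h3 : a ^ (q + 1 + j) * Real.sqrt a ≤ N ^ (q + 1 + j) * Real.sqrt N := by
    apply mul_le_mul
    · exact pow_le_pow_left₀ ha0 (by linarith) _
    · exact Real.sqrt_le_sqrt (by linarith)
    · exact Real.sqrt_nonneg _
    · have : 0 ≤ N := by linarith
      positivity
  have h4 := mul_le_mul_of_nonneg_left h3 hK
  have h5 := bern N (by linarith) (q + 1 + j)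
  rw [← ha] at h5
  have h6 := mul_le_mul_of_nonneg_left h5 hc0
  have h7 : 1 ≤ Real.sqrt N := by
    rw [Real.one_le_sqrt]
    linarith
  have hN0 : 0 ≤ N := by linarith
  have h8 : c * (7 * (((q + 1 + j : ℕ) : ℝ) + 1) * N ^ (q + 1 + j)) ≤
      (7 * (((q + 1 + j : ℕ) : ℝ) + 1) * N ^ (q + 1 + j)) * Real.sqrt N := by
    have h9 : (0 : ℝ) ≤ 7 * (((q + 1 + j : ℕ) : ℝ) + 1) * N ^ (q + 1 + j) := by positivity
    nlinarith
  have e2 : q + 2 + j = q + 1 + j + 1 := by ring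
  rw [e2]
  push_cast at h8 h6 ⊢
  nlinarith

end Pool.Agent.Lib.MP_1a3405_co.Mid
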