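import Mathlib
import Pool.Agent.Lib.MP_1a3405_co.Sn.Stack

/-!
An induced path in the square `[m] × [m]` of density `2/3` with both ends on one side.
-/

namespace Pool.Agent.Lib.MP_1a3405_co.Mid

open Sn

theorem map_on {V W : Type*} {adj : V → V → Prop} {adj' : W → W → Prop} (φ : V → W) {a b : V}
    {L : List V} (h : IP adj a b L) (hφ : ∀ x ∈ L, ∀ y ∈ L, φ x = φ y → x = y)
    (ha : ∀ x ∈ L, ∀ y ∈ L, (adj' (φ x) (φ y) ↔ adj x y)) :
    IP adj' (φ a) (φ b) (L.map φ) := by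
  induction h with
  | single a => simpa using IP.single (adj := adj') (φ a)
  | @cons a b' e L hab hL hc ih =>
    rw [List.map_cons]
    refine IP.cons ((ha _ (by simp) _ (List.mem_cons_of_mem _ hL.left_mem)).2 hab)
      (ih (fun x hx y hy => hφ x (List.mem_cons_of_mem _ hx) y (List.mem_cons_of_mem _ hy))
        (fun x hx y hy => ha x (List.mem_cons_of_mem _ hx) y (List.mem_cons_of_mem _ hy))) ?_
    intro c hcm
    obtain ⟨c, hcL, rfl⟩ := List.mem_map.1 hcm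
    have := hc c hcL
    refine ⟨fun h => this.1 (hφ _ (List.mem_cons_of_mem _ hcL) _ (by simp) h), fun h => ?_⟩
    rw [this.2 ((ha _ (by simp) _ (List.mem_cons_of_mem _ hcL)).1 h)]

/-- the slope conditions -/
def Slope (G : ℤ → ℤ) : Prop :=
  (∀ y, G (y + 1) = G y ∨ G (y + 1) = G y + 1 ∨ G (y + 1) = G y - 1) ∧
  (∀ y, G (y + 1) ≠ G y → G (y + 1 + 1) ≠ G y)

/-- row `y` of a line -/
def row (G : ℤ → ℤ) (y : ℤ) : List P3 :=
  if G (y + 1) = G y then [⟨G y, y, 0⟩] else [⟨G y, y, 0⟩, ⟨G (y + 1), y, 0⟩]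

/-- the first `n` rows of a line -/
def ln (G : ℤ → ℤ) : ℕ → List P3
  | 0 => []
  | n + 1 => ln G n ++ row G ((n : ℤ) + 1)

theorem mem_row {G : ℤ → ℤ} {y : ℤ} {p : P3} (h : p ∈ row G y) :
    p.u = y ∧ p.v = 0 ∧ (p.x = G y ∨ p.x = G (y + 1)) := by
  unfold row at h
  split_ifs at h with hg
  · rw [List.mem_singleton] at h
    subst h
    simp
  · simp only [List.mem_cons, List.not_mem_nil, or_false] at h
    rcases h with rfl | rfl <;> simp

/-- the cells of a line -/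
def pL (G : ℤ → ℤ) (n x u : ℤ) : Prop := 1 ≤ u ∧ u ≤ n ∧ (x = G u ∨ x = G (u + 1))

theorem mem_ln {G : ℤ → ℤ} {n : ℕ} {p : P3} (h : p ∈ ln G n) : pL G n p.x p.u ∧ p.v = 0 := by
  induction n with
  | zero => simp [ln] at h
  | succ n ih =>
    rw [ln, List.mem_append] at h
    rcases h with h | h
    · obtain ⟨⟨h1, h2, h3⟩, h4⟩ := ih h
      exact ⟨⟨h1, by push_cast; omega, h3⟩, h4⟩
    · obtain ⟨h1, h2, h3⟩ := mem_row h
      rw [← h1] at h3
      exact ⟨⟨by omega, by push_cast; omega, h3⟩, h2⟩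

theorem ip_row {G : ℤ → ℤ} (hG : Slope G) (y : ℤ) :
    IP adj3 ⟨G y, y, 0⟩ ⟨G (y + 1), y, 0⟩ (row G y) := by
  unfold row
  split_ifs with hg
  · rw [hg]
    exact IP.single _
  · refine IP.cons ?_ (IP.single _) ?_
    · have := hG.1 y
      refine Or.inl ⟨rfl, rfl, ?_⟩
      simp only
      omega
    · intro c hc
      rw [List.mem_singleton] at hc
      subst hc
      refine ⟨?_, fun _ => rfl⟩
      intro h
      exact hg (congrArg P3.x h)

theorem ip_ln {G : ℤ → ℤ} (hG : Slope G) (n : ℕ) :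
    IP adj3 ⟨G 1, 1, 0⟩ ⟨G ((n : ℤ) + 1 + 1), (n : ℤ) + 1, 0⟩ (ln G (n + 1)) := by
  induction n with
  | zero =>
    have h := ip_row hG 1
    simpa [ln] using h
  | succ n ih =>
    rw [ln]
    have h := ip_row hG (((n + 1 : ℕ) : ℤ) + 1)
    push_cast at h ⊢
    refine ih.append h ?_ ?_
    · exact Or.inr (Or.inl ⟨rfl, rfl, Or.inr rfl⟩)
    · intro x hx y hy
      obtain ⟨⟨a1, a2, a3⟩, a4⟩ := mem_ln hx
      obtain ⟨b1, b2, b3⟩ := mem_row hy
      push_cast at a2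
      refine cross_of ?_ ?_
      · omega
      · intro h
        unfold adj3 at h
        simp only
        have hu : x.u = (n : ℤ) + 1 := by omega
        rw [hu] at a3
        have h3 : x.x = y.x := by omega
        have g1 := hG.1 ((n : ℤ) + 1)
        have g2 := hG.2 ((n : ℤ) + 1)
        have g3 := hG.1 ((n : ℤ) + 1 + 1)
        refine ⟨⟨?_, hu, a4⟩, ?_, ?_, b2⟩ <;> omega

/-- the data of a line with flat ends -/
structure Flat (G : ℤ → ℤ) (n : ℕ) (c₀ c₁ : ℤ) : Prop where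
  slope : Slope G
  three : 4 ≤ n
  b1 : G 1 = c₀
  b2 : G 2 = c₀
  b3 : G 3 = c₀
  t0 : G ((n : ℤ) - 1) = c₁
  t1 : G n = c₁
  t2 : G ((n : ℤ) + 1) = c₁

theorem Flat.facts {G : ℤ → ℤ} {n : ℕ} {c₀ c₁ : ℤ} (hF : Flat G n c₀ c₁) {x u : ℤ}
    (h : pL G n x u) : (u = 1 → x = c₀) ∧ (u = 2 → x = c₀) ∧ (u = n → x = c₁) ∧
      (u = (n : ℤ) - 1 → x = c₁) := by
  obtain ⟨h1, h2, h3⟩ := h
  refine ⟨?_, ?_, ?_, ?_⟩
  · rintro rfl
    have e : (1 : ℤ) + 1 = 2 := rfl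
    rw [e, hF.b1, hF.b2] at h3
    omega
  · rintro rfl
    have e : (2 : ℤ) + 1 = 3 := rfl
    rw [e, hF.b2, hF.b3] at h3
    omega
  · rintro rfl
    rw [hF.t1, hF.t2] at h3
    omega
  · rintro rfl
    have e : (n : ℤ) - 1 + 1 = n := by ring
    rw [e, hF.t0, hF.t1] at h3
    omega

theorem pL_cross {G : ℤ → ℤ} (hG : Slope G) {n x u x' u' k : ℤ} (h : pL G n x u)
    (h' : pL G n (x' - k) u') (hk : 3 ≤ k) : (u = u' → x + 2 ≤ x') ∧
      ((u = u' + 1 ∨ u' = u + 1) → x + 1 ≤ x') := by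
  obtain ⟨h1, h2, h3⟩ := h
  obtain ⟨h1', h2', h3'⟩ := h'
  refine ⟨?_, ?_⟩
  · rintro rfl
    have := hG.1 u
    omega
  · rintro (rfl | rfl)
    · have g1 := hG.1 u'
      have g2 := hG.1 (u' + 1)
      omega
    · have g1 := hG.1 u
      have g2 := hG.1 (u + 1)
      omega

/-- a pair of lines -/
def md (G : ℤ → ℤ) (n : ℕ) (c₀ c₁ : ℤ) : List P3 :=
  ln G n ++ ([⟨c₁ + 1, n, 0⟩, ⟨c₁ + 2, n, 0⟩] ++
    (((ln G n).map (sh ⟨3, 0, 0⟩)).reverse ++ [⟨c₀ + 4, 1, 0⟩, ⟨c₀ + 5, 1, 0⟩]))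

theorem length_md (G : ℤ → ℤ) (n : ℕ) (c₀ c₁ : ℤ) :
    (md G n c₀ c₁).length = 2 * (ln G n).length + 4 := by
  unfold md
  simp only [List.length_append, List.length_reverse, List.length_map, List.length_cons,
    List.length_nil]
  omega

/-- the cells of a pair of lines -/
def pM (G : ℤ → ℤ) (n c₀ c₁ x u : ℤ) : Prop :=
  pL G n x u ∨ (u = n ∧ c₁ + 1 ≤ x ∧ x ≤ c₁ + 2) ∨ pL G n (x - 3) u ∨
    (u = 1 ∧ c₀ + 4 ≤ x ∧ x ≤ c₀ + 5)

theorem mem_dn {G : ℤ → ℤ} {n : ℕ} {p : P3} (h : p ∈ ((ln G n).map (sh ⟨3, 0, 0⟩)).reverse) :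
    pL G n (p.x - 3) p.u ∧ p.v = 0 := by
  rw [List.mem_reverse] at h
  obtain ⟨z, hz, rfl⟩ := List.mem_map.1 h
  obtain ⟨h1, h2⟩ := mem_ln hz
  simp only [sh]
  have e1 : z.x + 3 - 3 = z.x := by ring
  have e2 : z.u + 0 = z.u := by ring
  rw [e1, e2]
  exact ⟨h1, by omega⟩

theorem mem_md {G : ℤ → ℤ} {n : ℕ} {c₀ c₁ : ℤ} {p : P3} (h : p ∈ md G n c₀ c₁) :
    pM G n c₀ c₁ p.x p.u ∧ p.v = 0 := by
  unfold md at h
  simp only [List.mem_append, List.mem_cons, List.not_mem_nil, or_false] at h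
  unfold pM
  rcases h with h | (rfl | rfl) | h | rfl | rfl
  · exact ⟨Or.inl (mem_ln h).1, (mem_ln h).2⟩
  · simp
  · simp
  · exact ⟨Or.inr (Or.inr (Or.inl (mem_dn h).1)), (mem_dn h).2⟩
  · simp
  · simp

theorem ip_md {G : ℤ → ℤ} {n : ℕ} {c₀ c₁ : ℤ} (hF : Flat G n c₀ c₁) :
    IP adj3 ⟨c₀, 1, 0⟩ ⟨c₀ + 5, 1, 0⟩ (md G n c₀ c₁) := by
  have hn := hF.three
  have hu := ip_ln hF.slope (n - 1)
  have e1 : n - 1 + 1 = n := by omega
  have e2 : ((n - 1 : ℕ) : ℤ) + 1 = n := by omega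
  rw [e1, e2, hF.t2, hF.b1] at hu
  have hd : IP adj3 ⟨c₁ + 3, n, 0⟩ ⟨c₀ + 3, 1, 0⟩ ((ln G n).map (sh ⟨3, 0, 0⟩)).reverse := by
    have h := (hu.shift ⟨3, 0, 0⟩).reverse adj3_symm
    have e3 : sh ⟨3, 0, 0⟩ ⟨c₁, n, 0⟩ = ⟨c₁ + 3, n, 0⟩ := by simp [sh]
    have e4 : sh ⟨3, 0, 0⟩ ⟨c₀, 1, 0⟩ = ⟨c₀ + 3, 1, 0⟩ := by simp [sh]
    rw [e3, e4] at h
    exact h
  have hj : ∀ x y : ℤ, IP adj3 ⟨x, y, 0⟩ ⟨x + 1, y, 0⟩ [⟨x, y, 0⟩, ⟨x + 1, y, 0⟩] := by
    intro x y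
    refine IP.cons (by unfold adj3; simp) (IP.single _) ?_
    intro c hc
    rw [List.mem_singleton] at hc
    subst hc
    refine ⟨?_, fun _ => rfl⟩
    intro h
    have := congrArg P3.x h
    simp only at this
    omega
  have hmj : ∀ x y : ℤ, ∀ p ∈ [(⟨x, y, 0⟩ : P3), ⟨x + 1, y, 0⟩],
      p.u = y ∧ p.v = 0 ∧ x ≤ p.x ∧ p.x ≤ x + 1 := by
    intro x y p hp
    simp only [List.mem_cons, List.not_mem_nil, or_false] at hp
    rcases hp with rfl | rfl <;> simp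
  have hj1 := hj (c₁ + 1) n
  have hj2 := hj (c₀ + 4) 1
  have m1 := hmj (c₁ + 1) n
  have m2 := hmj (c₀ + 4) 1
  have e5 : c₁ + 1 + 1 = c₁ + 2 := by ring
  have e6 : c₀ + 4 + 1 = c₀ + 5 := by ring
  rw [e5] at hj1 m1
  rw [e6] at hj2 m2
  have h1 := hd.append hj2 (Or.inl ⟨rfl, rfl, Or.inr (by simp only; ring)⟩) (by
    intro x hx y hy
    obtain ⟨a, a0⟩ := mem_dn hx
    obtain ⟨a1, a2, a3, a4⟩ := hF.facts a
    obtain ⟨b1, b2, b3, b4⟩ := m2 y hy
    refine cross_of ?_ ?_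
    · intro hc
      omega
    · intro h
      unfold adj3 at h
      simp only
      obtain ⟨a5, a6, -⟩ := a
      rcases h with ⟨g1, g2, g3 | g3⟩ | ⟨g1, g2, g3 | g3⟩ | ⟨g1, g2, g3 | g3⟩ <;>
        first
        | (exfalso; omega)
        | (refine ⟨⟨?_, ?_, ?_⟩, ?_, ?_, ?_⟩ <;> omega))
  have h2 := hj1.append h1 (Or.inl ⟨rfl, rfl, Or.inr (by simp only; ring)⟩) (by
    intro x hx y hy
    obtain ⟨b1, b2, b3, b4⟩ := m1 x hx
    rw [List.mem_append] at hy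
    refine cross_of ?_ ?_
    · intro hc
      rcases hy with hy | hy
      · obtain ⟨a, a0⟩ := mem_dn hy
        obtain ⟨a1, a2, a3, a4⟩ := hF.facts a
        omega
      · obtain ⟨a1, a2, a3, a4⟩ := m2 y hy
        omega
    · intro h
      unfold adj3 at h
      simp only
      rcases hy with hy | hy
      · obtain ⟨a, a0⟩ := mem_dn hy
        obtain ⟨a1, a2, a3, a4⟩ := hF.facts a
        obtain ⟨a5, a6, -⟩ := a
        rcases h with ⟨g1, g2, g3 | g3⟩ | ⟨g1, g2, g3 | g3⟩ | ⟨g1, g2, g3 | g3⟩ <;>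
          first
          | (exfalso; omega)
          | (refine ⟨⟨?_, ?_, ?_⟩, ?_, ?_, ?_⟩ <;> omega)
      · obtain ⟨a1, a2, a3, a4⟩ := m2 y hy
        exfalso
        omega)
  refine hu.append h2 (Or.inl ⟨rfl, rfl, Or.inr rfl⟩) ?_
  intro x hx y hy
  obtain ⟨a, a0⟩ := mem_ln hx
  obtain ⟨a1, a2, a3, a4⟩ := hF.facts a
  have a56 := a
  obtain ⟨a5, a6, -⟩ := a56
  rw [List.mem_append, List.mem_append] at hy
  rcases hy with hy | hy | hy
  · obtain ⟨b1, b2, b3, b4⟩ := m1 y hy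
    refine cross_of ?_ ?_
    · intro hc
      omega
    · intro h
      unfold adj3 at h
      simp only
      rcases h with ⟨g1, g2, g3 | g3⟩ | ⟨g1, g2, g3 | g3⟩ | ⟨g1, g2, g3 | g3⟩ <;>
        first
        | (exfalso; omega)
        | (refine ⟨⟨?_, ?_, ?_⟩, ?_, ?_, ?_⟩ <;> omega)
  · obtain ⟨b, b0⟩ := mem_dn hy
    obtain ⟨c1, c2⟩ := pL_cross hF.slope a b (le_refl _)
    refine cross_of ?_ ?_
    · intro hc
      omega
    · intro h
      unfold adj3 at h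
      exfalso
      omega
  · obtain ⟨b1, b2, b3, b4⟩ := m2 y hy
    refine cross_of ?_ ?_
    · intro hc
      omega
    · intro h
      unfold adj3 at h
      exfalso
      omega

theorem pM_facts {G : ℤ → ℤ} {n : ℕ} {c₀ c₁ : ℤ} (hF : Flat G n c₀ c₁) {x u : ℤ}
    (h : pM G n c₀ c₁ x u) : (1 ≤ u ∧ u ≤ n) ∧ (G u ≤ x ∨ G (u + 1) ≤ x) ∧
      (x ≤ G u + 3 ∨ x ≤ G (u + 1) + 3 ∨ (u = 1 ∧ x ≤ c₀ + 5)) ∧
      (u = 1 → c₀ ≤ x ∧ x ≤ c₀ + 5) ∧ (u = 2 → c₀ ≤ x ∧ x ≤ c₀ + 3) := by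
  have hn := hF.three
  have g1 := hF.b1
  have g2 := hF.b2
  have g3 := hF.t1
  unfold pM at h
  rcases h with h | h | h | h
  · obtain ⟨a1, a2, a3, a4⟩ := hF.facts h
    obtain ⟨h1, h2, h3⟩ := h
    refine ⟨⟨?_, ?_⟩, ?_, ?_, ?_, ?_⟩ <;> omega
  · obtain ⟨h1, h2, h3⟩ := h
    subst h1
    rw [g3]
    refine ⟨⟨?_, ?_⟩, ?_, ?_, ?_, ?_⟩ <;> omega
  · obtain ⟨a1, a2, a3, a4⟩ := hF.facts h
    obtain ⟨h1, h2, h3⟩ := h
    refine ⟨⟨?_, ?_⟩, ?_, ?_, ?_, ?_⟩ <;> omega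
  · obtain ⟨h1, h2, h3⟩ := h
    subst h1
    rw [g1]
    refine ⟨⟨?_, ?_⟩, ?_, ?_, ?_, ?_⟩ <;> omega

theorem ip_pl {G : ℤ → ℤ} {n : ℕ} {c₀ c₁ : ℤ} (hF : Flat G n c₀ c₁) (K : ℕ) :
    IP adj3 ⟨c₀, 1, 0⟩ ⟨c₀ + 6 * K + 5, 1, 0⟩ (rep ⟨6, 0, 0⟩ (md G n c₀ c₁) (K + 1)) := by
  have h := (ip_md hF).rep (w := ⟨6, 0, 0⟩)
    (Or.inl ⟨rfl, rfl, Or.inr (by simp only [sh]; ring)⟩) (by
    intro k hk x hx y hy
    obtain ⟨a, a0⟩ := mem_md hx
    obtain ⟨b, b0⟩ := mem_md hy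
    obtain ⟨⟨a1, a2⟩, a3, a4, a5, a6⟩ := pM_facts hF a
    obtain ⟨⟨b1, b2⟩, b3, b4, b5, b6⟩ := pM_facts hF b
    unfold shk sh
    simp only
    refine cross_of ?_ ?_
    · simp only
      rintro ⟨h1, h2, -⟩
      have hu : x.u = y.u := by omega
      rw [hu] at a3 a4 a5 a6
      have := hF.slope.1 y.u
      omega
    · intro h
      unfold adj3 at h
      simp only at h ⊢
      rcases h with ⟨g1, g2, g3⟩ | ⟨g1, g2, g3 | g3⟩ | ⟨g1, g2, g3⟩
      · have hu : x.u = y.u := by omega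
        rw [hu] at a3 a4 a5 a6
        have := hF.slope.1 y.u
        refine ⟨⟨?_, ?_, ?_⟩, ?_, ?_, ?_⟩ <;> omega
      · exfalso
        have hu : x.u = y.u + 1 := by omega
        rw [hu] at a3 a4 a5 a6
        have s1 := hF.slope.1 y.u
        have s2 := hF.slope.1 (y.u + 1)
        omega
      · exfalso
        have hu : y.u = x.u + 1 := by omega
        rw [hu] at b3 b4 b5 b6
        have s1 := hF.slope.1 x.u
        have s2 := hF.slope.1 (x.u + 1)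
        omega
      · exfalso
        omega) K
  have e : shk ⟨6, 0, 0⟩ K ⟨c₀ + 5, 1, 0⟩ = ⟨c₀ + 6 * K + 5, 1, 0⟩ := by
    unfold shk
    ext <;> push_cast <;> ring
  rw [e] at h
  exact h

/-- the zigzag wave of period `2 B` -/
def zw (B u : ℤ) : ℤ := min (u % (2 * B)) (2 * B - 1 - u % (2 * B))

/-- the wave with flat ends -/
def zg (B M y : ℤ) : ℤ := zw B (max 0 (min (y - 3) M))

theorem zmod_succ {B : ℤ} (hB : 1 ≤ B) (j : ℤ) :
    (j % (2 * B) + 1 = 2 * B ∧ (j + 1) % (2 * B) = 0) ∨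
    (j % (2 * B) + 1 < 2 * B ∧ (j + 1) % (2 * B) = j % (2 * B) + 1) := by
  have hP : 0 < 2 * B := by omega
  have h1 := Int.emod_nonneg j (ne_of_gt hP)
  have h2 := Int.emod_lt_of_pos j hP
  rcases eq_or_lt_of_le (show j % (2 * B) + 1 ≤ 2 * B by omega) with h | h
  · left
    refine ⟨h, ?_⟩
    rw [Int.add_emod]
    have : (1 : ℤ) % (2 * B) = 1 := Int.emod_eq_of_lt (by omega) (by omega)
    rw [this, h, Int.emod_self]
  · right
    refine ⟨h, ?_⟩
    rw [Int.add_emod]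
    have : (1 : ℤ) % (2 * B) = 1 := Int.emod_eq_of_lt (by omega) (by omega)
    rw [this]
    exact Int.emod_eq_of_lt (by omega) h

theorem zw_facts {B : ℤ} (hB : 1 ≤ B) (j : ℤ) :
    (zw B (j + 1) = zw B j ∨ zw B (j + 1) = zw B j + 1 ∨ zw B (j + 1) = zw B j - 1) ∧
    (zw B (j + 1) ≠ zw B j → zw B (j + 1 + 1) ≠ zw B j) ∧
    (zw B (j + 1) = zw B j → j % (2 * B) = B - 1 ∨ j % (2 * B) = 2 * B - 1) ∧
    0 ≤ zw B j ∧ zw B j ≤ B - 1 := by
  have h1 := zmod_succ hB j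
  have h2 := zmod_succ hB (j + 1)
  have h3 := Int.emod_nonneg j (show 2 * B ≠ 0 by omega)
  have h4 := Int.emod_lt_of_pos j (show 0 < 2 * B by omega)
  unfold zw
  refine ⟨?_, ?_, ?_, ?_, ?_⟩ <;> omega

theorem zw_zero {B : ℤ} (hB : 1 ≤ B) : zw B 0 = 0 := by
  unfold zw
  rw [Int.zero_emod]
  omega

theorem slope_zg {B M : ℤ} (hB : 1 ≤ B) (hM : 0 ≤ M) : Slope (zg B M) := by
  have key : ∀ y : ℤ, (y < 3 → max 0 (min (y - 3) M) = 0 ∧ max 0 (min (y + 1 - 3) M) = 0) ∧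
      (3 ≤ y → y < M + 3 → max 0 (min (y - 3) M) = y - 3 ∧
        max 0 (min (y + 1 - 3) M) = y - 3 + 1) ∧
      (M + 3 ≤ y → max 0 (min (y - 3) M) = M ∧ max 0 (min (y + 1 - 3) M) = M) := by
    intro y
    refine ⟨fun _ => ⟨?_, ?_⟩, fun _ _ => ⟨?_, ?_⟩, fun _ => ⟨?_, ?_⟩⟩ <;> omega
  refine ⟨fun y => ?_, fun y => ?_⟩
  · unfold zg
    obtain ⟨k1, k2, k3⟩ := key y
    rcases lt_or_ge y 3 with h | h
    · rw [(k1 h).1, (k1 h).2]
      left; rfl
    · rcases lt_or_ge y (M + 3) with h' | h'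
      · rw [(k2 h h').1, (k2 h h').2]
        exact (zw_facts hB _).1
      · rw [(k3 h').1, (k3 h').2]
        left; rfl
  · unfold zg
    obtain ⟨k1, k2, k3⟩ := key y
    obtain ⟨l1, l2, l3⟩ := key (y + 1)
    rcases lt_or_ge y 3 with h | h
    · rw [(k1 h).1, (k1 h).2]
      intro hc
      exact absurd rfl hc
    · rcases lt_or_ge y (M + 3) with h' | h'
      · rw [(k2 h h').1, (k2 h h').2]
        intro hc
        rcases lt_or_ge (y + 1) (M + 3) with h'' | h''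
        · rw [(l2 (by omega) h'').2]
          have := (zw_facts hB (y - 3)).2.1 hc
          have e : y + 1 - 3 + 1 = y - 3 + 1 + 1 := by ring
          rw [e]
          exact this
        · rw [(l3 h'').2]
          have e : M = y - 3 + 1 := by omega
          rw [e]
          exact hc
      · rw [(k3 h').1, (k3 h').2]
        intro hc
        exact absurd rfl hc

theorem flat_zg {B M : ℕ} (hB : 1 ≤ B) : Flat (zg B M) (M + 4) 0 (zw B M) where
  slope := slope_zg (by omega) (by omega)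
  three := by omega
  b1 := by
    unfold zg
    have e : max (0 : ℤ) (min (1 - 3) (M : ℤ)) = 0 := by omega
    rw [e]
    exact zw_zero (by omega)
  b2 := by
    unfold zg
    have e : max (0 : ℤ) (min (2 - 3) (M : ℤ)) = 0 := by omega
    rw [e]
    exact zw_zero (by omega)
  b3 := by
    unfold zg
    have e : max (0 : ℤ) (min (3 - 3) (M : ℤ)) = 0 := by omega
    rw [e]
    exact zw_zero (by omega)
  t0 := by
    unfold zg
    have e : max (0 : ℤ) (min (((M + 4 : ℕ) : ℤ) - 1 - 3) (M : ℤ)) = M := by omega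
    rw [e]
  t1 := by
    unfold zg
    have e : max (0 : ℤ) (min (((M + 4 : ℕ) : ℤ) - 3) (M : ℤ)) = M := by omega
    rw [e]
  t2 := by
    unfold zg
    have e : max (0 : ℤ) (min (((M + 4 : ℕ) : ℤ) + 1 - 3) (M : ℤ)) = M := by omega
    rw [e]

theorem one_le_row (G : ℤ → ℤ) (y : ℤ) : 1 ≤ (row G y).length := by
  unfold row
  split_ifs <;> simp

theorem length_ln {B M : ℕ} (hB : 1 ≤ B) (k : ℕ) (hk : k ≤ M) :
    2 + 2 * k ≤ (ln (zg B M) (k + 2)).length + k / B := by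
  induction k with
  | zero =>
    have e1 : (ln (zg B M) (0 + 2)).length = (row (zg B M) (((0 : ℕ) : ℤ) + 1)).length +
        (row (zg B M) (((1 : ℕ) : ℤ) + 1)).length := by
      simp [ln]
    have h1 := one_le_row (zg B M) (((0 : ℕ) : ℤ) + 1)
    have h2 := one_le_row (zg B M) (((1 : ℕ) : ℤ) + 1)
    rw [Nat.zero_div, e1]
    omega
  | succ k ih =>
    have ih := ih (by omega)
    have e1 : (ln (zg B M) (k + 1 + 2)).length = (ln (zg B M) (k + 2)).length +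
        (row (zg B M) (((k + 2 : ℕ) : ℤ) + 1)).length := by
      show (ln (zg B M) (k + 2 + 1)).length = _
      rw [ln, List.length_append]
    rw [e1]
    have h1 := one_le_row (zg B M) (((k + 2 : ℕ) : ℤ) + 1)
    have h2 : (k + 1) / B = k / B + if B ∣ k + 1 then 1 else 0 := Nat.succ_div
    by_cases hd : B ∣ k + 1
    · rw [if_pos hd] at h2
      omega
    · rw [if_neg hd] at h2
      have h3 : (row (zg B M) (((k + 2 : ℕ) : ℤ) + 1)).length = 2 := by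
        unfold row
        rw [if_neg]
        · simp
        · intro hc
          unfold zg at hc
          have e2 : max (0 : ℤ) (min (((k + 2 : ℕ) : ℤ) + 1 + 1 - 3) (M : ℤ)) = (k : ℤ) + 1 := by
            omega
          have e3 : max (0 : ℤ) (min (((k + 2 : ℕ) : ℤ) + 1 - 3) (M : ℤ)) = k := by omega
          rw [e2, e3] at hc
          apply hd
          have h4 := (zw_facts (show (1 : ℤ) ≤ B by omega) (k : ℤ)).2.2.1 hc
          have h5 := Int.emod_add_mul_ediv (k : ℤ) (2 * B)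
          have h6 : (B : ℤ) ∣ (k : ℤ) + 1 := by
            rcases h4 with h4 | h4
            · refine ⟨1 + 2 * ((k : ℤ) / (2 * B)), ?_⟩
              rw [h4] at h5
              linear_combination -h5
            · refine ⟨2 + 2 * ((k : ℤ) / (2 * B)), ?_⟩
              rw [h4] at h5
              linear_combination -h5
          exact_mod_cast h6
      omega

theorem length_ln' {B M : ℕ} (hB : 1 ≤ B) :
    4 + 2 * M ≤ (ln (zg B M) (M + 4)).length + M / B := by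
  have h1 := length_ln hB M (le_refl M)
  have e1 : (ln (zg B M) (M + 4)).length = (ln (zg B M) (M + 2)).length +
      (row (zg B M) (((M + 2 : ℕ) : ℤ) + 1)).length +
      (row (zg B M) (((M + 3 : ℕ) : ℤ) + 1)).length := by
    show (ln (zg B M) (M + 2 + 1 + 1)).length = _
    rw [ln, ln, List.length_append, List.length_append]
  have h2 := one_le_row (zg B M) (((M + 2 : ℕ) : ℤ) + 1)
  have h3 := one_le_row (zg B M) (((M + 3 : ℕ) : ℤ) + 1)
  omega

/-- the embedding of the plane -/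
def emb2 (p : P3) : Fin 2 → ℤ := ![p.x + 1, p.u]

theorem emb2_inj {p q : P3} (hp : p.v = 0) (hq : q.v = 0) (h : emb2 p = emb2 q) : p = q := by
  have h0 := congrFun h 0
  have h1 := congrFun h 1
  simp only [emb2, Matrix.cons_val_zero, Matrix.cons_val_one] at h0 h1
  exact P3.ext (by omega) h1 (by omega)

theorem adj_emb2 {p q : P3} (hp : p.v = 0) (hq : q.v = 0) :
    adjZ (emb2 p) (emb2 q) ↔ adj3 p q := by
  unfold adjZ adj3 emb2
  constructor
  · rintro ⟨i, h1, h2⟩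
    have g0 := h1 0
    have g1 := h1 1
    fin_cases i
    · simp at g1 h2
      left
      refine ⟨?_, ?_, ?_⟩ <;> omega
    · simp at g0 h2
      right; left
      refine ⟨?_, ?_, ?_⟩ <;> omega
  · rintro (⟨h1, h2, h3⟩ | ⟨h1, h2, h3⟩ | ⟨h1, h2, h3⟩)
    · refine ⟨0, ?_, ?_⟩
      · intro j hj
        fin_cases j
        · exact absurd rfl hj
        · simpa using h1
      · simp
        omega
    · refine ⟨1, ?_, ?_⟩
      · intro j hj
        fin_cases j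
        · simpa using h1
        · exact absurd rfl hj
      · simpa using h3
    · omega

theorem plane_nat (B M K : ℕ) (hB : 3 ≤ B) : ∃ (a b : Fin 2 → ℤ) (A : List (Fin 2 → ℤ)),
    IP adjZ a b A ∧ (∀ p ∈ A, (1 ≤ p 0 ∧ p 0 ≤ B + 6 * K + 3) ∧ 1 ≤ p 1 ∧ p 1 ≤ M + 4) ∧
    a 1 = 1 ∧ b 1 = 1 ∧ a 0 + 3 ≤ b 0 ∧
    (K + 1) * (4 * M + 12) ≤ A.length + (K + 1) * (2 * (M / B)) := by
  have hF := flat_zg (B := B) (M := M) (by omega)
  have h := ip_pl hF K
  have hv : ∀ p ∈ rep ⟨6, 0, 0⟩ (md (zg B M) (M + 4) 0 (zw B M)) (K + 1), p.v = 0 := by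
    intro p hp
    obtain ⟨k, -, -, x, hx, rfl⟩ := mem_rep hp
    have := (mem_md hx).2
    simp only [shk]
    omega
  refine ⟨_, _, _, map_on emb2 h (fun x hx y hy he => emb2_inj (hv x hx) (hv y hy) he)
    (fun x hx y hy => adj_emb2 (hv x hx) (hv y hy)), ?_, ?_, ?_, ?_, ?_⟩
  · intro p hp
    obtain ⟨q, hq, rfl⟩ := List.mem_map.1 hp
    obtain ⟨k, k1, k2, x, hx, rfl⟩ := mem_rep hq
    obtain ⟨⟨a1, a2⟩, a3, a4, -, -⟩ := pM_facts hF (mem_md hx).1
    have b1 : 0 ≤ zg B M x.u ∧ zg B M x.u ≤ B - 1 := by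
      have := (zw_facts (show (1 : ℤ) ≤ B by omega) (max 0 (min (x.u - 3) M))).2.2.2
      exact this
    have b2 : 0 ≤ zg B M (x.u + 1) ∧ zg B M (x.u + 1) ≤ B - 1 := by
      have := (zw_facts (show (1 : ℤ) ≤ B by omega) (max 0 (min (x.u + 1 - 3) M))).2.2.2
      exact this
    push_cast at k2 a2
    simp only [emb2, shk, Matrix.cons_val_zero, Matrix.cons_val_one]
    refine ⟨⟨?_, ?_⟩, ?_, ?_⟩ <;> omega
  · simp [emb2]
  · simp [emb2]
  · simp [emb2]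
    omega
  · rw [List.length_map, length_rep, length_md]
    have h1 := length_ln' (B := B) (M := M) (by omega)
    have h2 : (K + 1) * (4 * M + 12) ≤
        (K + 1) * (2 * (ln (zg B M) (M + 4)).length + 4 + 2 * (M / B)) :=
      Nat.mul_le_mul_left _ (by omega)
    calc (K + 1) * (4 * M + 12) ≤ _ := h2
      _ = _ := by ring

/-- **An induced path of density `2/3` in the square**, with both ends on one side. -/
theorem plane_path (m : ℕ) (hm : 100 ≤ m) : ∃ (a b : Fin 2 → ℤ) (A : List (Fin 2 → ℤ)),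
    IP adjZ a b A ∧ (∀ p ∈ A, ∀ t, 1 ≤ p t ∧ p t ≤ m) ∧ a 1 = 1 ∧ b 1 = 1 ∧ a 0 + 3 ≤ b 0 ∧
    (2 / 3 : ℝ) * m ^ 2 - 20 * m * Real.sqrt m ≤ A.length := by
  obtain ⟨s, hs⟩ : ∃ s, s = Nat.sqrt m := ⟨_, rfl⟩
  have hs1 : s * s ≤ m := by rw [hs]; exact Nat.sqrt_le m
  have hs2 : m < (s + 1) * (s + 1) := by rw [hs]; exact Nat.lt_succ_sqrt m
  have hs3 : 10 ≤ s := by
    by_contra hc
    have : (s + 1) * (s + 1) ≤ 10 * 10 := Nat.mul_le_mul (by omega) (by omega)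
    omega
  have hs4 : 10 * s ≤ m := le_trans (Nat.mul_le_mul_right s hs3) hs1
  obtain ⟨K, hK⟩ : ∃ K, K = (m - s - 4) / 6 := ⟨_, rfl⟩
  have hK1 : 6 * K ≤ m - s - 4 := by omega
  have hK2 : m - s - 4 < 6 * K + 6 := by omega
  obtain ⟨a, b, A, h1, h2, h3, h4, h5, h6⟩ := plane_nat (s + 1) (m - 4) K (by omega)
  refine ⟨a, b, A, h1, ?_, h3, h4, h5, ?_⟩
  · intro p hp t
    obtain ⟨⟨a1, a2⟩, a3, a4⟩ := h2 p hp
    push_cast at a2 a4
    fin_cases t
    · change 1 ≤ p 0 ∧ p 0 ≤ m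
      omega
    · change 1 ≤ p 1 ∧ p 1 ≤ m
      omega
  · have h7 : (m - 4) / (s + 1) ≤ s := by
      have : (m - 4) / (s + 1) < s + 1 := by
        rw [Nat.div_lt_iff_lt_mul (by omega)]
        omega
      omega
    have h8 : (K + 1) * (4 * (m - 4) + 12) ≤ A.length + (K + 1) * (2 * s) :=
      le_trans h6 (Nat.add_le_add_left (Nat.mul_le_mul_left _ (Nat.mul_le_mul_left _ h7)) _)
    have h9 : ((K : ℝ) + 1) * (4 * m - 4) ≤ A.length + (K + 1) * (2 * s) := by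
      have e : 4 * (m - 4) + 12 = 4 * m - 4 := by omega
      rw [e] at h8
      have h10 : (((K + 1) * (4 * m - 4) : ℕ) : ℝ) ≤ ((A.length + (K + 1) * (2 * s) : ℕ) : ℝ) := by
        exact_mod_cast h8
      rw [Nat.cast_mul, Nat.cast_sub (by omega)] at h10
      push_cast at h10
      exact h10
    obtain ⟨t, ht⟩ : ∃ t, t = Real.sqrt m := ⟨_, rfl⟩
    have ht2 : t * t = m := by rw [ht]; exact Real.mul_self_sqrt (by positivity)
    have ht0 : 0 ≤ t := by rw [ht]; exact Real.sqrt_nonneg _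
    have hst : (s : ℝ) ≤ t := by
      rw [ht]
      apply Real.le_sqrt_of_sq_le
      have : ((s * s : ℕ) : ℝ) ≤ m := by exact_mod_cast hs1
      push_cast at this
      nlinarith
    have hs5 : (10 : ℝ) ≤ s := by exact_mod_cast hs3
    have ht10 : 10 ≤ t := le_trans hs5 hst
    have hKr : (m : ℝ) - t - 4 ≤ 6 * (K + 1) := by
      have : ((m - s - 4 : ℕ) : ℝ) ≤ ((6 * K + 6 : ℕ) : ℝ) := by exact_mod_cast hK2.le
      rw [Nat.sub_sub, Nat.cast_sub (by omega)] at this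
      push_cast at this
      linarith
    have h11 : ((K : ℝ) + 1) * (4 * m - 4 - 2 * t) ≤ A.length := by
      have : ((K : ℝ) + 1) * (2 * s) ≤ (K + 1) * (2 * t) :=
        mul_le_mul_of_nonneg_left (by linarith) (by positivity)
      nlinarith
    have h12 : (0 : ℝ) ≤ 4 * m - 4 - 2 * t := by rw [← ht2]; nlinarith
    have h13 : ((m : ℝ) - t - 4) * (4 * m - 4 - 2 * t) ≤ 6 * (K + 1) * (4 * m - 4 - 2 * t) :=
      mul_le_mul_of_nonneg_right hKr h12
    rw [← ht]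
    rw [← ht2] at h11 h13 ⊢
    have h14 : (0 : ℝ) ≤ t * t * t := by positivity
    have h15 : (0 : ℝ) ≤ t * t * (t - 10) := mul_nonneg (by positivity) (by linarith)
    nlinarith

end Pool.Agent.Lib.MP_1a3405_co.Mid
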