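import Mathlib
import Pool.Agent.Lib.MP_1a3405_co.Mid.Base
import Pool.Agent.Lib.MP_1a3405_co.Mid.FamPath
import Pool.Agent.Lib.MP_1a3405_co.Mid.Plane
import Pool.Agent.Lib.MP_1a3405_co.Mid.Num

/-!
The lower bounds for `d < r < 2d - 1`.
-/

namespace Pool.Agent.Lib.MP_1a3405_co.Mid

open Pool.Agent.Lib.MP_1a3405_co Pool.Agent.Lib.MP_1a3405_co.Sn

/-- `r ≥ d + 2`, large `n`. -/
theorem lower_half (e j n : ℕ) (hn : (40 + 11 * e) ^ 2 + 7 ≤ n) :
    1 / 2 * (n : ℝ) ^ (e + 4 + j) -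
      ((18 + 11 / 2 * (e : ℝ)) + 7 * ((e : ℝ) + 4 + j)) * (n : ℝ) ^ (e + 3 + j) * Real.sqrt n ≤
      (maxPercTime (grid (e + 4 + j) n) (2 * e + 6 + j) : ℝ) := by
  obtain ⟨m, rfl⟩ : ∃ m, n = m + 7 := ⟨n - 7, by omega⟩
  have hm : (40 + 11 * e) ^ 2 ≤ m := by omega
  have h1600 : 1600 ≤ (40 + 11 * e) ^ 2 := by nlinarith [Nat.zero_le e]
  obtain ⟨a, b, A, t, h1, h2, h3, h4, h5, h6, h7⟩ := fam_path e m hm
  have e1 : e + 3 = (e + 1) + 2 := by ring
  have key := lower_int (D := e + 1) (n := m + 7) h1 h2 h3 h4 h5 h6 (le_refl _) (by omega) j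
  have key' : (((m + 7 : ℕ) : ℝ) - 4) ^ j * ((((m + 7 : ℕ) : ℝ) - 7) * ((A.length : ℝ) + 4)) ≤
      (maxPercTime (grid (e + 1 + 3 + j) (m + 7)) (2 * (e + 1) + 4 + j) : ℝ) := by
    exact_mod_cast key
  have e2 : e + 1 + 3 + j = e + 4 + j := by ring
  have e3 : 2 * (e + 1) + 4 + j = 2 * e + 6 + j := by ring
  rw [e2, e3] at key'
  refine le_trans ?_ key'
  have hc : ((m + 7 : ℕ) : ℝ) - 7 = m := by push_cast; ring
  have hnum := num (c := 1 / 2) (K := 18 + 11 / 2 * (e : ℝ)) (by norm_num) (by norm_num)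
    (by positivity) (e + 2) j (m + 7) (by omega) (x := (A.length : ℝ)) (by positivity) (by
      rw [hc]
      refine le_trans (le_of_eq ?_) h7
      ring)
  have e5 : e + 2 + 2 + j = e + 4 + j := by ring
  have e6 : e + 2 + 1 + j = e + 3 + j := by ring
  rw [e5, e6] at hnum
  have e7 : (18 + 11 / 2 * (e : ℝ)) + 7 * (((e + 2 : ℕ) : ℝ) + 2 + j) =
      (18 + 11 / 2 * (e : ℝ)) + 7 * ((e : ℝ) + 4 + j) := by
    push_cast; ring
  rw [e7] at hnum
  exact hnum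

/-- `r = d + 1`, large `n`. -/
theorem lower_thirds (j n : ℕ) (hn : 107 ≤ n) :
    2 / 3 * (n : ℝ) ^ (3 + j) -
      (20 + 7 * (3 + (j : ℝ))) * (n : ℝ) ^ (2 + j) * Real.sqrt n ≤
      (maxPercTime (grid (3 + j) n) (4 + j) : ℝ) := by
  obtain ⟨m, rfl⟩ : ∃ m, n = m + 7 := ⟨n - 7, by omega⟩
  obtain ⟨a, b, A, h1, h2, h4, h5, h6, h7⟩ := plane_path m (by omega)
  have key := lower_int (D := 0) (t := 1) (n := m + 7) h1 h2 (by norm_num) h4 h5 h6 (le_refl _)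
    (by omega) j
  have key' : (((m + 7 : ℕ) : ℝ) - 4) ^ j * ((((m + 7 : ℕ) : ℝ) - 7) * ((A.length : ℝ) + 4)) ≤
      (maxPercTime (grid (0 + 3 + j) (m + 7)) (2 * 0 + 4 + j) : ℝ) := by
    exact_mod_cast key
  have e2 : 0 + 3 + j = 3 + j := by ring
  have e3 : 2 * 0 + 4 + j = 4 + j := by ring
  rw [e2, e3] at key'
  refine le_trans ?_ key'
  have hc : ((m + 7 : ℕ) : ℝ) - 7 = m := by push_cast; ring
  have hnum := num (c := 2 / 3) (K := 20) (by norm_num) (by norm_num)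
    (by positivity) 1 j (m + 7) (by omega) (x := (A.length : ℝ)) (by positivity) (by
      rw [hc, pow_one]
      exact h7)
  have e5 : 1 + 2 + j = 3 + j := by ring
  have e6 : 1 + 1 + j = 2 + j := by ring
  rw [e5, e6] at hnum
  have e7 : (20 : ℝ) + 7 * (((1 : ℕ) : ℝ) + 2 + j) = 20 + 7 * (3 + (j : ℝ)) := by
    push_cast; ring
  rw [e7] at hnum
  exact hnum

/-- The bound `c n^d - K n^(d-1) √n` is trivial when `c √n ≤ K`. -/
lemma trivial_bound {c K : ℝ} {k n : ℕ} {M : ℝ} (hM : 0 ≤ M)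
    (h : c * Real.sqrt n ≤ K) :
    c * (n : ℝ) ^ (k + 1) - K * (n : ℝ) ^ k * Real.sqrt n ≤ M := by
  refine le_trans ?_ hM
  have hn0 : (0 : ℝ) ≤ n := Nat.cast_nonneg n
  have hss : Real.sqrt n * Real.sqrt n = n := Real.mul_self_sqrt hn0
  have e1 : c * (n : ℝ) ^ (k + 1) = c * Real.sqrt n * ((n : ℝ) ^ k * Real.sqrt n) := by
    rw [pow_succ]
    calc c * ((n : ℝ) ^ k * n) = c * ((n : ℝ) ^ k * (Real.sqrt n * Real.sqrt n)) := by rw [hss]
      _ = _ := by ring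
  rw [e1]
  have h2 : 0 ≤ (n : ℝ) ^ k * Real.sqrt n := by positivity
  have h3 := mul_le_mul_of_nonneg_right h h2
  linarith

/-- **Lower bound, `r = d + 1`.** -/
theorem lower_succ (d n : ℕ) (hd : 3 ≤ d) :
    2 / 3 * (n : ℝ) ^ d - 14 * (d : ℝ) * (n : ℝ) ^ (d - 1) * Real.sqrt n ≤
      (maxPercTime (grid d n) (d + 1) : ℝ) := by
  obtain ⟨j, rfl⟩ : ∃ j, d = 3 + j := ⟨d - 3, by omega⟩
  have hj0 : (0 : ℝ) ≤ j := by positivity
  have e1 : 3 + j - 1 = 2 + j := by omega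
  rw [e1]
  rcases le_or_gt 107 n with hn | hn
  · have h1 := lower_thirds j n hn
    have e2 : 3 + j + 1 = 4 + j := by ring
    rw [e2]
    refine le_trans ?_ h1
    have h2 : 0 ≤ (n : ℝ) ^ (2 + j) * Real.sqrt n := by positivity
    have h3 : (0 : ℝ) ≤ (14 * ((3 + j : ℕ) : ℝ) - (20 + 7 * (3 + (j : ℝ)))) := by
      push_cast; linarith
    have h4 := mul_nonneg h3 h2
    nlinarith
  · have e3 : 3 + j = 2 + j + 1 := by ring
    rw [e3]
    apply trivial_bound (Nat.cast_nonneg _)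
    have h1 : Real.sqrt n ≤ 11 := by
      rw [Real.sqrt_le_left (by norm_num)]
      have : (n : ℝ) ≤ 107 := by exact_mod_cast hn.le
      linarith
    push_cast
    linarith

/-- **Lower bound, `r ≥ d + 2`.** -/
theorem lower_two (d r n : ℕ) (hr : d + 2 ≤ r) (hr' : r + 2 ≤ 2 * d) :
    1 / 2 * (n : ℝ) ^ d - 14 * (d : ℝ) * (n : ℝ) ^ (d - 1) * Real.sqrt n ≤
      (maxPercTime (grid d n) r : ℝ) := by
  obtain ⟨e, j, rfl, rfl⟩ : ∃ e j, d = e + 4 + j ∧ r = 2 * e + 6 + j :=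
    ⟨r - d - 2, 2 * d - r - 2, by omega, by omega⟩
  have hj0 : (0 : ℝ) ≤ j := by positivity
  have he0 : (0 : ℝ) ≤ e := by positivity
  have e1 : e + 4 + j - 1 = e + 3 + j := by omega
  rw [e1]
  rcases le_or_gt ((40 + 11 * e) ^ 2 + 7) n with hn | hn
  · refine le_trans ?_ (lower_half e j n hn)
    have h2 : 0 ≤ (n : ℝ) ^ (e + 3 + j) * Real.sqrt n := by positivity
    have h3 : (0 : ℝ) ≤ (14 * ((e + 4 + j : ℕ) : ℝ) -
        ((18 + 11 / 2 * (e : ℝ)) + 7 * ((e : ℝ) + 4 + j))) := by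
      push_cast; linarith
    have h4 := mul_nonneg h3 h2
    nlinarith
  · have e3 : e + 4 + j = e + 3 + j + 1 := by ring
    rw [e3]
    apply trivial_bound (Nat.cast_nonneg _)
    have h1 : Real.sqrt n ≤ 41 + 11 * e := by
      rw [Real.sqrt_le_left (by positivity)]
      have : (n : ℝ) ≤ (40 + 11 * e) ^ 2 + 7 := by exact_mod_cast hn.le
      nlinarith
    push_cast
    linarith

end Pool.Agent.Lib.MP_1a3405_co.Mid
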